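import Mathlib

/-!
# Gaussian means of polynomials
-/

set_option autoImplicit false

namespace Pool.Agent.H53HC

open Filter Topology Polynomial MeasureTheory Finset

/-- the Gaussian weight -/
noncomputable def gw (s : ℝ) : ℝ := Real.exp (-(1 / 4) * s ^ 2)

theorem gw_pos (s : ℝ) : 0 < gw s := Real.exp_pos _

theorem integrable_pow_gw (k : ℕ) : Integrable (fun s : ℝ => s ^ k * gw s) := by
  have h := integrable_rpow_mul_exp_neg_mul_sq (b := 1 / 4) (by norm_num) (s := (k : ℝ))
    (by have : (0 : ℝ) ≤ k := Nat.cast_nonneg k; linarith)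
  refine h.congr (Eventually.of_forall fun s => ?_)
  simp only [gw, Real.rpow_natCast]

theorem integrable_poly (q : ℂ[X]) : Integrable (fun s : ℝ => q.eval (s : ℂ) * (gw s : ℂ)) := by
  have h : (fun s : ℝ => q.eval (s : ℂ) * (gw s : ℂ)) = fun s : ℝ =>
      ∑ k ∈ range (q.natDegree + 1), q.coeff k * (((s ^ k * gw s : ℝ)) : ℂ) := by
    funext s
    rw [Polynomial.eval_eq_sum_range, Finset.sum_mul]
    refine Finset.sum_congr rfl fun k _ => ?_
    push_cast
    ring
  rw [h]
  exact integrable_finsetSum _ fun k _ => ((integrable_pow_gw k).ofReal).const_mul _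

/-- the Gaussian integral of a polynomial -/
noncomputable def GI (q : ℂ[X]) : ℂ := ∫ s : ℝ, q.eval (s : ℂ) * (gw s : ℂ)

theorem GI_add (p q : ℂ[X]) : GI (p + q) = GI p + GI q := by
  unfold GI
  rw [← integral_add (integrable_poly p) (integrable_poly q)]
  congr 1
  funext s
  rw [Polynomial.eval_add]
  ring

theorem GI_smul (c : ℂ) (q : ℂ[X]) : GI (C c * q) = c * GI q := by
  unfold GI
  rw [← integral_const_mul]
  congr 1
  funext s
  rw [Polynomial.eval_mul, Polynomial.eval_C]
  ring

theorem GI_X_mul (q : ℂ[X]) : GI (X * q) = 2 * GI (derivative q) := by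
  have h1 : ∀ s : ℝ, HasDerivAt (fun s : ℝ => q.eval (s : ℂ) * (gw s : ℂ))
      ((derivative q - C (1 / 2) * (X * q)).eval (s : ℂ) * (gw s : ℂ)) s := by
    intro s
    have e1 : HasDerivAt (fun s : ℝ => q.eval (s : ℂ)) ((derivative q).eval (s : ℂ)) s :=
      (q.hasDerivAt (s : ℂ)).comp_ofReal
    have e2 : HasDerivAt gw (gw s * (-(1 / 2) * s)) s := by
      have e3 : HasDerivAt (fun s : ℝ => -(1 / 4) * s ^ 2) (-(1 / 2) * s) s := by
        have := (hasDerivAt_pow 2 s).const_mul (-(1 / 4) : ℝ)
        refine this.congr_deriv ?_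
        norm_num
        ring
      exact e3.exp
    have e4 : HasDerivAt (fun s : ℝ => (gw s : ℂ)) ((gw s * (-(1 / 2) * s) : ℝ) : ℂ) s :=
      e2.ofReal_comp
    refine (e1.mul e4).congr_deriv ?_
    simp only [Polynomial.eval_sub, Polynomial.eval_mul, Polynomial.eval_C, Polynomial.eval_X]
    push_cast
    ring
  have h2 := integral_eq_zero_of_hasDerivAt_of_integrable h1 (integrable_poly _)
    (integrable_poly q)
  have h3 : GI (derivative q - C (1 / 2) * (X * q)) = 0 := h2
  have h4 : derivative q - C (1 / 2) * (X * q) = derivative q + C (-(1 / 2)) * (X * q) := by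
    rw [C_neg]; ring
  rw [h4, GI_add, GI_smul] at h3
  linear_combination (-2) * h3

theorem GI_one_pos : 0 < (GI 1).re := by
  have h : GI 1 = ((∫ s : ℝ, gw s : ℝ) : ℂ) := by
    unfold GI
    rw [← integral_complex_ofReal]
    congr 1
    funext s
    simp
  rw [h, Complex.ofReal_re]
  have h2 := integrable_pow_gw 0
  simp only [pow_zero, one_mul] at h2
  rw [integral_pos_iff_support_of_nonneg (fun s => (gw_pos s).le) h2]
  have h3 : Function.support gw = Set.univ := by
    ext s
    simp [(gw_pos s).ne']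
  rw [h3]
  simp

theorem GI_one_im : (GI 1).im = 0 := by
  have h : GI 1 = ((∫ s : ℝ, gw s : ℝ) : ℂ) := by
    unfold GI
    rw [← integral_complex_ofReal]
    congr 1
    funext s
    simp
  rw [h, Complex.ofReal_im]

/-- the sum of the even derivatives at zero -/
noncomputable def Lam (N : ℕ) (q : ℂ[X]) : ℂ :=
  ∑ j ∈ range N, (j.factorial : ℂ)⁻¹ * (derivative^[2 * j] q).eval 0

theorem Lam_eq (N : ℕ) (q : ℂ[X]) : Lam N q =
    ∑ j ∈ range N, (j.factorial : ℂ)⁻¹ * (((2 * j).factorial : ℂ) * q.coeff (2 * j)) := by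
  refine Finset.sum_congr rfl fun j _ => ?_
  congr 1
  have h := Polynomial.coeff_iterate_derivative (k := 2 * j) q 0
  rw [Polynomial.coeff_zero_eq_eval_zero, zero_add, Nat.descFactorial_self, nsmul_eq_mul] at h
  exact h

theorem GI_pow (k : ℕ) : GI (X ^ k) = GI 1 * (if k % 2 = 0 then
    (k.factorial : ℂ) * ((k / 2).factorial : ℂ)⁻¹ else 0) := by
  induction k using Nat.strong_induction_on with
  | _ k ih =>
    rcases Nat.lt_or_ge k 2 with hk | hk
    · interval_cases k
      · simp
      · have h := GI_X_mul 1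
        rw [mul_one] at h
        have h0 : GI 0 = 0 := by unfold GI; simp
        rw [pow_one, h, derivative_one, h0]
        simp
    · obtain ⟨j, rfl⟩ : ∃ j, k = j + 2 := ⟨k - 2, by omega⟩
      have h1 : (X : ℂ[X]) ^ (j + 2) = X * X ^ (j + 1) := by ring
      have h2 : derivative ((X : ℂ[X]) ^ (j + 1)) = C ((j + 1 : ℕ) : ℂ) * X ^ j := by
        rw [derivative_X_pow]
        simp
      rw [h1, GI_X_mul, h2, GI_smul, ih j (by omega)]
      rw [Nat.add_mod_right]
      by_cases hj : j % 2 = 0
      · rw [if_pos hj, if_pos hj]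
        obtain ⟨i, rfl⟩ : ∃ i, j = 2 * i := ⟨j / 2, by omega⟩
        have e1 : (2 * i + 2) / 2 = i + 1 := by omega
        have e2 : 2 * i / 2 = i := by omega
        rw [e1, e2, Nat.factorial_succ (2 * i + 1), Nat.factorial_succ (2 * i),
          Nat.factorial_succ i]
        have e3 : ((i : ℂ) + 1) ≠ 0 := Nat.cast_add_one_ne_zero i
        have e4 : (i.factorial : ℂ) ≠ 0 := Nat.cast_ne_zero.2 (Nat.factorial_ne_zero i)
        push_cast
        field_simp
        ring
      · rw [if_neg hj, if_neg hj]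
        simp

theorem GI_eq (q : ℂ[X]) {N : ℕ} (hN : q.natDegree < 2 * N) : GI q = GI 1 * Lam N q := by
  have h1 : GI q = ∑ k ∈ range (2 * N), q.coeff k * GI (X ^ k) := by
    have h2 : q = ∑ k ∈ range (2 * N), C (q.coeff k) * X ^ k := by
      conv_lhs => rw [Polynomial.as_sum_range' q (2 * N) hN]
      exact Finset.sum_congr rfl fun k _ => (Polynomial.C_mul_X_pow_eq_monomial).symm
    have h3 : ∀ (s : Finset ℕ) (f : ℕ → ℂ[X]), GI (∑ k ∈ s, f k) = ∑ k ∈ s, GI (f k) := by
      intro s f
      induction s using Finset.induction_on with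
      | empty => unfold GI; simp
      | insert a s ha ih => rw [Finset.sum_insert ha, Finset.sum_insert ha, GI_add, ih]
    conv_lhs => rw [h2]
    rw [h3]
    exact Finset.sum_congr rfl fun k _ => GI_smul _ _
  rw [h1, Lam_eq, Finset.mul_sum]
  have h4 : ∀ (N : ℕ) (f : ℕ → ℂ), ∑ k ∈ range (2 * N), f k =
      ∑ j ∈ range N, (f (2 * j) + f (2 * j + 1)) := by
    intro N f
    induction N with
    | zero => simp
    | succ N ih =>
      rw [mul_add, mul_one, Finset.sum_range_succ, Finset.sum_range_succ, ih,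
        Finset.sum_range_succ]
      ring
  rw [h4]
  refine Finset.sum_congr rfl fun j _ => ?_
  rw [GI_pow, GI_pow]
  have e1 : 2 * j % 2 = 0 := by omega
  have e2 : (2 * j + 1) % 2 ≠ 0 := by omega
  have e3 : 2 * j / 2 = j := by omega
  rw [if_pos e1, if_neg e2, e3]
  ring

/-- **The heat semigroup preserves nonnegativity.** -/
theorem Lam_nonneg (q : ℂ[X]) {N : ℕ} (hN : q.natDegree < 2 * N)
    (h : ∀ s : ℝ, 0 ≤ (q.eval (s : ℂ)).re) : 0 ≤ (Lam N q).re := by
  have h1 : 0 ≤ (GI q).re := by
    have h2 : (GI q).re = ∫ s : ℝ, (q.eval (s : ℂ) * (gw s : ℂ)).re := by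
      unfold GI
      exact (integral_re (integrable_poly q)).symm
    rw [h2]
    refine integral_nonneg fun s => ?_
    rw [Complex.re_mul_ofReal]
    exact mul_nonneg (h s) (gw_pos s).le
  rw [GI_eq q hN, Complex.mul_re, GI_one_im, zero_mul, sub_zero] at h1
  by_contra hn
  push Not at hn
  nlinarith [mul_neg_of_pos_of_neg GI_one_pos hn]

end Pool.Agent.H53HC
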