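import Pool.Agent.H53HC.YfSign
import Pool.Agent.H53HC.Gauss

/-!
# Squares of skew-symmetric forms
-/

set_option autoImplicit false
set_option linter.unusedSectionVars false

namespace Pool.Agent.H53HC

open Filter Topology Matrix Finset Pool.Agent.W666.GB

variable {ι : Type*} [Fintype ι] [DecidableEq ι]

/-- truncated exponential -/
noncomputable def expo (T : Module.End ℂ (PR ι)) (N : ℕ) (p : PR ι) : PR ι :=
  ∑ j ∈ range N, ((j.factorial : ℂ)⁻¹) • (T ^ j) p

/-- operators which lower the degree -/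
def Low (T : Module.End ℂ (PR ι)) : Prop := ∀ (N : ℕ) (p : PR ι), Fil (N + 1) p → Fil N (T p)

theorem Low.add {S T : Module.End ℂ (PR ι)} (hS : Low S) (hT : Low T) : Low (S + T) :=
  fun N p h => (hS N p h).add (hT N p h)

theorem Low.pow {T : Module.End ℂ (PR ι)} (hT : Low T) (j N : ℕ) (p : PR ι)
    (h : Fil (N + j) p) : Fil N ((T ^ j) p) := by
  induction j generalizing p with
  | zero => exact h
  | succ j ih =>
    rw [pow_succ, Module.End.mul_apply]
    exact ih _ (hT (N + j) p h)

theorem Low.pow' {T : Module.End ℂ (PR ι)} (hT : Low T) (j N : ℕ) (p : PR ι)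
    (h : Fil N p) : Fil N ((T ^ j) p) := hT.pow j N p (h.mono (Nat.le_add_right N j))

theorem Low.expo {T : Module.End ℂ (PR ι)} (hT : Low T) (N M : ℕ) (p : PR ι) (h : Fil M p) :
    Fil M (expo T N p) := Fil.sum fun j _ => (hT.pow' j M p h).smul _

theorem low_Lop (C : ι → ι → ι → ι → ℝ) : Low (Lop C) := by
  intro N p h
  rw [Lop_apply]
  exact Fil.sum fun i _ => Fil.sum fun j _ => Fil.sum fun k _ =>
    Fil.sum fun l _ => Fil.smul (Fil.D' (h.D _) _) _

theorem low_dz2 (x : Matrix ι ι ℂ) : Low (dz x * dz x) := by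
  intro N p h
  exact Fil.D' (h.D _) _

theorem expo_add {A B : Module.End ℂ (PR ι)} (hA : Low A) (hB : Low B) (hAB : Commute A B)
    {N : ℕ} {p : PR ι} (hp : Fil N p) : expo (A + B) N p = expo B N (expo A N p) := by
  have h0 : ∀ i j : ℕ, N ≤ i + j → (A ^ i * B ^ j) p = 0 := by
    intro i j hij
    have h1 : Fil i ((B ^ j) p) := hB.pow j i p (hp.mono hij)
    have h2 : Fil 0 ((A ^ i) ((B ^ j) p)) := hA.pow i 0 _ (by rwa [zero_add])
    exact h2.zero
  have h1 : ∀ k : ℕ, ((k.factorial : ℂ)⁻¹) • ((A + B) ^ k) p =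
      ∑ i ∈ range (k + 1), (((i.factorial : ℂ)⁻¹) * (((k - i).factorial : ℂ)⁻¹)) •
        (A ^ i * B ^ (k - i)) p := by
    intro k
    rw [hAB.add_pow, LinearMap.sum_apply, Finset.smul_sum]
    refine Finset.sum_congr rfl fun i hi => ?_
    have hik : i ≤ k := by
      have := Finset.mem_range.1 hi
      omega
    have h2 : (A ^ i * B ^ (k - i) * (k.choose i : Module.End ℂ (PR ι))) p =
        (k.choose i : ℂ) • (A ^ i * B ^ (k - i)) p := by
      rw [Module.End.mul_apply]
      have : ((k.choose i : Module.End ℂ (PR ι))) p = (k.choose i : ℂ) • p := by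
        rw [Module.End.natCast_apply, ← Nat.cast_smul_eq_nsmul ℂ]
      rw [this, map_smul]
    rw [h2, smul_smul]
    congr 1
    have h3 := Nat.choose_mul_factorial_mul_factorial hik
    have h4 : ((k.choose i : ℂ)) * (i.factorial : ℂ) * ((k - i).factorial : ℂ) =
        (k.factorial : ℂ) := by exact_mod_cast h3
    have h5 : (i.factorial : ℂ) ≠ 0 := Nat.cast_ne_zero.2 (Nat.factorial_ne_zero i)
    have h6 : ((k - i).factorial : ℂ) ≠ 0 := Nat.cast_ne_zero.2 (Nat.factorial_ne_zero _)
    have h7 : (k.factorial : ℂ) ≠ 0 := Nat.cast_ne_zero.2 (Nat.factorial_ne_zero k)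
    field_simp
    linear_combination h4
  unfold expo
  simp only [h1]
  rw [Finset.sum_range_diag_flip N (fun i j => (((i.factorial : ℂ)⁻¹) *
    ((j.factorial : ℂ)⁻¹)) • (A ^ i * B ^ j) p)]
  simp only [map_sum, map_smul, Finset.smul_sum]
  rw [Finset.sum_comm (s := range N) (t := range N)]
  refine Finset.sum_congr rfl fun i _ => ?_
  rw [Finset.sum_subset (s₂ := range N) (Finset.range_mono (Nat.sub_le N i))]
  · refine Finset.sum_congr rfl fun j _ => ?_
    rw [smul_smul, ← Module.End.mul_apply (B ^ j), ((hAB.pow_pow i j).eq), mul_comm]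
  · intro j _ hj
    rw [Finset.mem_range, not_lt] at hj
    rw [h0 i j (by omega), smul_zero]

/-- nonnegative on the real skew-symmetric matrices -/
def PosK (F : PR ι) : Prop := ∀ B : Matrix ι ι ℝ, Bᵀ = -B →
  0 ≤ (MvPolynomial.eval (pt 0 (cm B) 1) F).re

theorem totalDegree_of_fil {N : ℕ} (hN : 0 < N) {F : PR ι} (h : Fil N F) :
    F.totalDegree < N := by
  rw [MvPolynomial.totalDegree, Finset.sup_lt_iff (by simpa using hN)]
  intro m hm
  by_contra hn
  push Not at hn
  exact (MvPolynomial.mem_support_iff.1 hm) (h m hn)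

theorem PosK.avg {F : PR ι} (h : PosK F) {K : Matrix ι ι ℝ} (hK : Kᵀ = -K) {N : ℕ} (hN : 0 < N)
    (hF : Fil N F) : PosK (expo (dz (cm K) * dz (cm K)) N F) := by
  intro B hB
  set q := cv (pt 0 (cm B) 1) (pt 0 (cm K) 0) 0 F with hq
  have h1 : ∀ i, (Polynomial.derivative^[i] q) =
      cv (pt 0 (cm B) 1) (pt 0 (cm K) 0) 0 ((dz (cm K) ^ i) F) := by
    intro i
    induction i with
    | zero => rfl
    | succ i ih =>
      rw [Function.iterate_succ_apply', ih, cv_derivative, D_zero', pow_succ',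
        Module.End.mul_apply, dz_apply]
      simp [cv]
  have h2 : MvPolynomial.eval (pt 0 (cm B) 1) (expo (dz (cm K) * dz (cm K)) N F) = Lam N q := by
    rw [expo, map_sum, Lam]
    refine Finset.sum_congr rfl fun j _ => ?_
    rw [MvPolynomial.smul_eval, h1, ← Polynomial.coeff_zero_eq_eval_zero, cv_coeff_zero,
      pow_mul, sq]
  rw [h2]
  refine Lam_nonneg q ?_ fun s => ?_
  · have h3 := cv_natDegree (pt 0 (cm B) 1) (pt 0 (cm K) 0) F
    have h4 := totalDegree_of_fil hN hF
    rw [← hq] at h3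
    omega
  · rw [hq, eval_cv, smul_zero, add_zero, pt_smul, smul_zero, pt_add, add_zero, mul_zero,
      add_zero, ← cm_smul, ← cm_add]
    refine h _ ?_
    rw [Matrix.transpose_add, Matrix.transpose_smul, hB, hK, smul_neg, neg_add]

theorem Lop_add (C C' : ι → ι → ι → ι → ℝ) :
    Lop (fun i j k l => C i j k l + C' i j k l) = Lop C + Lop C' := by
  unfold Lop
  simp only [Complex.ofReal_add, add_smul, Finset.sum_add_distrib]

theorem Lop_sq (K : Matrix ι ι ℝ) :
    Lop (fun i j k l => K i j * K k l) = dz (cm K) * dz (cm K) := by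
  have h1 : ∀ x : Matrix ι ι ℂ, dz x = ∑ i, ∑ j, x i j • dz (single i j 1) := by
    intro x
    have h2 : x = ∑ i, ∑ j, x i j • single i j (1 : ℂ) := by
      conv_lhs => rw [matrix_eq_sum_single x]
      refine Finset.sum_congr rfl fun i _ => Finset.sum_congr rfl fun j _ => ?_
      rw [smul_single, smul_eq_mul, mul_one]
    have h3 : ∀ (s : Finset ι) (f : ι → Matrix ι ι ℂ), dz (∑ i ∈ s, f i) = ∑ i ∈ s, dz (f i) := by
      intro s f
      induction s using Finset.induction_on with
      | empty => simp [dz_zero']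
      | insert a s ha ih => rw [Finset.sum_insert ha, Finset.sum_insert ha, dz_add, ih]
    conv_lhs => rw [h2]
    rw [h3]
    refine Finset.sum_congr rfl fun i _ => ?_
    rw [h3]
    refine Finset.sum_congr rfl fun j _ => ?_
    rw [dz_smul]
  rw [h1 (cm K)]
  unfold Lop
  rw [Finset.sum_mul]
  refine Finset.sum_congr rfl fun i _ => ?_
  rw [Finset.sum_mul]
  refine Finset.sum_congr rfl fun j _ => ?_
  rw [Finset.mul_sum]
  refine Finset.sum_congr rfl fun k _ => ?_
  rw [Finset.mul_sum]
  refine Finset.sum_congr rfl fun l _ => ?_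
  rw [smul_mul_smul_comm]
  congr 1
  simp [cm]

theorem posK_sum {C : ι → ι → ι → ι → ℝ} (hC : TraceCone C) {N : ℕ}
    (hN : (p0 ι).totalDegree < N) (hN' : Fil N (q0 ι)) {κ : Type*} (s : Finset κ)
    (K : κ → Matrix ι ι ℝ) (hK : ∀ a, (K a)ᵀ = -K a) :
    PosK (expo (Lop (fun i j k l => C i j k l + ∑ a ∈ s, K a i j * K a k l)) N (q0 ι)) := by
  classical
  induction s using Finset.induction_on with
  | empty =>
    intro B hB
    obtain ⟨M, rfl⟩ : ∃ M, N = M + 1 := ⟨N - 1, by omega⟩
    have h1 := sum_nonneg_lim hC (K := M) (by omega) hB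
    simp only [Finset.sum_empty, add_zero]
    rw [expo, map_sum]
    simpa only [MvPolynomial.smul_eval] using h1
  | insert a s ha ih =>
    have h1 : Lop (fun i j k l => C i j k l + ∑ b ∈ insert a s, K b i j * K b k l) =
        Lop (fun i j k l => C i j k l + ∑ b ∈ s, K b i j * K b k l) +
          dz (cm (K a)) * dz (cm (K a)) := by
      rw [← Lop_sq, ← Lop_add]
      congr 1
      funext i j k l
      rw [Finset.sum_insert ha]
      ring
    have hm : dz (cm (K a)) * dz (cm (K a)) ∈ Az ι :=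
      Subalgebra.mul_mem _ (dz_mem _) (dz_mem _)
    rw [h1, expo_add (low_Lop _) (low_dz2 _) (Az_comm' (Lop_mem _) hm) hN']
    exact ih.avg (hK a) (by omega) ((low_Lop _).expo N N _ hN')

/-- **The sign of the double alternating sum**: tensors of the cone plus squares of real
skew-symmetric forms. -/
theorem Yf_nonneg_sq {m : ℕ}
    {C : Fin m × Bool → Fin m × Bool → Fin m × Bool → Fin m × Bool → ℝ}
    (hC : TraceCone C) {κ : Type*} (s : Finset κ)
    (K : κ → Matrix (Fin m × Bool) (Fin m × Bool) ℝ) (hK : ∀ a, (K a)ᵀ = -K a) :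
    0 ≤ Yf (fun i j k l => C i j k l + ∑ a ∈ s, K a i j * K a k l) := by
  set N := (p0 (Fin m × Bool)).totalDegree + (q0 (Fin m × Bool)).totalDegree + m + 1 with hN
  have h1 := posK_sum hC (N := N) (by omega) ((fil_totalDegree _).mono (by omega)) s K hK 0
    (by simp)
  have h0c : cm (0 : Matrix (Fin m × Bool) (Fin m × Bool) ℝ) = 0 := by
    ext i j; simp [cm]
  rw [h0c, expo, map_sum, Finset.sum_eq_single m] at h1
  · rw [MvPolynomial.smul_eval, eval_Lop_q0, ← Complex.ofReal_natCast, ← Complex.ofReal_inv,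
      Complex.re_ofReal_mul, Complex.ofReal_re] at h1
    have h2 : 0 < ((m.factorial : ℝ))⁻¹ := by positivity
    by_contra hn
    push Not at hn
    nlinarith [mul_neg_of_pos_of_neg h2 hn]
  · intro k _ hk
    rw [MvPolynomial.smul_eval, eval_Lop_q0_ne _ hk, mul_zero]
  · intro hm
    exact absurd (Finset.mem_range.2 (by omega)) hm

end Pool.Agent.H53HC
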