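import Mathlib

/-!
# The Harnack inequality for polynomials without zeros in a half plane
-/

set_option autoImplicit false

namespace Pool.Agent.H53HC

open Filter Topology Polynomial

/-- Harnack's inequality in the right half plane, in the form satisfied by the polynomials of
degree at most `d` without zeros there (and by the zero polynomial). -/
def HB (d : ℕ) (f : ℂ → ℂ) : Prop :=
  ∀ z₁ z₂ : ℂ, 0 < z₁.re → ‖f z₂‖ * z₁.re ^ d ≤ (z₁.re + ‖z₂ - z₁‖) ^ d * ‖f z₁‖

theorem HB.zero_of_root {d : ℕ} {f : ℂ → ℂ} (h : HB d f) {z : ℂ} (hz : 0 < z.re) (h0 : f z = 0)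
    (w : ℂ) : f w = 0 := by
  have h1 := h z w hz
  rw [h0, norm_zero, mul_zero] at h1
  have h2 : 0 < z.re ^ d := pow_pos hz d
  have h3 : ‖f w‖ ≤ 0 := by
    by_contra hn
    push Not at hn
    exact absurd h1 (not_le.2 (mul_pos hn h2))
  exact norm_le_zero_iff.1 h3

theorem HB.ne_zero {d : ℕ} {f : ℂ → ℂ} (h : HB d f) {w : ℂ} (hw : f w ≠ 0) {z : ℂ}
    (hz : 0 < z.re) : f z ≠ 0 := fun h0 => hw (h.zero_of_root hz h0 w)

theorem HB.const_mul {d : ℕ} {f : ℂ → ℂ} (h : HB d f) (c : ℂ) : HB d (fun z => c * f z) := by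
  intro z₁ z₂ hz
  have h1 := h z₁ z₂ hz
  rw [norm_mul, norm_mul]
  have := mul_le_mul_of_nonneg_left h1 (norm_nonneg c)
  nlinarith

theorem HB.scale {d : ℕ} {f : ℂ → ℂ} (h : HB d f) {s : ℝ} (hs : 0 < s) :
    HB d (fun z => f (s * z)) := by
  intro z₁ z₂ hz
  have hre : ((s : ℂ) * z₁).re = s * z₁.re := by simp
  have h1 := h (s * z₁) (s * z₂) (by rw [hre]; exact mul_pos hs hz)
  have h2 : ‖(s : ℂ) * z₂ - s * z₁‖ = s * ‖z₂ - z₁‖ := by
    rw [← mul_sub, norm_mul, Complex.norm_real, Real.norm_of_nonneg hs.le]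
  rw [hre, h2, ← mul_add, mul_pow, mul_pow] at h1
  have h3 : 0 < s ^ d := pow_pos hs d
  have h4 : s ^ d * (‖f (s * z₂)‖ * z₁.re ^ d) ≤
      s ^ d * ((z₁.re + ‖z₂ - z₁‖) ^ d * ‖f (s * z₁)‖) := by
    calc _ = ‖f (s * z₂)‖ * (s ^ d * z₁.re ^ d) := by ring
      _ ≤ _ := h1
      _ = _ := by ring
  exact le_of_mul_le_mul_left h4 h3

theorem HB.lim {d : ℕ} {X : Type*} {l : Filter X} [NeBot l] {F : X → ℂ → ℂ} {f : ℂ → ℂ}
    (h : ∀ᶠ x in l, HB d (F x)) (hf : ∀ z, Tendsto (fun x => F x z) l (𝓝 (f z))) : HB d f := by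
  intro z₁ z₂ hz
  refine le_of_tendsto_of_tendsto ((hf z₂).norm.mul_const _) ((hf z₁).norm.const_mul _) ?_
  filter_upwards [h] with x hx
  exact hx z₁ z₂ hz

theorem HB.congr {d : ℕ} {f g : ℂ → ℂ} (h : HB d f) (he : ∀ z, f z = g z) : HB d g := by
  have : f = g := funext he
  rwa [← this]

theorem HB.zero (d : ℕ) : HB d (fun _ => 0) := by
  intro z₁ z₂ _
  simp

theorem prod_ineq (s : Multiset ℂ) (hs : ∀ a ∈ s, a.re ≤ 0) (z₁ z₂ : ℂ) (hz : 0 < z₁.re) :
    ‖(s.map fun a => z₂ - a).prod‖ * z₁.re ^ s.card ≤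
      (z₁.re + ‖z₂ - z₁‖) ^ s.card * ‖(s.map fun a => z₁ - a).prod‖ := by
  induction s using Multiset.induction_on with
  | empty => simp
  | cons a s ih =>
    have h1 := ih fun b hb => hs b (Multiset.mem_cons_of_mem hb)
    have h2 := hs a (Multiset.mem_cons_self a s)
    rw [Multiset.map_cons, Multiset.map_cons, Multiset.prod_cons, Multiset.prod_cons,
      Multiset.card_cons, norm_mul, norm_mul, pow_succ, pow_succ]
    have h3 : z₁.re ≤ ‖z₁ - a‖ := by
      have := Complex.re_le_norm (z₁ - a)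
      rw [Complex.sub_re] at this
      linarith
    have h4 : ‖z₂ - a‖ ≤ ‖z₁ - a‖ + ‖z₂ - z₁‖ := by
      have : z₂ - a = (z₁ - a) + (z₂ - z₁) := by ring
      rw [this]
      exact norm_add_le _ _
    have h5 : ‖z₂ - a‖ * z₁.re ≤ (z₁.re + ‖z₂ - z₁‖) * ‖z₁ - a‖ := by
      nlinarith [norm_nonneg (z₂ - z₁)]
    calc _ = (‖z₂ - a‖ * z₁.re) * (‖(s.map fun a => z₂ - a).prod‖ * z₁.re ^ s.card) := by ring
      _ ≤ ((z₁.re + ‖z₂ - z₁‖) * ‖z₁ - a‖) *
          ((z₁.re + ‖z₂ - z₁‖) ^ s.card * ‖(s.map fun a => z₁ - a).prod‖) := by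
        refine mul_le_mul h5 h1 ?_ ?_
        · positivity
        · have := norm_nonneg (z₂ - z₁)
          have := norm_nonneg (z₁ - a)
          positivity
      _ = _ := by ring

theorem HB.of_roots {d : ℕ} {q : ℂ[X]} (hd : q.natDegree ≤ d)
    (h : ∀ z : ℂ, 0 < z.re → q.eval z ≠ 0) : HB d (fun z => q.eval z) := by
  intro z₁ z₂ hz
  have hs : ∀ a ∈ q.roots, a.re ≤ 0 := by
    intro a ha
    by_contra hn
    push Not at hn
    exact h a hn (Polynomial.isRoot_of_mem_roots ha)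
  have hsp := IsAlgClosed.splits q
  have hcard : q.roots.card = q.natDegree := hsp.natDegree_eq_card_roots.symm
  have h1 := prod_ineq q.roots hs z₁ z₂ hz
  simp only [hsp.eval_eq_prod_roots, norm_mul]
  have h2 : z₁.re ^ (d - q.roots.card) ≤ (z₁.re + ‖z₂ - z₁‖) ^ (d - q.roots.card) :=
    pow_le_pow_left₀ hz.le (by linarith [norm_nonneg (z₂ - z₁)]) _
  have h3 : z₁.re ^ d = z₁.re ^ q.roots.card * z₁.re ^ (d - q.roots.card) := by
    rw [← pow_add]; congr 1; omega
  have h4 : (z₁.re + ‖z₂ - z₁‖) ^ d = (z₁.re + ‖z₂ - z₁‖) ^ q.roots.card *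
      (z₁.re + ‖z₂ - z₁‖) ^ (d - q.roots.card) := by
    rw [← pow_add]; congr 1; omega
  rw [h3, h4]
  have h6 := norm_nonneg (z₂ - z₁)
  calc _ = ‖q.leadingCoeff‖ * ((‖(q.roots.map fun a => z₂ - a).prod‖ * z₁.re ^ q.roots.card) *
        z₁.re ^ (d - q.roots.card)) := by ring
    _ ≤ ‖q.leadingCoeff‖ * (((z₁.re + ‖z₂ - z₁‖) ^ q.roots.card *
        ‖(q.roots.map fun a => z₁ - a).prod‖) *
        (z₁.re + ‖z₂ - z₁‖) ^ (d - q.roots.card)) := by
      refine mul_le_mul_of_nonneg_left ?_ (norm_nonneg _)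
      exact mul_le_mul h1 h2 (by positivity) (by positivity)
    _ = _ := by ring

theorem HB.derivative {d : ℕ} {q : ℂ[X]} (hd : q.natDegree ≤ d) (h : HB d (fun z => q.eval z)) :
    HB d (fun z => q.derivative.eval z) := by
  by_cases h0 : q.derivative = 0
  · rw [h0]
    exact (HB.zero d).congr fun z => by simp
  have hq : q ≠ 0 := by
    rintro rfl
    simp at h0
  have hdeg : 0 < q.degree := by
    by_contra hn
    push Not at hn
    rw [Polynomial.eq_C_of_degree_le_zero hn] at h0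
    simp at h0
  have hw : ∃ w : ℂ, q.eval w ≠ 0 := by
    by_contra hn
    push Not at hn
    exact hq (Polynomial.funext fun r => by rw [hn r, Polynomial.eval_zero])
  obtain ⟨w, hw⟩ := hw
  refine HB.of_roots ((Polynomial.natDegree_derivative_le q).trans (by omega)) fun z hz h1 => ?_
  have h2 : z ∈ q.derivative.rootSet ℂ := by
    rw [Polynomial.mem_rootSet]
    exact ⟨h0, by simpa using h1⟩
  have h3 := Polynomial.rootSet_derivative_subset_convexHull_rootSet hdeg h2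
  have h4 : convexHull ℝ (q.rootSet ℂ) ⊆ {z : ℂ | z.re ≤ 0} := by
    refine convexHull_min ?_ ?_
    · intro a ha
      rw [Polynomial.mem_rootSet] at ha
      by_contra hn
      simp only [Set.mem_setOf_eq, not_le] at hn
      exact h.ne_zero hw hn (by simpa using ha.2)
    · exact convex_halfSpace_re_le 0
  exact absurd (h4 h3) (not_le.2 hz)

end Pool.Agent.H53HC
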