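import Pool.Agent.H53HC.Trace

/-!
# Accretive matrices
-/

set_option autoImplicit false
set_option linter.unusedSectionVars false

namespace Pool.Agent.H53HC

open Filter Topology Matrix Finset

variable {ι : Type*} [Fintype ι] [DecidableEq ι]

/-- the squared Euclidean norm -/
noncomputable def nsq (v : ι → ℂ) : ℝ := ∑ i, ‖v i‖ ^ 2

theorem nsq_nonneg (v : ι → ℂ) : 0 ≤ nsq v := Finset.sum_nonneg fun _ _ => sq_nonneg _

theorem nsq_eq_zero {v : ι → ℂ} (h : nsq v ≤ 0) : v = 0 := by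
  have h1 : nsq v = 0 := le_antisymm h (nsq_nonneg v)
  funext i
  have h2 := (Finset.sum_eq_zero_iff_of_nonneg (fun i _ => sq_nonneg ‖v i‖)).1 h1 i
    (Finset.mem_univ i)
  simpa using h2

theorem nsq_neg (v : ι → ℂ) : nsq (-v) = nsq v := by simp [nsq]

theorem dot_self (v : ι → ℂ) : star v ⬝ᵥ v = (nsq v : ℂ) := by
  simp only [dotProduct, nsq, Pi.star_apply, RCLike.star_def, Complex.conj_mul']
  push_cast
  rfl

theorem dot_comm_re (v w : ι → ℂ) : (star v ⬝ᵥ w).re = (star w ⬝ᵥ v).re := by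
  simp only [dotProduct, Complex.re_sum, Pi.star_apply, RCLike.star_def]
  refine Finset.sum_congr rfl fun i _ => ?_
  simp [Complex.mul_re]
  ring

/-- matrices with nonnegative Hermitian part, with a margin `s` -/
def Acc (s : ℝ) (Z : Matrix ι ι ℂ) : Prop := ∀ v : ι → ℂ, s * nsq v ≤ (star v ⬝ᵥ Z *ᵥ v).re

/-- the compact set of the transformed matrices -/
def YY (ε : ℝ) : Set (Matrix ι ι ℂ) :=
  {Y | ∀ v : ι → ℂ, ε * nsq (Y *ᵥ v) ≤ (star v ⬝ᵥ Y *ᵥ v).re}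

theorem Acc.add {s s' : ℝ} {Z Z' : Matrix ι ι ℂ} (h : Acc s Z) (h' : Acc s' Z') :
    Acc (s + s') (Z + Z') := by
  intro v
  rw [Matrix.add_mulVec, dotProduct_add, Complex.add_re]
  have := h v
  have := h' v
  linarith

theorem Acc.smul {s : ℝ} {Z : Matrix ι ι ℂ} (h : Acc s Z) {c : ℝ} (hc : 0 ≤ c) :
    Acc (c * s) ((c : ℂ) • Z) := by
  intro v
  rw [Matrix.smul_mulVec, dotProduct_smul, smul_eq_mul, Complex.re_ofReal_mul, mul_assoc]
  exact mul_le_mul_of_nonneg_left (h v) hc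

theorem Acc.smul0 {Z : Matrix ι ι ℂ} (h : Acc 0 Z) {c : ℝ} (hc : 0 ≤ c) :
    Acc 0 ((c : ℂ) • Z) := by
  have := h.smul hc
  rwa [mul_zero] at this

theorem Acc.scalar (z : ℂ) : Acc z.re (z • (1 : Matrix ι ι ℂ)) := by
  intro v
  rw [Matrix.smul_mulVec, Matrix.one_mulVec, dotProduct_smul, dot_self, smul_eq_mul,
    Complex.re_mul_ofReal]

theorem Acc.zero : Acc 0 (0 : Matrix ι ι ℂ) := by
  intro v
  simp

theorem Acc.mono {s s' : ℝ} {Z : Matrix ι ι ℂ} (h : Acc s Z) (hs : s' ≤ s) : Acc s' Z :=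
  fun v => (mul_le_mul_of_nonneg_right hs (nsq_nonneg v)).trans (h v)

theorem Acc.add_scalar {Z : Matrix ι ι ℂ} (h : Acc 0 Z) {z : ℂ} (hz : 0 ≤ z.re) :
    Acc 0 (Z + z • 1) :=
  (h.add (Acc.scalar z)).mono (by linarith)

/-- `i x` is accretive with Hermitian part zero for a Hermitian matrix `x` -/
theorem Acc.imag {x : Matrix ι ι ℂ} (hx : x.IsHermitian) (c : ℝ) :
    Acc 0 (((c : ℂ) * Complex.I) • x) := by
  intro v
  rw [Matrix.smul_mulVec, dotProduct_smul, smul_eq_mul, zero_mul]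
  have h1 : (star v ⬝ᵥ x *ᵥ v).im = 0 := herm_im hx v
  rw [mul_assoc, Complex.re_ofReal_mul, Complex.I_mul_re, h1]
  simp

theorem Acc.psd {x : Matrix ι ι ℂ} (hx : Psd x) : Acc 0 x := by
  intro v
  rw [zero_mul]
  exact hx.2 v

/-- real skew-symmetric matrices are accretive -/
theorem Acc.skew {x : Matrix ι ι ℝ} (hx : xᵀ = -x) : Acc 0 (x.map Complex.ofReal) := by
  have h1 : ((-Complex.I) • x.map Complex.ofReal).IsHermitian := by
    ext i j
    have h2 := congrFun (congrFun hx i) j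
    simp only [Matrix.transpose_apply, Matrix.neg_apply] at h2
    simp [Matrix.conjTranspose_apply, h2]
  have h2 := Acc.imag h1 1
  rw [smul_smul, Complex.ofReal_one, one_mul] at h2
  have h3 : Complex.I * -Complex.I = 1 := by
    rw [mul_neg, Complex.I_mul_I, neg_neg]
  rwa [h3, one_smul] at h2

theorem YY.isUnit {ε : ℝ} (hε : 0 < ε) {Y Z : Matrix ι ι ℂ} (hY : Y ∈ YY ε) (hZ : Acc 0 Z) :
    IsUnit (1 + Y * Z).det := by
  rw [isUnit_iff_ne_zero]
  intro h0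
  obtain ⟨v, hv0, hv⟩ := Matrix.exists_mulVec_eq_zero_iff.2 h0
  rw [Matrix.add_mulVec, Matrix.one_mulVec, ← Matrix.mulVec_mulVec] at hv
  have h1 : Y *ᵥ (Z *ᵥ v) = -v := eq_neg_of_add_eq_zero_right hv
  have h2 := hY (Z *ᵥ v)
  have h3 := hZ v
  rw [h1, nsq_neg, dotProduct_neg, Complex.neg_re, dot_comm_re] at h2
  rw [zero_mul] at h3
  have h4 : nsq v ≤ 0 := by
    by_contra hn
    push Not at hn
    have := mul_pos hε hn
    linarith
  exact hv0 (nsq_eq_zero h4)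

theorem YY.trans {ε : ℝ} (hε : 0 < ε) {s : ℝ} (hs : 0 ≤ s) {Y Z : Matrix ι ι ℂ} (hY : Y ∈ YY ε)
    (hZ : Acc s Z) : (1 + Y * Z)⁻¹ * Y ∈ YY (ε + s) := by
  intro w
  have hu := YY.isUnit hε hY (hZ.mono hs)
  set v := ((1 + Y * Z)⁻¹ * Y) *ᵥ w with hv
  have h1 : v + Y *ᵥ (Z *ᵥ v) = Y *ᵥ w := by
    have : (1 + Y * Z) *ᵥ v = Y *ᵥ w := by
      rw [hv, ← Matrix.mulVec_mulVec, Matrix.mulVec_mulVec, Matrix.mul_nonsing_inv _ hu,
        Matrix.one_mulVec]
    rw [← this, Matrix.add_mulVec, Matrix.one_mulVec, Matrix.mulVec_mulVec]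
  have h2 : Y *ᵥ (w - Z *ᵥ v) = v := by
    rw [Matrix.mulVec_sub, ← h1]
    abel
  have h3 := hY (w - Z *ᵥ v)
  have h4 := hZ v
  rw [h2, star_sub, sub_dotProduct, Complex.sub_re, dot_comm_re (Z *ᵥ v) v] at h3
  linarith

theorem YY.mono {ε ε' : ℝ} (h : ε ≤ ε') : (YY ε' : Set (Matrix ι ι ℂ)) ⊆ YY ε :=
  fun _ hY v => (mul_le_mul_of_nonneg_right h (nsq_nonneg _)).trans (hY v)

theorem YY.norm_le {ε : ℝ} (hε : 0 < ε) {Y : Matrix ι ι ℂ} (hY : Y ∈ YY ε) (i j : ι) :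
    ‖Y i j‖ ≤ 1 / ε := by
  have h1 := hY (Pi.single j 1)
  have h2 : Y *ᵥ Pi.single j 1 = fun i => Y i j := by
    funext i
    simp [mulVec, dotProduct, Pi.single_apply]
  have h3 : (star (Pi.single j (1 : ℂ)) ⬝ᵥ fun i => Y i j) = Y j j := by
    simp [dotProduct, Pi.single_apply]
  rw [h2, h3] at h1
  set S := nsq (fun i => Y i j) with hS
  have h4 : ∀ k, ‖Y k j‖ ^ 2 ≤ S := fun k =>
    Finset.single_le_sum (f := fun i => ‖Y i j‖ ^ 2) (fun i _ => sq_nonneg _)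
      (Finset.mem_univ k)
  have h5 : (Y j j).re ≤ ‖Y j j‖ := Complex.re_le_norm _
  have h6 : ε * ‖Y j j‖ ^ 2 ≤ ‖Y j j‖ :=
    (mul_le_mul_of_nonneg_left (h4 j) hε.le).trans (h1.trans h5)
  have h7 : ‖Y j j‖ ≤ 1 / ε := by
    rcases (norm_nonneg (Y j j)).eq_or_lt with h | h
    · rw [← h]; positivity
    · rw [le_div_iff₀ hε]
      by_contra hn
      push Not at hn
      nlinarith
  have h8 : S ≤ (1 / ε) ^ 2 := by
    have h9 : ε * S ≤ 1 / ε := h1.trans (h5.trans h7)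
    have h10 : (1 / ε) ^ 2 = (1 / ε) / ε := by field_simp
    rw [h10, le_div_iff₀ hε]
    linarith
  exact abs_le_of_sq_le_sq' ((h4 i).trans h8) (by positivity) |>.2

theorem YY.isCompact {ε : ℝ} (hε : 0 < ε) : IsCompact (YY ε : Set (Matrix ι ι ℂ)) := by
  have h1 : IsCompact (Set.pi Set.univ fun _ : ι => Set.pi Set.univ fun _ : ι =>
      Metric.closedBall (0 : ℂ) (1 / ε)) :=
    isCompact_univ_pi fun _ => isCompact_univ_pi fun _ => isCompact_closedBall _ _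
  refine h1.of_isClosed_subset ?_ ?_
  · have : (YY ε : Set (Matrix ι ι ℂ)) =
        ⋂ v : ι → ℂ, {Y | ε * nsq (Y *ᵥ v) ≤ (star v ⬝ᵥ Y *ᵥ v).re} := by
      ext Y
      simp [YY]
    rw [this]
    refine isClosed_iInter fun v => isClosed_le ?_ ?_
    · have : Continuous fun Y : Matrix ι ι ℂ => Y *ᵥ v :=
        continuous_id.matrix_mulVec continuous_const
      unfold nsq
      fun_prop
    · have : Continuous fun Y : Matrix ι ι ℂ => Y *ᵥ v :=
        continuous_id.matrix_mulVec continuous_const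
      exact Complex.continuous_re.comp (continuous_const.dotProduct this)
  · intro Y hY i _ j _
    rw [mem_closedBall_zero_iff]
    exact YY.norm_le hε hY i j

theorem YY.scalar {ε : ℝ} (hε : 0 < ε) : ((ε⁻¹ : ℝ) : ℂ) • (1 : Matrix ι ι ℂ) ∈ YY ε := by
  intro v
  rw [Matrix.smul_mulVec, Matrix.one_mulVec, dotProduct_smul, dot_self, smul_eq_mul,
    Complex.re_ofReal_mul, Complex.ofReal_re]
  have : nsq (((ε⁻¹ : ℝ) : ℂ) • v) = (ε⁻¹) ^ 2 * nsq v := by
    simp only [nsq, Pi.smul_apply, smul_eq_mul, norm_mul, mul_pow, Finset.mul_sum,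
      Complex.norm_real, Real.norm_eq_abs, sq_abs]
  rw [this]
  have h2 : ε * (ε⁻¹ ^ 2 * nsq v) = ε⁻¹ * nsq v := by field_simp
  rw [h2]

end Pool.Agent.H53HC
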