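import Pool.Agent.H53HC.Ops
import Pool.Agent.H53HC.Mat
import Pool.Agent.H53HC.Harn

/-!
# The local analysis at the first exit time
-/

set_option autoImplicit false
set_option linter.unusedSectionVars false

namespace Pool.Agent.H53HC

open Filter Topology Matrix Finset

variable {ι : Type*} [Fintype ι] [DecidableEq ι]

/-- the data at a first exit -/
structure Hyp (C : ι → ι → ι → ι → ℝ) (δ ε : ℝ) (Y : Matrix ι ι ℂ) (t₀ : ℝ) (d : ℕ)
    (F : PR ι) : Prop where
  hb : ∀ t : ℝ, 0 ≤ t → t ≤ t₀ → ∀ Z : Matrix ι ι ℂ, Acc 0 Z →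
    HB d (fun z => MvPolynomial.eval (pt Y (Z + z • 1) t) F)
  pde : dt F = Le C δ ε F
  r1 : ∀ u : ι → ℂ, dz (vecMulVec u (star u)) (dz (vecMulVec u (star u)) F) = 0
  zero : MvPolynomial.eval (pt Y 0 t₀) F = 0

theorem D_zero' (F : PR ι) : D (0 : Var ι → ℂ) F = 0 := by
  rw [D_eq_sum]
  simp

theorem dz_zero' : dz (0 : Matrix ι ι ℂ) = 0 := by
  have := dz_smul (0 : ℂ) (0 : Matrix ι ι ℂ)
  rwa [zero_smul, zero_smul] at this

theorem lim2 (F : PR ι) (Y : Matrix ι ι ℂ) (t₀ : ℝ) (A B : Matrix ι ι ℂ) (s : ℝ)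
    (h0 : MvPolynomial.eval (pt Y 0 t₀) F = 0)
    (h1 : MvPolynomial.eval (pt Y 0 t₀) (dz A F) = 0) :
    Tendsto (fun τ : ℝ => ((τ : ℂ) ^ 2)⁻¹ *
      MvPolynomial.eval (pt Y ((τ : ℂ) • A + (τ : ℂ) ^ 2 • B) ((t₀ - s * τ ^ 2 : ℝ) : ℂ)) F)
      (𝓝[>] 0) (𝓝 (MvPolynomial.eval (pt Y 0 t₀) (dz A (dz A F)) / 2 +
        MvPolynomial.eval (pt Y 0 t₀) (dz B F) - s * MvPolynomial.eval (pt Y 0 t₀) (dt F))) := by
  have e1 : (cv (pt Y 0 t₀) (pt 0 A 0) (pt 0 B (-s)) F).coeff 0 = 0 := by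
    rw [cv_coeff_zero, h0]
  have e2 : (cv (pt Y 0 t₀) (pt 0 A 0) (pt 0 B (-s)) F).coeff 1 = 0 := by
    rw [cv_coeff_one]
    exact h1
  have e3 := tendsto_two e1 e2
  have e4 : (cv (pt Y 0 t₀) (pt 0 A 0) (pt 0 B (-s)) F).coeff 2 =
      MvPolynomial.eval (pt Y 0 t₀) (dz A (dz A F)) / 2 +
        MvPolynomial.eval (pt Y 0 t₀) (dz B F) - s * MvPolynomial.eval (pt Y 0 t₀) (dt F) := by
    have e5 : (pt 0 B (-s : ℂ) : Var ι → ℂ) = pt 0 B 0 + (-s : ℂ) • pt 0 0 1 := by
      rw [pt_smul, pt_add, smul_zero, add_zero, add_zero, zero_add, mul_one]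
    rw [cv_coeff_two, e5, D_add, D_smul, Derivation.add_apply, Derivation.smul_apply, map_add,
      MvPolynomial.smul_eval]
    simp only [dz_apply, dt]
    ring
  rw [e4] at e3
  refine e3.congr fun τ => ?_
  rw [eval_cv, pt_smul, pt_smul, pt_add, pt_add, smul_zero, smul_zero, add_zero, add_zero,
    mul_zero, add_zero, zero_add]
  congr 3
  push_cast
  ring_nf

theorem Hyp.ev {C : ι → ι → ι → ι → ℝ} {δ ε : ℝ} {Y : Matrix ι ι ℂ} {t₀ : ℝ} {d : ℕ}
    {F : PR ι} (h : Hyp C δ ε Y t₀ d F) (ht : 0 < t₀) {W B : Matrix ι ι ℂ} (hW : Acc 0 W)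
    (hB : Acc 0 B) {s : ℝ} (hs : 0 ≤ s) (k : ℕ) :
    ∀ᶠ τ : ℝ in 𝓝[>] 0, HB d (fun z => ((τ : ℂ) ^ 2)⁻¹ * MvPolynomial.eval
      (pt Y ((τ : ℂ) • W + (τ : ℂ) ^ 2 • B + ((τ : ℂ) ^ k * z) • 1)
        ((t₀ - s * τ ^ 2 : ℝ) : ℂ)) F) := by
  have h1 : ∀ᶠ τ : ℝ in 𝓝[>] 0, 0 < t₀ - s * τ ^ 2 := by
    have : Continuous fun τ : ℝ => t₀ - s * τ ^ 2 := by fun_prop
    have h2 := this.tendsto 0
    have h3 : t₀ - s * (0 : ℝ) ^ 2 = t₀ := by ring
    rw [h3] at h2
    exact (h2.mono_left nhdsWithin_le_nhds).eventually (lt_mem_nhds ht)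
  filter_upwards [h1, self_mem_nhdsWithin] with τ hτ1 hτ2
  have hτ : 0 < τ := hτ2
  have h2 : Acc 0 ((τ : ℂ) • W + (τ : ℂ) ^ 2 • B) := by
    have h3 := hW.smul0 hτ.le
    have h4 := hB.smul0 (sq_nonneg τ)
    have h5 := h3.add h4
    rw [add_zero] at h5
    push_cast at h5
    exact h5
  have h3 := h.hb (t₀ - s * τ ^ 2) hτ1.le (by nlinarith [mul_nonneg hs (sq_nonneg τ)]) _ h2
  have h4 := (h3.scale (pow_pos hτ k)).const_mul (((τ : ℂ) ^ 2)⁻¹)
  refine h4.congr fun z => ?_
  push_cast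
  rfl

theorem Hyp.k2 {C : ι → ι → ι → ι → ℝ} {δ ε : ℝ} {Y : Matrix ι ι ℂ} {t₀ : ℝ} {d : ℕ}
    {F : PR ι} (h : Hyp C δ ε Y t₀ d F) (ht : 0 < t₀) {W B : Matrix ι ι ℂ} (hW : Acc 0 W)
    (hB : Acc 0 B) {s : ℝ} (hs : 0 ≤ s) (h1 : MvPolynomial.eval (pt Y 0 t₀) (dz W F) = 0) :
    HB d (fun z => MvPolynomial.eval (pt Y 0 t₀) (dz W (dz W F)) / 2 +
      (MvPolynomial.eval (pt Y 0 t₀) (dz B F) + z * MvPolynomial.eval (pt Y 0 t₀) (dz 1 F)) -
      s * MvPolynomial.eval (pt Y 0 t₀) (dt F)) := by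
  refine HB.lim (h.ev ht hW hB hs 2) fun z => ?_
  have h2 := lim2 F Y t₀ W (B + z • 1) s h.zero h1
  rw [dz_add, dz_smul, LinearMap.add_apply, LinearMap.smul_apply, map_add,
    MvPolynomial.smul_eval] at h2
  refine h2.congr fun τ => ?_
  rw [smul_add, smul_smul, ← add_assoc]

theorem Hyp.k1 {C : ι → ι → ι → ι → ℝ} {δ ε : ℝ} {Y : Matrix ι ι ℂ} {t₀ : ℝ} {d : ℕ}
    {F : PR ι} (h : Hyp C δ ε Y t₀ d F) (ht : 0 < t₀) {W B : Matrix ι ι ℂ} (hW : Acc 0 W)
    (hB : Acc 0 B) {s : ℝ} (hs : 0 ≤ s) (h1 : MvPolynomial.eval (pt Y 0 t₀) (dz W F) = 0)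
    (h2 : MvPolynomial.eval (pt Y 0 t₀) (dz 1 F) = 0) :
    HB d (fun z => (MvPolynomial.eval (pt Y 0 t₀) (dz W (dz W F)) +
      2 * z * MvPolynomial.eval (pt Y 0 t₀) (dz W (dz 1 F)) +
      z ^ 2 * MvPolynomial.eval (pt Y 0 t₀) (dz 1 (dz 1 F))) / 2 +
      MvPolynomial.eval (pt Y 0 t₀) (dz B F) -
      s * MvPolynomial.eval (pt Y 0 t₀) (dt F)) := by
  refine HB.lim (h.ev ht hW hB hs 1) fun z => ?_
  have h3 := lim2 F Y t₀ (W + z • 1) B s h.zero (by
    rw [dz_add, dz_smul, LinearMap.add_apply, LinearMap.smul_apply, map_add,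
      MvPolynomial.smul_eval, h1, h2, mul_zero, add_zero])
  have h4 : MvPolynomial.eval (pt Y 0 t₀) (dz (W + z • 1) (dz (W + z • 1) F)) =
      MvPolynomial.eval (pt Y 0 t₀) (dz W (dz W F)) +
      2 * z * MvPolynomial.eval (pt Y 0 t₀) (dz W (dz 1 F)) +
      z ^ 2 * MvPolynomial.eval (pt Y 0 t₀) (dz 1 (dz 1 F)) := by
    have h5 : dz 1 (dz W F) = dz W (dz 1 F) := LinearMap.congr_fun (dz_comm 1 W) F
    simp only [dz_add, dz_smul, LinearMap.add_apply, LinearMap.smul_apply, map_add, map_smul,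
      MvPolynomial.smul_eval, h5]
    ring
  rw [h4] at h3
  refine h3.congr fun τ => ?_
  congr 4
  rw [smul_add, smul_smul, pow_one]
  abel

theorem HB.linear {d : ℕ} {b α : ℂ} (h : HB d (fun z => b + z * α)) (hα : α ≠ 0) :
    0 ≤ (b / α).re := by
  by_contra hn
  push Not at hn
  have h1 : (fun z : ℂ => b + z * α) (-(b / α)) = 0 := by
    show b + -(b / α) * α = 0
    rw [neg_mul, div_mul_cancel₀ b hα, add_neg_cancel]
  have h2 : 0 < (-(b / α)).re := by rw [Complex.neg_re]; linarith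
  have h3 := h.zero_of_root h2 h1
  have h4 := h3 0
  have h5 := h3 1
  simp only [zero_mul, add_zero, one_mul] at h4 h5
  rw [h4, zero_add] at h5
  exact hα h5

theorem HB.quad {d : ℕ} {c b e : ℂ} (h : HB d (fun z => c * (z ^ 2 + b * z + e))) (hc : c ≠ 0) :
    ∃ r₁ r₂ : ℂ, r₁.re ≤ 0 ∧ r₂.re ≤ 0 ∧ r₁ + r₂ = -b ∧ r₁ * r₂ = e := by
  obtain ⟨s, hs⟩ := IsAlgClosed.exists_pow_nat_eq (b ^ 2 - 4 * e) (n := 2) two_pos
  have hroot : ∀ r : ℂ, r ^ 2 + b * r + e = 0 → r.re ≤ 0 := by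
    intro r hr
    by_contra hn
    push Not at hn
    have h3 := h.zero_of_root hn (show c * (r ^ 2 + b * r + e) = 0 by rw [hr, mul_zero])
    have h4 := h3 0
    have h5 := h3 1
    have h6 := h3 (-1)
    simp only [mul_eq_zero, hc, false_or] at h4 h5 h6
    have h7 : (2 : ℂ) = 0 := by linear_combination h5 + h6 - 2 * h4
    norm_num at h7
  refine ⟨(-b + s) / 2, (-b - s) / 2, hroot _ ?_, hroot _ ?_, by ring, ?_⟩
  · linear_combination (1 / 4) * hs
  · linear_combination (1 / 4) * hs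
  · linear_combination (-1 / 4) * hs

/-- **The first case**: the first derivative in the direction of the identity is not zero. -/
theorem Hyp.case1 {C : ι → ι → ι → ι → ℝ} {δ ε : ℝ} {Y : Matrix ι ι ℂ} {t₀ : ℝ} {d : ℕ}
    {F : PR ι} (hC : TraceCone C) (hδ : 0 < δ) (hε : 0 < ε) (h : Hyp C δ ε Y t₀ d F)
    (ht : 0 < t₀) (hα : MvPolynomial.eval (pt Y 0 t₀) (dz 1 F) ≠ 0) : False := by
  set α := MvPolynomial.eval (pt Y 0 t₀) (dz 1 F) with hαdef
  have hz0 : MvPolynomial.eval (pt Y 0 t₀) (dz 0 F) = 0 := by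
    rw [dz_zero', LinearMap.zero_apply, map_zero]
  have hz00 : MvPolynomial.eval (pt Y 0 t₀) (dz 0 (dz 0 F)) = 0 := by
    rw [dz_zero', LinearMap.zero_apply, map_zero]
  have ha : ∀ W : Matrix ι ι ℂ, Acc 0 W →
      0 ≤ (MvPolynomial.eval (pt Y 0 t₀) (dz W F) / α).re := by
    intro W hW
    have h1 := h.k2 ht Acc.zero hW le_rfl hz0
    have h2 := h1.congr (g := fun z => MvPolynomial.eval (pt Y 0 t₀) (dz W F) + z * α)
      (fun z => by rw [hz00, ← hαdef]; simp)
    exact h2.linear hα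
  have hI : ∀ (c : ℂ) (x : Matrix ι ι ℂ) (G : PR ι),
      MvPolynomial.eval (pt Y 0 t₀) (dz (c • x) G) =
        c * MvPolynomial.eval (pt Y 0 t₀) (dz x G) := by
    intro c x G
    rw [dz_smul, LinearMap.smul_apply, MvPolynomial.smul_eval]
  have him : ∀ x : Matrix ι ι ℂ, x.IsHermitian →
      (MvPolynomial.eval (pt Y 0 t₀) (dz x F) / α).im = 0 := by
    intro x hx
    have h1 : ∀ c : ℝ, 0 ≤ ((c * Complex.I) *
        (MvPolynomial.eval (pt Y 0 t₀) (dz x F) / α)).re := by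
      intro c
      have h2 := ha _ (Acc.imag hx c)
      rw [hI, mul_div_assoc] at h2
      exact h2
    have h2 := h1 1
    have h3 := h1 (-1)
    rw [mul_assoc, Complex.re_ofReal_mul, Complex.I_mul_re] at h2 h3
    linarith
  set v := pt Y 0 (t₀ : ℂ) with hv
  have hfut : Fut (reA (aform F v α)) (reR (rform F v α)) := by
    refine ⟨fun x y => ?_, fun x hx => ?_, ?_, fun x hx hax => ?_, fun u => ?_⟩
    · rw [reR_apply, reR_apply, rform_apply, rform_apply]
      have : dz x (dz y F) = dz y (dz x F) :=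
        LinearMap.congr_fun (dz_comm x y) F
      rw [this]
    · exact ha _ (Acc.psd hx)
    · rw [reA_apply, aform_apply, ← hαdef, div_self hα]
      simp
    · rw [reA_apply, aform_apply] at hax
      have h1 : MvPolynomial.eval v (dz x F) = 0 := by
        have h2 : MvPolynomial.eval v (dz x F) / α = 0 :=
          Complex.ext hax (him x hx)
        rcases div_eq_zero_iff.1 h2 with h3 | h3
        · exact h3
        · exact absurd h3 hα
      have hW := Acc.imag hx 1
      rw [Complex.ofReal_one, one_mul] at hW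
      have h3 := h.k2 ht hW Acc.zero le_rfl (by rw [← hv, hI, h1, mul_zero])
      have h4 : MvPolynomial.eval v (dz (Complex.I • x) (dz (Complex.I • x) F)) =
          -MvPolynomial.eval v (dz x (dz x F)) := by
        rw [hI, dz_smul, LinearMap.smul_apply, map_smul, MvPolynomial.smul_eval, ← mul_assoc,
          Complex.I_mul_I, neg_one_mul]
      have h5 := h3.congr (g := fun z => (-(MvPolynomial.eval v (dz x (dz x F)) / 2)) +
        z * α) (fun z => by
          rw [← hv, h4, hz0]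
          simp only [Complex.ofReal_zero, zero_mul, sub_zero, zero_add]
          ring)
      have h6 := h5.linear hα
      rw [reR_apply, rform_apply]
      have h7 : -(MvPolynomial.eval v (dz x (dz x F)) / 2) / α =
          (((-1 / 2 : ℝ)) : ℂ) * (MvPolynomial.eval v (dz x (dz x F)) / α) := by
        push_cast
        ring
      rw [h7, Complex.re_ofReal_mul] at h6
      linarith
    · rw [reR_apply, rform_apply, h.r1 u, map_zero, zero_div, Complex.zero_re]
  have h1 := hC _ _ hfut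
  rw [pairC_rform] at h1
  have h2 : 0 ≤ (MvPolynomial.eval v (dz 1 (dz 1 F)) / α).re := by
    have := hfut.psd_psd psd_one psd_one
    rw [reR_apply, rform_apply] at this
    exact this
  have h3 : ε ≤ (MvPolynomial.eval v (Le C δ ε F) / α).re := by
    rw [Le_apply, map_add, map_add, MvPolynomial.smul_eval, MvPolynomial.smul_eval, add_div,
      add_div, mul_div_assoc, mul_div_assoc, Complex.add_re, Complex.add_re,
      Complex.re_ofReal_mul, Complex.re_ofReal_mul, ← hαdef, div_self hα, Complex.one_re]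
    nlinarith [mul_nonneg hδ.le h2]
  have h4 := h.k2 ht Acc.zero Acc.zero zero_le_one hz0
  have h5 := h4.congr (g := fun z => (-MvPolynomial.eval v (Le C δ ε F)) + z * α) (fun z => by
    rw [hz00, hz0, h.pde]
    simp only [Complex.ofReal_one, one_mul]
    ring)
  have h6 := h5.linear hα
  rw [neg_div, Complex.neg_re] at h6
  linarith

/-- both `z² + 2 i b z - e` and `z² - 2 i b z - e` have no zeros in the right half plane -/
theorem quad_real {d : ℕ} {c b e : ℂ} (h : HB d (fun z => c * (z ^ 2 + (2 * Complex.I * b) * z + (-e))))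
    (h' : HB d (fun z => c * (z ^ 2 + (-(2 * Complex.I * b)) * z + (-e)))) (hc : c ≠ 0) :
    b.im = 0 ∧ e.im = 0 ∧ e.re ≤ b.re ^ 2 := by
  obtain ⟨r₁, r₂, h1, h2, h3, h4⟩ := h.quad hc
  obtain ⟨r₃, r₄, h5, h6, h7, h8⟩ := h'.quad hc
  have e1 := congrArg Complex.re h3
  have e2 := congrArg Complex.re h7
  have e3 := congrArg Complex.im h3
  simp [Complex.mul_re, Complex.mul_im] at e1 e2 e3
  have hb : b.im = 0 := by linarith
  have hr1 : r₁.re = 0 := by linarith
  have hr2 : r₂.re = 0 := by linarith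
  have e4 := congrArg Complex.re h4
  have e5 := congrArg Complex.im h4
  simp [Complex.mul_re, Complex.mul_im, hr1, hr2] at e4 e5
  refine ⟨hb, e5.symm ▸ rfl, ?_⟩
  have e6 : b.re = -(r₁.im + r₂.im) / 2 := by linarith
  have e7 : e.re = r₁.im * r₂.im := by linarith
  rw [e6, e7]
  nlinarith [sq_nonneg (r₁.im - r₂.im)]

/-- **The second case**: the first derivative in the direction of the identity is zero, the second
is not. -/
theorem Hyp.case2 {C : ι → ι → ι → ι → ℝ} {δ ε : ℝ} {Y : Matrix ι ι ℂ} {t₀ : ℝ} {d : ℕ}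
    {F : PR ι} (hC : TraceCone C) (hδ : 0 < δ) (h : Hyp C δ ε Y t₀ d F)
    (ht : 0 < t₀) (hα : MvPolynomial.eval (pt Y 0 t₀) (dz 1 F) = 0)
    (hc : MvPolynomial.eval (pt Y 0 t₀) (dz 1 (dz 1 F)) ≠ 0) : False := by
  set v := pt Y 0 (t₀ : ℂ) with hv
  set γ := MvPolynomial.eval v (dz 1 (dz 1 F)) with hγ
  have hγ2 : γ / 2 ≠ 0 := div_ne_zero hc two_ne_zero
  have hz0 : MvPolynomial.eval v (dz 0 F) = 0 := by
    rw [dz_zero', LinearMap.zero_apply, map_zero]
  have hz00 : ∀ G : PR ι, MvPolynomial.eval v (dz 0 G) = 0 := by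
    intro G
    rw [dz_zero', LinearMap.zero_apply, map_zero]
  have hI : ∀ (c : ℂ) (x : Matrix ι ι ℂ) (G : PR ι),
      MvPolynomial.eval v (dz (c • x) G) = c * MvPolynomial.eval v (dz x G) := by
    intro c x G
    rw [dz_smul, LinearMap.smul_apply, MvPolynomial.smul_eval]
  -- the first derivatives vanish
  have h1 : ∀ x : Matrix ι ι ℂ, x.IsHermitian → MvPolynomial.eval v (dz x F) = 0 := by
    intro x hx
    have h2 : ∀ c : ℝ, HB d (fun z => γ / 2 * (z ^ 2 + 0 * z + ((c : ℂ) * Complex.I) *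
        MvPolynomial.eval v (dz x F) / (γ / 2))) := by
      intro c
      have h3 := h.k1 ht Acc.zero (Acc.imag hx c) le_rfl hz0 hα
      refine h3.congr fun z => ?_
      rw [← hv, hI, hz00, hz00, ← hγ]
      simp only [Complex.ofReal_zero, zero_mul, sub_zero, mul_zero, zero_add, add_zero]
      field_simp
    have h3 : ∀ c : ℝ, 0 ≤ (((c : ℂ) * Complex.I) *
        MvPolynomial.eval v (dz x F) / (γ / 2)).re ∧ (((c : ℂ) * Complex.I) *
        MvPolynomial.eval v (dz x F) / (γ / 2)).im = 0 := by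
      intro c
      obtain ⟨r₁, r₂, h4, h5, h6, h7⟩ := (h2 c).quad hγ2
      have h8 : r₂ = -r₁ := by linear_combination h6
      rw [h8] at h7 h5
      rw [Complex.neg_re] at h5
      have h9 : r₁.re = 0 := by linarith
      rw [← h7]
      simp [Complex.mul_re, Complex.mul_im, h9]
      nlinarith [sq_nonneg r₁.im]
    obtain ⟨h4, h5⟩ := h3 1
    obtain ⟨h6, h7⟩ := h3 (-1)
    have h8 : ∀ c : ℝ, ((c : ℂ) * Complex.I) * MvPolynomial.eval v (dz x F) / (γ / 2) =
        (c : ℂ) * (Complex.I * MvPolynomial.eval v (dz x F) / (γ / 2)) := by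
      intro c; ring
    rw [h8, Complex.re_ofReal_mul] at h4 h6
    rw [h8, Complex.im_ofReal_mul] at h5
    have h9 : Complex.I * MvPolynomial.eval v (dz x F) / (γ / 2) = 0 := by
      refine Complex.ext ?_ ?_
      · rw [Complex.zero_re]; linarith
      · rw [Complex.zero_im]; linarith
    rcases div_eq_zero_iff.1 h9 with h10 | h10
    · rcases mul_eq_zero.1 h10 with h11 | h11
      · exact absurd h11 Complex.I_ne_zero
      · exact h11
    · exact absurd h10 hγ2
  -- reality of the second derivatives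
  have h2 : ∀ x : Matrix ι ι ℂ, x.IsHermitian →
      (MvPolynomial.eval v (dz x (dz 1 F)) / γ).im = 0 ∧
      (MvPolynomial.eval v (dz x (dz x F)) / γ).im = 0 ∧
      (MvPolynomial.eval v (dz x (dz x F)) / γ).re ≤
        (MvPolynomial.eval v (dz x (dz 1 F)) / γ).re ^ 2 := by
    intro x hx
    have h3 : ∀ c : ℝ, c ^ 2 = 1 → HB d (fun z => γ / 2 * (z ^ 2 + (2 * (c * Complex.I) *
        (MvPolynomial.eval v (dz x (dz 1 F)) / γ)) * z +
        (-(MvPolynomial.eval v (dz x (dz x F)) / γ)))) := by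
      intro c hc2
      have h4 := h.k1 ht (Acc.imag hx c) Acc.zero le_rfl (by
        rw [← hv, hI, h1 x hx, mul_zero]) hα
      refine h4.congr fun z => ?_
      rw [← hv, hI, hI, hz00, ← hγ]
      have h5 : MvPolynomial.eval v (dz x (dz (((c : ℂ) * Complex.I) • x) F)) =
          ((c : ℂ) * Complex.I) * MvPolynomial.eval v (dz x (dz x F)) := by
        rw [dz_smul (_ * _), LinearMap.smul_apply, map_smul, MvPolynomial.smul_eval]
      rw [h5]
      have h6 : ((c : ℂ) * Complex.I) * (((c : ℂ) * Complex.I) *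
          MvPolynomial.eval v (dz x (dz x F))) =
          -MvPolynomial.eval v (dz x (dz x F)) := by
        have h7 : (c : ℂ) ^ 2 = 1 := by exact_mod_cast congrArg Complex.ofReal hc2
        have h8 : ((c : ℂ) * Complex.I) * ((c : ℂ) * Complex.I) = -1 := by
          have := Complex.I_mul_I
          linear_combination (Complex.I * Complex.I) * h7 + this
        rw [← mul_assoc, h8, neg_one_mul]
      rw [h6]
      simp only [Complex.ofReal_zero, zero_mul, sub_zero, add_zero]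
      field_simp
      ring
    have h4 := (h3 1 (by norm_num)).congr (g := fun z => γ / 2 * (z ^ 2 + (2 * Complex.I *
        (MvPolynomial.eval v (dz x (dz 1 F)) / γ)) * z +
        (-(MvPolynomial.eval v (dz x (dz x F)) / γ)))) (fun z => by
          push_cast; ring)
    have h5 := (h3 (-1) (by norm_num)).congr (g := fun z => γ / 2 * (z ^ 2 + (-(2 * Complex.I *
        (MvPolynomial.eval v (dz x (dz 1 F)) / γ))) * z +
        (-(MvPolynomial.eval v (dz x (dz x F)) / γ)))) (fun z => by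
          push_cast; ring)
    exact quad_real h4 h5 hγ2
  -- positivity
  have h3 : ∀ x : Matrix ι ι ℂ, Psd x →
      0 ≤ (MvPolynomial.eval v (dz x (dz 1 F)) / γ).re := by
    intro x hx
    have h4 := h.k1 ht (W := x) (Acc.psd hx) Acc.zero le_rfl (h1 x hx.1) hα
    have h5 := h4.congr (g := fun z => γ / 2 * (z ^ 2 + (2 *
        (MvPolynomial.eval v (dz x (dz 1 F)) / γ)) * z +
        (MvPolynomial.eval v (dz x (dz x F)) / γ))) (fun z => by
      rw [← hv, hz00, ← hγ]
      simp only [Complex.ofReal_zero, zero_mul, sub_zero, add_zero]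
      field_simp
      ring)
    obtain ⟨r₁, r₂, h6, h7, h8, -⟩ := h5.quad hγ2
    have h9 := congrArg Complex.re h8
    simp [Complex.mul_re] at h9
    linarith
  have hfut : Fut (reA (aform (dz 1 F) v γ)) (reR (rform F v γ)) := by
    refine ⟨fun x y => ?_, fun x hx => ?_, ?_, fun x hx hax => ?_, fun u => ?_⟩
    · rw [reR_apply, reR_apply, rform_apply, rform_apply]
      have : dz x (dz y F) = dz y (dz x F) :=
        LinearMap.congr_fun (dz_comm x y) F
      rw [this]
    · exact h3 x hx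
    · rw [reA_apply, aform_apply, ← hγ, div_self hc]
      simp
    · rw [reA_apply, aform_apply] at hax
      rw [reR_apply, rform_apply]
      have := (h2 x hx).2.2
      rw [hax] at this
      simpa using this
    · rw [reR_apply, rform_apply, h.r1 u, map_zero, zero_div, Complex.zero_re]
  have h4 := hC _ _ hfut
  rw [pairC_rform] at h4
  have h5 : δ ≤ (MvPolynomial.eval v (Le C δ ε F) / γ).re := by
    rw [Le_apply, map_add, map_add, MvPolynomial.smul_eval, MvPolynomial.smul_eval, add_div,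
      add_div, mul_div_assoc, mul_div_assoc, Complex.add_re, Complex.add_re,
      Complex.re_ofReal_mul, Complex.re_ofReal_mul, ← hγ, div_self hc, Complex.one_re, hα,
      zero_div, Complex.zero_re]
    linarith
  -- the time derivative
  have h6 := h.k1 ht Acc.zero Acc.zero zero_le_one hz0 hα
  have h7 := h6.congr (g := fun z => γ / 2 * (z ^ 2 + 0 * z +
    (-(2 * (MvPolynomial.eval v (Le C δ ε F) / γ))))) (fun z => by
      rw [← hv, hz00, hz00, hz00, h.pde, ← hγ]
      simp only [Complex.ofReal_one, one_mul, zero_mul, mul_zero, zero_add, add_zero]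
      field_simp
      ring)
  obtain ⟨r₁, r₂, h8, h9, h10, h11⟩ := h7.quad hγ2
  have h12 : r₂ = -r₁ := by linear_combination h10
  rw [h12] at h11 h9
  rw [Complex.neg_re] at h9
  have h13 : r₁.re = 0 := by linarith
  have h14 := congrArg Complex.re h11
  have h15 : (r₁ * -r₁).re = r₁.im ^ 2 := by
    simp [Complex.mul_re, h13]
    ring
  have h16 : (-(2 * (MvPolynomial.eval v (Le C δ ε F) / γ))).re =
      -(2 * (MvPolynomial.eval v (Le C δ ε F) / γ).re) := by
    simp [Complex.mul_re]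
  rw [h15, h16] at h14
  nlinarith [sq_nonneg r₁.im]

end Pool.Agent.H53HC
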