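import Pool.Agent.H53HC.Final
import Pool.Agent.W666.GB.MD

/-!
# The iterated operator at the determinant is the double alternating sum
-/

set_option autoImplicit false
set_option linter.unusedSectionVars false

namespace Pool.Agent.H53HC

open Filter Topology Matrix Finset Pool.Agent.W666.GB

variable {ι : Type*} [Fintype ι] [DecidableEq ι]

/-- the product of the entries `Z_{g i, i}`, `i ∈ s` -/
noncomputable def Rp (g : ι → ι) (s : Finset ι) : PR ι :=
  ∏ i ∈ s, MvPolynomial.X (some (Sum.inr (g i, i)))

theorem dz_Rp (x : Matrix ι ι ℂ) (g : ι → ι) (s : Finset ι) :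
    dz x (Rp g s) = ∑ i ∈ s, x (g i) i • Rp g (s.erase i) := by
  induction s using Finset.induction_on with
  | empty =>
    simp only [Rp, Finset.prod_empty, Finset.sum_empty]
    rw [dz_apply]
    exact Derivation.map_one_eq_zero _
  | insert a s ha ih =>
    have h1 : Rp g (insert a s) = MvPolynomial.X (some (Sum.inr (g a, a))) * Rp g s := by
      rw [Rp, Finset.prod_insert ha]
      rfl
    have h2 : dz x (MvPolynomial.X (some (Sum.inr (g a, a))) * Rp g s) =
        x (g a) a • Rp g s + MvPolynomial.X (some (Sum.inr (g a, a))) * dz x (Rp g s) := by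
      rw [dz_apply, Derivation.leibniz, D_X, smul_eq_mul, smul_eq_mul, add_comm]
      congr 1
      rw [mul_comm, ← MvPolynomial.smul_eq_C_mul]
      rfl
    rw [h1, h2, Finset.sum_insert ha, Finset.erase_insert ha, ih, Finset.mul_sum]
    congr 1
    refine Finset.sum_congr rfl fun i hi => ?_
    have hia : a ≠ i := fun h => ha (h ▸ hi)
    have h3 : (insert a s).erase i = insert a (s.erase i) :=
      Finset.erase_insert_of_ne hia
    have h4 : a ∉ s.erase i := fun h => ha (Finset.mem_of_mem_erase h)
    have h5 : Rp g ((insert a s).erase i) =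
        MvPolynomial.X (some (Sum.inr (g a, a))) * Rp g (s.erase i) := by
      rw [h3, Rp, Finset.prod_insert h4]
      rfl
    rw [h5, mul_smul_comm]

theorem Lop_Rp (C : ι → ι → ι → ι → ℝ) (g : ι → ι) (s : Finset ι) :
    Lop C (Rp g s) = ∑ j ∈ s, ∑ i ∈ s.erase j,
      (C (g i) i (g j) j : ℂ) • Rp g ((s.erase j).erase i) := by
  rw [Lop_apply]
  simp only [dz_Rp, map_sum, map_smul, Finset.smul_sum, smul_smul]
  have h1 : ∀ i j k l : ι, ∑ x ∈ s, ∑ y ∈ s.erase x, ((C i j k l : ℂ) *
      (single k l (1 : ℂ) (g x) x * single i j (1 : ℂ) (g y) y)) •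
        Rp g ((s.erase x).erase y) =
      ∑ x ∈ s, ∑ y ∈ s.erase x, (if k = g x ∧ l = x ∧ i = g y ∧ j = y then
        (C (g y) y (g x) x : ℂ) • Rp g ((s.erase x).erase y) else 0) := by
    intro i j k l
    refine Finset.sum_congr rfl fun x _ => Finset.sum_congr rfl fun y _ => ?_
    simp only [Matrix.single_apply]
    by_cases h : k = g x ∧ l = x ∧ i = g y ∧ j = y
    · obtain ⟨rfl, rfl, rfl, rfl⟩ := h
      simp
    · rw [if_neg h]
      have : ((if k = g x ∧ l = x then (1 : ℂ) else 0) *
          (if i = g y ∧ j = y then (1 : ℂ) else 0)) = 0 := by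
        by_cases h2 : k = g x ∧ l = x
        · by_cases h3 : i = g y ∧ j = y
          · exact absurd ⟨h2.1, h2.2, h3.1, h3.2⟩ h
          · rw [if_neg h3, mul_zero]
        · rw [if_neg h2, zero_mul]
      rw [this, mul_zero, zero_smul]
  simp only [h1]
  have h2 : ∀ F : ι → ι → ι → ι → ι → ι → PR ι,
      ∑ i, ∑ j, ∑ k, ∑ l, ∑ x ∈ s, ∑ y ∈ s.erase x, F i j k l x y =
      ∑ x ∈ s, ∑ y ∈ s.erase x, ∑ i, ∑ j, ∑ k, ∑ l, F i j k l x y := by
    intro F
    simp only [Finset.sum_comm (s := (univ : Finset ι)) (t := s)]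
    refine Finset.sum_congr rfl fun x _ => ?_
    simp only [Finset.sum_comm (s := (univ : Finset ι)) (t := s.erase x)]
  rw [h2]
  refine Finset.sum_congr rfl fun x _ => Finset.sum_congr rfl fun y _ => ?_
  rw [Finset.sum_eq_single (g y), Finset.sum_eq_single y, Finset.sum_eq_single (g x),
    Finset.sum_eq_single x]
  · simp
  · intro b _ hb; simp [hb]
  · simp
  · intro b _ hb; simp [hb]
  · simp
  · intro b _ hb; simp [hb]
  · simp
  · intro b _ hb; simp [hb]
  · simp

/-- the numbers of times the indices occur in a list of pairs -/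
def cnt {k : ℕ} (f : Fin k → ι × ι) (x : ι) : ℕ :=
  ∑ b, ((if (f b).1 = x then 1 else 0) + (if (f b).2 = x then 1 else 0))

/-- indicator -/
def indi (s : Finset ι) (x : ι) : ℕ := if x ∈ s then 1 else 0

theorem cnt_cons {k : ℕ} (p : ι × ι) (f : Fin k → ι × ι) (s : Finset ι) :
    cnt (Fin.insertNthEquiv (fun _ => ι × ι) 0 (p, f)) = indi s ↔
      p.2 ∈ s ∧ p.1 ∈ s.erase p.2 ∧ cnt f = indi ((s.erase p.2).erase p.1) := by
  have h0 : ∀ x, cnt (Fin.insertNthEquiv (fun _ => ι × ι) 0 (p, f)) x =
      ((if p.1 = x then 1 else 0) + (if p.2 = x then 1 else 0)) + cnt f x := by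
    intro x
    rw [cnt, Fin.sum_univ_succ]
    simp [Fin.insertNthEquiv, cnt]
  constructor
  · intro h
    have h1 : ∀ x, ((if p.1 = x then 1 else 0) + (if p.2 = x then 1 else 0)) + cnt f x =
        indi s x := fun x => by rw [← h0, h]
    have h2 := h1 p.2
    have h3 := h1 p.1
    simp only [if_true, indi] at h2 h3
    have h4 : p.1 ≠ p.2 := by
      intro he
      rw [he] at h2
      simp only [if_true] at h2
      split_ifs at h2 <;> omega
    have h5 : p.2 ∈ s := by
      by_contra hn
      rw [if_neg hn] at h2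
      omega
    have h6 : p.1 ∈ s := by
      by_contra hn
      rw [if_neg hn] at h3
      omega
    refine ⟨h5, Finset.mem_erase.2 ⟨h4, h6⟩, ?_⟩
    funext x
    have h7 := h1 x
    simp only [indi, Finset.mem_erase] at h7 ⊢
    by_cases hx1 : p.1 = x
    · subst hx1
      rw [if_pos rfl, if_neg (Ne.symm h4), if_pos h6] at h7
      simp
      omega
    · by_cases hx2 : p.2 = x
      · subst hx2
        rw [if_neg h4, if_pos rfl, if_pos h5] at h7
        simp
        omega
      · rw [if_neg hx1, if_neg hx2] at h7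
        simp only [Ne.symm hx1, Ne.symm hx2, ne_eq, not_false_eq_true, true_and]
        omega
  · rintro ⟨h5, h6, h7⟩
    obtain ⟨h4, h6⟩ := Finset.mem_erase.1 h6
    funext x
    rw [h0, h7]
    simp only [indi, Finset.mem_erase]
    by_cases hx1 : p.1 = x
    · subst hx1
      simp [h4.symm, h6]
    · by_cases hx2 : p.2 = x
      · subst hx2
        simp [h4, h5]
      · simp [Ne.symm hx1, Ne.symm hx2, hx1, hx2]

theorem eval_Lop_Rp (C : ι → ι → ι → ι → ℝ) (g : ι → ι) (k : ℕ) (s : Finset ι) :
    MvPolynomial.eval (pt 0 0 1) ((Lop C ^ k) (Rp g s)) =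
      ((∑ f : Fin k → ι × ι, if cnt f = indi s then
        ∏ b, C (g (f b).1) (f b).1 (g (f b).2) (f b).2 else 0 : ℝ) : ℂ) := by
  induction k generalizing s with
  | zero =>
    rw [pow_zero, Module.End.one_apply, Rp, map_prod]
    simp only [MvPolynomial.eval_X, Finset.univ_unique, Finset.sum_singleton]
    by_cases hs : s = ∅
    · subst hs
      have : cnt (default : Fin 0 → ι × ι) = indi ∅ := by
        funext x; simp [cnt, indi]
      rw [if_pos this]
      simp
    · obtain ⟨x, hx⟩ := Finset.nonempty_iff_ne_empty.2 hs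
      have : cnt (default : Fin 0 → ι × ι) ≠ indi s := by
        intro h
        have := congrFun h x
        simp [cnt, indi, hx] at this
      rw [if_neg this, Finset.prod_eq_zero hx]
      · simp
      · rfl
  | succ k ih =>
    rw [pow_succ, Module.End.mul_apply, Lop_Rp]
    simp only [map_sum, map_smul, MvPolynomial.smul_eval, ih]
    rw [← Equiv.sum_comp (Fin.insertNthEquiv (fun _ => ι × ι) 0), Fintype.sum_prod_type,
      Fintype.sum_prod_type]
    simp only [cnt_cons]
    have h1 : ∀ (x y : ι) (f : Fin k → ι × ι),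
        ∏ b, C (g ((Fin.insertNthEquiv (fun _ => ι × ι) 0) ((x, y), f) b).1)
          ((Fin.insertNthEquiv (fun _ => ι × ι) 0) ((x, y), f) b).1
          (g ((Fin.insertNthEquiv (fun _ => ι × ι) 0) ((x, y), f) b).2)
          ((Fin.insertNthEquiv (fun _ => ι × ι) 0) ((x, y), f) b).2 =
        C (g x) x (g y) y * ∏ b, C (g (f b).1) (f b).1 (g (f b).2) (f b).2 := by
      intro x y f
      rw [Fin.prod_univ_succ]
      simp [Fin.insertNthEquiv]
    simp only [h1]
    rw [Finset.sum_comm]
    push_cast
    rw [← Finset.sum_subset (Finset.subset_univ s)]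
    · refine Finset.sum_congr rfl fun j hj => ?_
      rw [← Finset.sum_subset (Finset.subset_univ (s.erase j))]
      · refine Finset.sum_congr rfl fun i hi => ?_
        rw [Finset.mul_sum]
        refine Finset.sum_congr rfl fun f _ => ?_
        by_cases h2 : cnt f = indi ((s.erase j).erase i)
        · rw [if_pos h2, if_pos ⟨hj, hi, h2⟩]
          push_cast
          rfl
        · rw [if_neg h2, if_neg (fun h => h2 h.2.2)]
          simp
      · intro i _ hi
        refine Finset.sum_eq_zero fun f _ => ?_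
        rw [if_neg (fun h => hi h.2.1)]
        simp
    · intro j _ hj
      refine Finset.sum_eq_zero fun i _ => Finset.sum_eq_zero fun f _ => ?_
      rw [if_neg (fun h => hj h.1)]
      simp

end Pool.Agent.H53HC
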