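import Pool.Agent.H53HC.Main

/-!
# The sign of the iterated operator
-/

set_option autoImplicit false
set_option linter.unusedSectionVars false

namespace Pool.Agent.H53HC

open Filter Topology Matrix Finset

variable {ι : Type*} [Fintype ι] [DecidableEq ι]

theorem rel_q0 {ε : ℝ} (hε : 0 < ε) :
    Rel (pt (((ε⁻¹ : ℝ) : ℂ) • 1) 0 0) (pt 0 ((ε : ℂ) • (1 : Matrix ι ι ℂ)) 0)
      ((((ε⁻¹ : ℝ) : ℂ)) ^ Fintype.card ι) (p0 ι) (q0 ι) := by
  intro W t
  rw [pt_add, pt_add, eval_p0, eval_q0, add_zero, zero_add, ← Matrix.det_smul]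
  congr 1
  have h : (ε : ℂ) ≠ 0 := Complex.ofReal_ne_zero.2 hε.ne'
  rw [smul_add, smul_smul, smul_mul_assoc, one_mul, Complex.ofReal_inv, inv_mul_cancel₀ h,
    one_smul]

theorem pos_eps {C : ι → ι → ι → ι → ℝ} (hC : TraceCone C) {δ ε : ℝ} (hδ : 0 < δ) (hε : 0 < ε)
    {K : ℕ} (hK : (p0 ι).totalDegree ≤ K) {B : Matrix ι ι ℝ} (hB : Bᵀ = -B) :
    0 ≤ (MvPolynomial.eval (pt 0 ((ε : ℂ) • (1 : Matrix ι ι ℂ) + cm B) 1)
      (flow (Le C δ ε) K (q0 ι))).re := by
  set E := flow (Le C δ ε) K (p0 ι) with hE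
  set Y : Matrix ι ι ℂ := ((ε⁻¹ : ℝ) : ℂ) • 1 with hY
  have hYY : Y ∈ YY ε := YY.scalar hε
  have hYc : Y = cm ((ε⁻¹ : ℝ) • (1 : Matrix ι ι ℝ)) := by rw [cm_smul, cm_one]
  have h0c : (0 : Matrix ι ι ℂ) = cm (0 : Matrix ι ι ℝ) := by
    ext i j; simp [cm]
  have him : ∀ t : ℝ, (MvPolynomial.eval (pt Y 0 t) E).im = 0 := by
    intro t
    rw [hYc, h0c]
    exact (RealP.p0.flow C δ ε K).im_zero _ _ t
  have hne : ∀ t : ℝ, 0 ≤ t → (MvPolynomial.eval (pt Y 0 t) E).re ≠ 0 := by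
    intro t ht h
    exact no_zero hC hδ hε hK t ht Y hYY (Complex.ext h (him t))
  have hcont : Continuous fun t : ℝ => (MvPolynomial.eval (pt Y 0 t) E).re :=
    Complex.continuous_re.comp ((MvPolynomial.continuous_eval E).comp (continuous_pt
      continuous_const continuous_const Complex.continuous_ofReal))
  have h0 : (MvPolynomial.eval (pt Y 0 (0 : ℝ)) E).re = 1 := by
    rw [Complex.ofReal_zero, hE, eval_flow_zero, eval_p0]
    simp
  have h1 : 0 < (MvPolynomial.eval (pt Y 0 (1 : ℝ)) E).re := by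
    by_contra hn
    push Not at hn
    have h2 := intermediate_value_Icc' (zero_le_one (α := ℝ)) hcont.continuousOn
    have h3 : (0 : ℝ) ∈ Set.Icc (MvPolynomial.eval (pt Y 0 (1 : ℝ)) E).re
        (MvPolynomial.eval (pt Y 0 (0 : ℝ)) E).re := ⟨hn, by rw [h0]; exact zero_le_one⟩
    obtain ⟨s, hs, hs0⟩ := h2 h3
    exact hne s hs.1 hs0
  -- the second part of the path
  have hcont2 : Continuous fun s : ℝ => (MvPolynomial.eval (pt Y (cm (s • B)) (1 : ℝ)) E).re := by
    refine Complex.continuous_re.comp ((MvPolynomial.continuous_eval E).comp (continuous_pt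
      continuous_const ?_ continuous_const))
    simp only [cm_smul]
    exact Complex.continuous_ofReal.smul continuous_const
  have hne2 : ∀ s : ℝ, (MvPolynomial.eval (pt Y (cm (s • B)) (1 : ℝ)) E).re ≠ 0 := by
    intro s h
    have h3 : (MvPolynomial.eval (pt Y (cm (s • B)) (1 : ℝ)) E) = 0 := by
      refine Complex.ext h ?_
      rw [hYc]
      exact (RealP.p0.flow C δ ε K).im_zero _ _ 1
    have hsk : (s • B)ᵀ = -(s • B) := by rw [Matrix.transpose_smul, hB, smul_neg]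
    have hA := Acc.skew hsk
    have hu := YY.isUnit hε hYY hA
    have h4 := eval_cocycle (Le_mem C δ ε) K hu ((1 : ℝ) : ℂ)
    rw [← hE] at h4
    have h5 : cm (s • B) = (s • B).map Complex.ofReal := rfl
    rw [h5, h4] at h3
    rcases mul_eq_zero.1 h3 with h6 | h6
    · exact hu.ne_zero h6
    · refine no_zero hC hδ hε hK 1 zero_le_one _ ?_ h6
      have := YY.trans hε le_rfl hYY hA
      rwa [add_zero] at this
  have h1' : 0 < (MvPolynomial.eval (pt Y (cm B) (1 : ℝ)) E).re := by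
    by_contra hn
    push Not at hn
    have h2 := intermediate_value_Icc' (zero_le_one (α := ℝ)) hcont2.continuousOn
    have h3 : (0 : ℝ) ∈ Set.Icc (MvPolynomial.eval (pt Y (cm ((1 : ℝ) • B)) (1 : ℝ)) E).re
        (MvPolynomial.eval (pt Y (cm ((0 : ℝ) • B)) (1 : ℝ)) E).re := by
      rw [one_smul, zero_smul]
      refine ⟨hn, ?_⟩
      rw [← h0c]
      exact h1.le
    obtain ⟨s, hs, hs0⟩ := h2 h3
    exact hne2 s hs0
  have h2 := (rel_q0 (ι := ι) hε).flow (Le_mem C δ ε) K rfl (cm B) 1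
  rw [pt_add, pt_add, add_zero, add_zero, zero_add, zero_add] at h2
  rw [Complex.ofReal_one] at h1'
  rw [← hY, ← hE] at h2
  rw [h2, ← Complex.ofReal_pow, Complex.re_ofReal_mul] at h1'
  have h3 : 0 < (ε⁻¹) ^ Fintype.card ι := by positivity
  by_contra hn
  push Not at hn
  nlinarith [mul_neg_of_pos_of_neg h3 hn]

theorem cont_pow (C : ι → ι → ι → ι → ℝ) (B : Matrix ι ι ℂ) (k : ℕ) (p : PR ι) :
    Continuous fun ε : ℝ => MvPolynomial.eval (pt 0 ((ε : ℂ) • (1 : Matrix ι ι ℂ) + B) 1)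
      ((Le C ε ε ^ k) p) := by
  induction k generalizing p with
  | zero =>
    simp only [pow_zero, Module.End.one_apply]
    refine (MvPolynomial.continuous_eval p).comp (continuous_pt continuous_const ?_
      continuous_const)
    exact (Complex.continuous_ofReal.smul continuous_const).add continuous_const
  | succ k ih =>
    have h : ∀ ε : ℝ, MvPolynomial.eval (pt 0 ((ε : ℂ) • (1 : Matrix ι ι ℂ) + B) 1)
        ((Le C ε ε ^ (k + 1)) p) =
        MvPolynomial.eval (pt 0 ((ε : ℂ) • (1 : Matrix ι ι ℂ) + B) 1) ((Le C ε ε ^ k) (Lop C p)) +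
        (ε : ℂ) * MvPolynomial.eval (pt 0 ((ε : ℂ) • (1 : Matrix ι ι ℂ) + B) 1)
          ((Le C ε ε ^ k) (dz 1 (dz 1 p))) +
        (ε : ℂ) * MvPolynomial.eval (pt 0 ((ε : ℂ) • (1 : Matrix ι ι ℂ) + B) 1)
          ((Le C ε ε ^ k) (dz 1 p)) := by
      intro ε
      rw [pow_succ, Module.End.mul_apply, Le_apply]
      simp only [map_add, map_smul, MvPolynomial.smul_eval]
    simp only [h]
    exact ((ih _).add (Complex.continuous_ofReal.mul (ih _))).add
      (Complex.continuous_ofReal.mul (ih _))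

theorem Le_zero (C : ι → ι → ι → ι → ℝ) : Le C 0 0 = Lop C := by
  unfold Le
  simp

/-- **The limit**: the sum of the iterates of the operator at the determinant is nonnegative on
the real skew-symmetric matrices. -/
theorem sum_nonneg_lim {C : ι → ι → ι → ι → ℝ} (hC : TraceCone C) {K : ℕ}
    (hK : (p0 ι).totalDegree ≤ K) {B : Matrix ι ι ℝ} (hB : Bᵀ = -B) :
    0 ≤ (∑ k ∈ range (K + 1), (k.factorial : ℂ)⁻¹ *
      MvPolynomial.eval (pt 0 (cm B) 1) ((Lop C ^ k) (q0 ι))).re := by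
  have h1 : ∀ ε : ℝ, 0 < ε → 0 ≤ (∑ k ∈ range (K + 1), (k.factorial : ℂ)⁻¹ *
      MvPolynomial.eval (pt 0 ((ε : ℂ) • (1 : Matrix ι ι ℂ) + cm B) 1)
        ((Le C ε ε ^ k) (q0 ι))).re := by
    intro ε hε
    have h2 := pos_eps hC hε hε hK hB
    rw [eval_flow] at h2
    simpa only [one_pow, one_mul] using h2
  have h2 : Continuous fun ε : ℝ => (∑ k ∈ range (K + 1), (k.factorial : ℂ)⁻¹ *
      MvPolynomial.eval (pt 0 ((ε : ℂ) • (1 : Matrix ι ι ℂ) + cm B) 1)
        ((Le C ε ε ^ k) (q0 ι))).re := by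
    refine Complex.continuous_re.comp (continuous_finsetSum _ fun k _ => ?_)
    exact continuous_const.mul (cont_pow C (cm B) k _)
  have h3 := (h2.tendsto 0).mono_left (nhdsWithin_le_nhds (s := Set.Ioi (0 : ℝ)))
  rw [Le_zero, Complex.ofReal_zero, zero_smul, zero_add] at h3
  exact ge_of_tendsto h3 (eventually_nhdsWithin_of_forall h1)

end Pool.Agent.H53HC
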