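import Pool.Agent.H53HC.Avg
import Pool.Agent.Y519.HB.Last

/-!
# Causal curvature tensors
-/

set_option autoImplicit false
set_option linter.unusedSectionVars false

namespace Pool.Agent.H53HC

open Finset Matrix Pool.Agent.W666.GB Pool.Agent.W669.HD Pool.Agent.Y519.HB

section defs

variable {V : Type} [NormedAddCommGroup V] [InnerProductSpace ℝ V]

/-- A Hermitian form on the complexification of `V`, given by its real part `s` (symmetric) and its
imaginary part `w` (alternating). -/
structure HermForm (s w : V → V → ℝ) : Prop where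
  s_add : ∀ x x' y, s (x + x') y = s x y + s x' y
  s_smul : ∀ (t : ℝ) x y, s (t • x) y = t * s x y
  s_symm : ∀ x y, s x y = s y x
  w_add : ∀ x x' y, w (x + x') y = w x y + w x' y
  w_smul : ∀ (t : ℝ) x y, w (t • x) y = t * w x y
  w_anti : ∀ x y, w x y = - w y x

/-- the value of the Hermitian form at `x + i y` -/
def hval (s w : V → V → ℝ) (x y : V) : ℝ := s x x + s y y + 2 * w x y

/-- alternating bilinear forms -/
structure SkewForm (K : V → V → ℝ) : Prop where
  add : ∀ x x' y, K (x + x') y = K x y + K x' y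
  smul : ∀ (t : ℝ) x y, K (t • x) y = t * K x y
  anti : ∀ x y, K x y = - K y x

/-- Causal tensors: `S = Re (A ∧ N - ∑ h_k ∧ h_k)` (Kulkarni–Nomizu products) for Hermitian forms
`A ≥ 0`, `N ≥ 0`, `h_k` on the complexification with `∑ h_k(u,u)² ≤ A(u,u) N(u,u)`. -/
def Causal (S : V → V → V → V → ℝ) : Prop :=
  ∃ (n : ℕ) (sA wA sN wN : V → V → ℝ) (sh wh : Fin n → V → V → ℝ),
    HermForm sA wA ∧ HermForm sN wN ∧ (∀ k, HermForm (sh k) (wh k)) ∧
    (∀ x y, 0 ≤ hval sA wA x y) ∧ (∀ x y, 0 ≤ hval sN wN x y) ∧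
    (∀ x y, ∑ k, hval (sh k) (wh k) x y ^ 2 ≤ hval sA wA x y * hval sN wN x y) ∧
    ∀ x y z t, S x y z t = kn sA sN x y z t - kn wA wN x y z t -
      ∑ k, (kn (sh k) (sh k) x y z t - kn (wh k) (wh k) x y z t)

/-- Sums of causal tensors and of the tensors
`K_k(x,z) K_k(y,t) - K_k(x,t) K_k(y,z)` of alternating forms `K_k`. -/
def CauSkew (S : V → V → V → V → ℝ) : Prop :=
  ∃ (r : ℕ) (T : Fin r → V → V → V → V → ℝ) (n : ℕ) (K : Fin n → V → V → ℝ),
    (∀ i, Causal (T i)) ∧ (∀ k, SkewForm (K k)) ∧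
    ∀ x y z t, S x y z t = ∑ i, T i x y z t + ∑ k, (K k x z * K k y t - K k x t * K k y z)

end defs

section sign

variable {V : Type} [NormedAddCommGroup V] [InnerProductSpace ℝ V]
variable {ι : Type} [Fintype ι] [DecidableEq ι]

theorem bil_expand {s : V → V → ℝ} (ha : ∀ x x' y, s (x + x') y = s x y + s x' y)
    (hs : ∀ (t : ℝ) x y, s (t • x) y = t * s x y) (hb : ∀ x y y', s x (y + y') = s x y + s x y')
    (hs' : ∀ (t : ℝ) x y, s x (t • y) = t * s x y) (e : ι → V) (a b : ι → ℝ) :
    s (∑ i, a i • e i) (∑ j, b j • e j) = ∑ i, ∑ j, a i * b j * s (e i) (e j) := by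
  have h0 : ∀ y, s 0 y = 0 := fun y => by
    have := hs 0 0 y
    rwa [zero_smul, zero_mul] at this
  have h0' : ∀ x, s x 0 = 0 := fun x => by
    have := hs' 0 x 0
    rwa [zero_smul, zero_mul] at this
  have h1 : ∀ (t : Finset ι) (y : V), s (∑ i ∈ t, a i • e i) y = ∑ i ∈ t, a i * s (e i) y := by
    intro t y
    induction t using Finset.induction_on with
    | empty => simp [h0]
    | insert c t hc ih => rw [Finset.sum_insert hc, Finset.sum_insert hc, ha, hs, ih]
  have h2 : ∀ (t : Finset ι) (x : V), s x (∑ i ∈ t, b i • e i) = ∑ i ∈ t, b i * s x (e i) := by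
    intro t x
    induction t using Finset.induction_on with
    | empty => simp [h0']
    | insert c t hc ih => rw [Finset.sum_insert hc, Finset.sum_insert hc, hb, hs', ih]
  rw [h1]
  refine Finset.sum_congr rfl fun i _ => ?_
  rw [h2, Finset.mul_sum]
  exact Finset.sum_congr rfl fun j _ => by ring

/-- the matrix of the Hermitian form -/
noncomputable def HM (e : ι → V) (s w : V → V → ℝ) : Matrix ι ι ℂ := fun a b =>
  (s (e a) (e b) : ℂ) - Complex.I * (w (e a) (e b) : ℂ)

theorem HM_herm {s w : V → V → ℝ} (h : HermForm s w) (e : ι → V) : (HM e s w).IsHermitian := by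
  ext a b
  simp only [HM, Matrix.conjTranspose_apply, RCLike.star_def, map_sub, map_mul,
    Complex.conj_ofReal, Complex.conj_I]
  rw [h.s_symm (e b) (e a), h.w_anti (e b) (e a)]
  push_cast
  ring

theorem qv_HM {s w : V → V → ℝ} (h : HermForm s w) (e : ι → V) (u : ι → ℂ) :
    qv (HM e s w) u = hval s w (∑ a, (u a).re • e a) (∑ a, (u a).im • e a) := by
  have hsb : ∀ x y y', s x (y + y') = s x y + s x y' := fun x y y' => by
    rw [h.s_symm, h.s_add, h.s_symm y, h.s_symm y']
  have hss : ∀ (t : ℝ) x y, s x (t • y) = t * s x y := fun t x y => by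
    rw [h.s_symm, h.s_smul, h.s_symm y]
  have hwb : ∀ x y y', w x (y + y') = w x y + w x y' := fun x y y' => by
    rw [h.w_anti, h.w_add, h.w_anti y, h.w_anti y']; ring
  have hws : ∀ (t : ℝ) x y, w x (t • y) = t * w x y := fun t x y => by
    rw [h.w_anti, h.w_smul, h.w_anti y]; ring
  have h1 : 2 * w (∑ a, (u a).re • e a) (∑ a, (u a).im • e a) =
      w (∑ a, (u a).re • e a) (∑ a, (u a).im • e a) -
        w (∑ a, (u a).im • e a) (∑ a, (u a).re • e a) := by
    rw [h.w_anti (∑ a, (u a).im • e a)]; ring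
  rw [hval, h1, bil_expand h.s_add h.s_smul hsb hss, bil_expand h.s_add h.s_smul hsb hss,
    bil_expand h.w_add h.w_smul hwb hws, bil_expand h.w_add h.w_smul hwb hws]
  simp only [qv, dotProduct, mulVec, Finset.mul_sum, Complex.re_sum, Pi.star_apply,
    RCLike.star_def, ← Finset.sum_add_distrib, ← Finset.sum_sub_distrib]
  refine Finset.sum_congr rfl fun a _ => Finset.sum_congr rfl fun b _ => ?_
  simp [HM, Complex.mul_re, Complex.mul_im]
  ring

theorem HM_psd {s w : V → V → ℝ} (h : HermForm s w) (hn : ∀ x y, 0 ≤ hval s w x y) (e : ι → V) :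
    Psd (HM e s w) := ⟨HM_herm h e, fun u => by rw [qv_HM h]; exact hn _ _⟩

theorem HM_mul_re (e : ι → V) (s w s' w' : V → V → ℝ) (a b c d : ι) :
    (HM e s w a b * HM e s' w' c d).re =
      s (e a) (e b) * s' (e c) (e d) - w (e a) (e b) * w' (e c) (e d) := by
  simp [HM, Complex.mul_re, Complex.mul_im]

/-- the components of a causal tensor come from the cone -/
theorem Causal.comp {S : V → V → V → V → ℝ} (h : Causal S) (e : ι → V) :
    ∃ C : ι → ι → ι → ι → ℝ, TraceCone C ∧
      ∀ i j k l, S (e i) (e j) (e k) (e l) = C i k j l - C i l j k := by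
  obtain ⟨n, sA, wA, sN, wN, sh, wh, hA, hN, hh, pA, pN, hc, hS⟩ := h
  have h1 := traceCone_causal (HM_psd hA pA e) (HM_psd hN pN e) (fun k => HM_herm (hh k) e)
    (fun u => by
      simp only [qv_HM hA, qv_HM hN, fun k => qv_HM (hh k) e u]
      exact hc _ _)
  have h2 := traceCone_causal (HM_psd hN pN e) (HM_psd hA pA e) (fun k => HM_herm (hh k) e)
    (fun u => by
      simp only [qv_HM hA, qv_HM hN, fun k => qv_HM (hh k) e u]
      rw [mul_comm]
      exact hc _ _)
  refine ⟨_, h1.add h2, fun i j k l => ?_⟩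
  simp only [Complex.sub_re, Complex.re_sum, HM_mul_re]
  have e1 : ∑ x, (kn (sh x) (sh x) (e i) (e j) (e k) (e l) -
      kn (wh x) (wh x) (e i) (e j) (e k) (e l)) =
      2 * ∑ x, (sh x (e i) (e k) * sh x (e j) (e l) - wh x (e i) (e k) * wh x (e j) (e l)) -
      2 * ∑ x, (sh x (e i) (e l) * sh x (e j) (e k) - wh x (e i) (e l) * wh x (e j) (e k)) := by
    rw [Finset.mul_sum, Finset.mul_sum, ← Finset.sum_sub_distrib]
    refine Finset.sum_congr rfl fun x _ => ?_
    simp only [kn]
    ring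
  rw [hS, e1]
  simp only [kn]
  ring

/-- **The sign of the Gauss–Bonnet–Chern integrand.** -/
theorem CauSkew.sign {S : V → V → V → V → ℝ} (h : CauSkew S) {m : ℕ}
    (e : OrthonormalBasis (Fin m × Bool) ℝ V) {R : V → V → V → V → ℝ}
    (hR : ∀ x y z t, R x y z t = - S x y z t) : 0 ≤ (-1) ^ m * gbc e R := by
  obtain ⟨r, T, n, K, hT, hK, hS⟩ := h
  choose C hC hCT using fun i => (hT i).comp (e : Fin m × Bool → V)
  have h1 := TraceCone.sum (univ : Finset (Fin r)) (C := C) fun i _ => hC i
  have h2 := Yf_nonneg_sq h1 (univ : Finset (Fin n))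
    (fun k => Matrix.of fun a b => K k (e a) (e b)) (fun k => by
      ext a b
      simp only [Matrix.transpose_apply, Matrix.of_apply, Matrix.neg_apply]
      exact (hK k).anti _ _)
  simp only [Matrix.of_apply] at h2
  have h3 := lift_sum (B := Fin m)
    (fun i j k l => ∑ x, C x i j k l + ∑ a, K a (e i) (e j) * K a (e k) (e l))
    (fun i j k l => -R (e i) (e j) (e k) (e l)) (fun i j k l => by
      rw [hR, hS, neg_neg]
      simp only [hCT, Finset.sum_sub_distrib]
      ring)
  rw [Fintype.card_fin] at h3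
  have h4 : ∀ σ τ : Equiv.Perm (Fin m × Bool), ∏ b : Fin m,
      -R (e (σ (b, false))) (e (σ (b, true))) (e (τ (b, false))) (e (τ (b, true))) =
      (-1) ^ m * ∏ b : Fin m,
        R (e (σ (b, false))) (e (σ (b, true))) (e (τ (b, false))) (e (τ (b, true))) := by
    intro σ τ
    rw [Finset.prod_neg, Finset.card_univ, Fintype.card_fin]
  have h5 : (-1) ^ m * gbc e R = 1 / ((8 * Real.pi) ^ m * m.factorial) *
      (2 ^ m * Yf (fun i j k l => ∑ x, C x i j k l + ∑ a, K a (e i) (e j) * K a (e k) (e l))) := by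
    rw [← h3, gbc]
    simp only [h4, sn, Finset.mul_sum]
    refine Finset.sum_congr rfl fun σ _ => Finset.sum_congr rfl fun τ _ => ?_
    ring
  rw [h5]
  have hπ := Real.pi_pos
  positivity

end sign

end Pool.Agent.H53HC
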