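import Pool.Agent.H53HC.Geo

/-!
# Restrictions, sums, and the lower bound
-/

set_option autoImplicit false
set_option linter.unusedSectionVars false

namespace Pool.Agent.H53HC

open Finset Matrix Pool.Agent.W666.GB Pool.Agent.W669.HD Pool.Agent.Y519.HB

variable {V : Type} [NormedAddCommGroup V] [InnerProductSpace ℝ V]

section restrict

variable {V' : Type} [NormedAddCommGroup V'] [InnerProductSpace ℝ V']

theorem HermForm.pull {s w : V → V → ℝ} (h : HermForm s w) (L : V' →ₗ[ℝ] V) :
    HermForm (fun x y => s (L x) (L y)) (fun x y => w (L x) (L y)) where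
  s_add x x' y := by rw [map_add, h.s_add]
  s_smul t x y := by rw [map_smul, h.s_smul]
  s_symm x y := h.s_symm _ _
  w_add x x' y := by rw [map_add, h.w_add]
  w_smul t x y := by rw [map_smul, h.w_smul]
  w_anti x y := h.w_anti _ _

theorem SkewForm.pull {K : V → V → ℝ} (h : SkewForm K) (L : V' →ₗ[ℝ] V) :
    SkewForm (fun x y => K (L x) (L y)) where
  add x x' y := by rw [map_add, h.add]
  smul t x y := by rw [map_smul, h.smul]
  anti x y := h.anti _ _

theorem Causal.pull {S : V → V → V → V → ℝ} (h : Causal S) (L : V' →ₗ[ℝ] V) :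
    Causal (fun x y z t => S (L x) (L y) (L z) (L t)) := by
  obtain ⟨n, sA, wA, sN, wN, sh, wh, hA, hN, hh, pA, pN, hc, hS⟩ := h
  exact ⟨n, _, _, _, _, fun k x y => sh k (L x) (L y), fun k x y => wh k (L x) (L y),
    hA.pull L, hN.pull L, fun k => (hh k).pull L, fun x y => pA (L x) (L y),
    fun x y => pN (L x) (L y), fun x y => hc (L x) (L y), fun x y z t => hS _ _ _ _⟩

theorem CauSkew.pull {S : V → V → V → V → ℝ} (h : CauSkew S) (L : V' →ₗ[ℝ] V) :
    CauSkew (fun x y z t => S (L x) (L y) (L z) (L t)) := by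
  obtain ⟨r, T, n, K, hT, hK, hS⟩ := h
  exact ⟨r, fun i x y z t => T i (L x) (L y) (L z) (L t), n, fun k x y => K k (L x) (L y),
    fun i => (hT i).pull L, fun k => (hK k).pull L, fun x y z t => hS _ _ _ _⟩

end restrict

theorem Causal.cauSkew {S : V → V → V → V → ℝ} (h : Causal S) : CauSkew S :=
  ⟨1, fun _ => S, 0, fun k => k.elim0, fun _ => h, fun k => k.elim0, fun x y z t => by simp⟩

theorem CauSkew.add {S S' : V → V → V → V → ℝ} (h : CauSkew S) (h' : CauSkew S') :
    CauSkew (fun x y z t => S x y z t + S' x y z t) := by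
  obtain ⟨r, T, n, K, hT, hK, hS⟩ := h
  obtain ⟨r', T', n', K', hT', hK', hS'⟩ := h'
  refine ⟨r + r', Fin.append T T', n + n', Fin.append K K', ?_, ?_, fun x y z t => ?_⟩
  · intro i
    refine Fin.addCases (fun i => ?_) (fun i => ?_) i
    · rw [Fin.append_left]; exact hT i
    · rw [Fin.append_right]; exact hT' i
  · intro i
    refine Fin.addCases (fun i => ?_) (fun i => ?_) i
    · rw [Fin.append_left]; exact hK i
    · rw [Fin.append_right]; exact hK' i
  · show S x y z t + S' x y z t = _
    rw [hS, hS', Fin.sum_univ_add, Fin.sum_univ_add]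
    simp only [Fin.append_left, Fin.append_right]
    ring

/-- On all subspaces the integrand has the sign of the Hopf conjecture. -/
theorem CauSkew.hopfOn {S R : V → V → V → V → ℝ} (h : CauSkew S)
    (hR : ∀ x y z t, R x y z t = - S x y z t) (U : Submodule ℝ V) : HopfOn U R := by
  intro k E _ e
  exact (h.pull E.subtype).sign e fun x y z t => hR _ _ _ _

/-- **The lower bound.** -/
theorem CauSkew.bound {S R : V → V → V → V → ℝ} (h : CauSkew S) (hc : AlgCurv R) {m : ℕ}
    (e : OrthonormalBasis (Fin m × Bool) ℝ V) {δ : ℝ} (hδ : 0 ≤ δ)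
    (hR : ∀ x y z t, R x y z t = - S x y z t - δ * unitT x y z t) :
    roundGB m δ ≤ (-1) ^ m * gbc e R := by
  have hfin : FiniteDimensional ℝ V := Module.Finite.of_basis e.toBasis
  have htop : ∀ x ∈ (⊤ : Submodule ℝ V)ᗮ, x = 0 := by
    intro x hx
    rwa [Submodule.top_orthogonal_eq_bot, Submodule.mem_bot] at hx
  have hS' : AlgCurv (fun x y z t => - S x y z t) := by
    have h1 : AlgCurv (fun x y z t => R x y z t - (-δ) * unitT x y z t) :=
      sub_curv hc (unit_curv (-δ))
    have h2 : (fun x y z t => R x y z t - (-δ) * unitT x y z t) =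
        fun x y z t => - S x y z t := by
      funext x y z t
      rw [hR]
      ring
    rwa [h2] at h1
  refine cls_bound e hδ (Or.inl ⟨1, fun _ => ⊤, fun _ => fun x y z t => - S x y z t, 0,
    fun k => k.elim0, fun k => k.elim0, fun k => k.elim0, fun k => k.elim0, ⟨?_, ?_⟩,
    fun _ => hS', ?_, fun _ => h.hopfOn (fun _ _ _ _ => rfl) _, fun k => k.elim0,
    fun k => k.elim0, ?_⟩)
  · intro i j hij
    exact absurd (Subsingleton.elim i j) hij
  · exact ciSup_const
  · intro _ x hx y z w
    rw [htop x hx]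
    have := hS'.smul 0 0 y z w
    rw [zero_smul, zero_mul] at this
    exact this
  · intro a b c d
    simp [hR]

/-- Hermitian forms with imaginary part zero. -/
theorem HermForm.real {s : V → V → ℝ} (ha : ∀ x x' y, s (x + x') y = s x y + s x' y)
    (hs : ∀ (t : ℝ) x y, s (t • x) y = t * s x y) (hsy : ∀ x y, s x y = s y x) :
    HermForm s (fun _ _ => 0) :=
  ⟨ha, hs, hsy, fun _ _ _ => by simp, fun _ _ _ => by simp, fun _ _ => by simp⟩

/-- symmetric bilinear forms -/
structure SymF (s : V → V → ℝ) : Prop where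
  add : ∀ x x' y, s (x + x') y = s x y + s x' y
  smul : ∀ (t : ℝ) x y, s (t • x) y = t * s x y
  symm : ∀ x y, s x y = s y x

/-- Real causal data give causal tensors. -/
theorem causal_real {S : V → V → V → V → ℝ} {n : ℕ} {A N : V → V → ℝ} {h : Fin n → V → V → ℝ}
    (hA : SymF A) (hN : SymF N) (hh : ∀ k, SymF (h k)) (pA : ∀ x, 0 ≤ A x x)
    (pN : ∀ x, 0 ≤ N x x) (hc : ∀ x, ∑ k, h k x x ^ 2 ≤ A x x * N x x)
    (hS : ∀ x y z t, S x y z t = kn A N x y z t - ∑ k, kn (h k) (h k) x y z t) : Causal S := by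
  refine ⟨n, A, fun _ _ => 0, N, fun _ _ => 0, h, fun _ _ _ => 0,
    HermForm.real hA.add hA.smul hA.symm, HermForm.real hN.add hN.smul hN.symm,
    fun k => HermForm.real (hh k).add (hh k).smul (hh k).symm, fun x y => ?_, fun x y => ?_,
    fun x y => ?_, fun x y z t => ?_⟩
  · simp only [hval, mul_zero, add_zero]
    exact add_nonneg (pA x) (pA y)
  · simp only [hval, mul_zero, add_zero]
    exact add_nonneg (pN x) (pN y)
  · simp only [hval, mul_zero, add_zero]
    have h1 : ∑ k, (h k x x + h k y y) ^ 2 = ∑ k, h k x x ^ 2 +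
        2 * ∑ k, h k x x * h k y y + ∑ k, h k y y ^ 2 := by
      rw [Finset.mul_sum, ← Finset.sum_add_distrib, ← Finset.sum_add_distrib]
      exact Finset.sum_congr rfl fun k _ => by ring
    have h2 := Finset.sum_mul_sq_le_sq_mul_sq univ (fun k => h k x x) (fun k => h k y y)
    have h3 : (∑ k, h k x x * h k y y) ^ 2 ≤ (A x x * N x x) * (A y y * N y y) :=
      h2.trans (mul_le_mul (hc x) (hc y) (Finset.sum_nonneg fun _ _ => sq_nonneg _)
        (mul_nonneg (pA x) (pN x)))
    have h4 : (2 * ∑ k, h k x x * h k y y) ^ 2 ≤ (A x x * N y y + A y y * N x x) ^ 2 := by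
      nlinarith [sq_nonneg (A x x * N y y - A y y * N x x)]
    have h5 : 2 * ∑ k, h k x x * h k y y ≤ A x x * N y y + A y y * N x x :=
      (abs_le_of_sq_le_sq' h4 (add_nonneg (mul_nonneg (pA x) (pN y))
        (mul_nonneg (pA y) (pN x)))).2
    rw [h1]
    nlinarith [hc x, hc y]
  · rw [hS]
    simp [kn]

end Pool.Agent.H53HC
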