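import Pool.Agent.H53HC.Geo2
import Pool.Agent.W669.HD.Sq

/-!
# Curvature operators of the first and of the second kind, and submanifolds
-/

set_option autoImplicit false
set_option linter.unusedSectionVars false

namespace Pool.Agent.H53HC

open Finset Matrix Pool.Agent.W666.GB Pool.Agent.W669.HD Pool.Agent.Y519.HB

variable {V : Type} [NormedAddCommGroup V] [InnerProductSpace ℝ V]
variable {ι : Type} [Fintype ι] [DecidableEq ι]

/-- The quadratic form `h ↦ ∑ S(e_i, e_k, e_l, e_j) h_{ij} h_{kl}` of the curvature operator of the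
second kind of `S` on the symmetric matrices is nonnegative on a hyperplane `∑ w_{ij} h_{ij} = 0`
(for constant curvature one it is `∑ h_{ij}² - (∑ h_{ii})²`). -/
def SecondNonneg (e : OrthonormalBasis ι ℝ V) (S : V → V → V → V → ℝ) : Prop :=
  ∃ w : ι → ι → ℝ, ∀ h : ι → ι → ℝ, (∀ i j, h i j = h j i) → ∑ i, ∑ j, w i j * h i j = 0 →
    0 ≤ ∑ i, ∑ j, ∑ k, ∑ l, S (e i) (e k) (e l) (e j) * (h i j * h k l)

theorem AlgCurv.toBi {S : V → V → V → V → ℝ} (h : AlgCurv S) : BiForm S :=
  ⟨h.add, h.smul, h.anti, h.pair⟩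

theorem BiForm.expand (e : OrthonormalBasis ι ℝ V) {K : V → V → V → V → ℝ} (h : BiForm K)
    (x y z t : V) : K x y z t = ∑ i, ∑ j, ∑ k, ∑ l, inner ℝ (e i) x * inner ℝ (e j) y *
      inner ℝ (e k) z * inner ℝ (e l) t * K (e i) (e j) (e k) (e l) := by
  have h0 : ∀ y z t, K 0 y z t = 0 := fun y z t => by
    have := h.smul 0 0 y z t
    rwa [zero_smul, zero_mul] at this
  have h1 : ∀ x y z t, K x y z t = ∑ i, inner ℝ (e i) x * K (e i) y z t := by
    intro x y z t
    have h2 : ∀ s : Finset ι, K (∑ i ∈ s, inner ℝ (e i) x • e i) y z t =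
        ∑ i ∈ s, inner ℝ (e i) x * K (e i) y z t := by
      intro s
      induction s using Finset.induction_on with
      | empty => simp [h0]
      | insert a s ha ih => rw [Finset.sum_insert ha, Finset.sum_insert ha, h.add, h.smul, ih]
    conv_lhs => rw [← e.sum_repr' x]
    exact h2 univ
  have h2 : ∀ x y z t, K x y z t = ∑ j, inner ℝ (e j) y * K x (e j) z t := by
    intro x y z t
    rw [← neg_neg (K x y z t), ← h.anti, h1, ← Finset.sum_neg_distrib]
    refine Finset.sum_congr rfl fun j _ => ?_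
    rw [h.anti x (e j)]
    ring
  have h3 : ∀ x y z t, K x y z t = ∑ k, inner ℝ (e k) z * K x y (e k) t := by
    intro x y z t
    rw [← h.pair x y z t, h1]
    refine Finset.sum_congr rfl fun k _ => ?_
    rw [h.pair]
  have h4 : ∀ x y z t, K x y z t = ∑ l, inner ℝ (e l) t * K x y z (e l) := by
    intro x y z t
    rw [← h.pair x y z t, h2]
    refine Finset.sum_congr rfl fun l _ => ?_
    rw [h.pair]
  rw [h1]
  refine Finset.sum_congr rfl fun i _ => ?_
  rw [h2, Finset.mul_sum]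
  refine Finset.sum_congr rfl fun j _ => ?_
  rw [h3, Finset.mul_sum, Finset.mul_sum]
  refine Finset.sum_congr rfl fun k _ => ?_
  rw [h4, Finset.mul_sum, Finset.mul_sum, Finset.mul_sum]
  refine Finset.sum_congr rfl fun l _ => ?_
  ring

/-- the bilinear form with given components -/
noncomputable def bf (e : OrthonormalBasis ι ℝ V) (ν : ι → ι → ℝ) (x y : V) : ℝ :=
  ∑ i, ∑ j, inner ℝ (e i) x * inner ℝ (e j) y * ν i j

theorem bf_add (e : OrthonormalBasis ι ℝ V) (ν : ι → ι → ℝ) (x x' y : V) :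
    bf e ν (x + x') y = bf e ν x y + bf e ν x' y := by
  simp only [bf, inner_add_right, add_mul, Finset.sum_add_distrib]

theorem bf_smul (e : OrthonormalBasis ι ℝ V) (ν : ι → ι → ℝ) (t : ℝ) (x y : V) :
    bf e ν (t • x) y = t * bf e ν x y := by
  simp only [bf, real_inner_smul_right, Finset.mul_sum]
  exact Finset.sum_congr rfl fun i _ => Finset.sum_congr rfl fun j _ => by ring

theorem bf_swap (e : OrthonormalBasis ι ℝ V) (ν : ι → ι → ℝ) (x y : V) :
    bf e ν x y = bf e (fun i j => ν j i) y x := by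
  simp only [bf]
  rw [Finset.sum_comm]
  exact Finset.sum_congr rfl fun i _ => Finset.sum_congr rfl fun j _ => by ring

theorem bf_neg (e : OrthonormalBasis ι ℝ V) (ν : ι → ι → ℝ) (x y : V) :
    bf e (fun i j => - ν i j) x y = - bf e ν x y := by
  simp only [bf, ← Finset.sum_neg_distrib]
  exact Finset.sum_congr rfl fun i _ => Finset.sum_congr rfl fun j _ => by ring

theorem bf_mul (e : OrthonormalBasis ι ℝ V) (ν ν' : ι → ι → ℝ) (x y z t : V) :
    bf e ν x y * bf e ν' z t = ∑ i, ∑ j, ∑ k, ∑ l, inner ℝ (e i) x * inner ℝ (e j) y *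
      inner ℝ (e k) z * inner ℝ (e l) t * (ν i j * ν' k l) := by
  simp only [bf]
  rw [Finset.sum_mul]
  refine Finset.sum_congr rfl fun i _ => ?_
  rw [Finset.sum_mul]
  refine Finset.sum_congr rfl fun j _ => ?_
  rw [Finset.mul_sum]
  refine Finset.sum_congr rfl fun k _ => ?_
  rw [Finset.mul_sum]
  exact Finset.sum_congr rfl fun l _ => by ring

/-- **Nonnegative curvature operators.** -/
theorem cauSkew_of_op (e : OrthonormalBasis ι ℝ V) {S : V → V → V → V → ℝ} (hc : AlgCurv S)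
    (hn : OpNonneg S) : CauSkew S := by
  obtain ⟨n, ν, hν, hS⟩ := (AlgCurv.toBi hc).squares (e : ι → V) hn
  have h1 : ∀ x y z t, S x y z t = ∑ a, bf e (ν a) x y * bf e (ν a) z t := by
    intro x y z t
    rw [BiForm.expand e (AlgCurv.toBi hc)]
    simp only [bf_mul, hS]
    symm
    rw [Finset.sum_comm]
    refine Finset.sum_congr rfl fun i _ => ?_
    rw [Finset.sum_comm]
    refine Finset.sum_congr rfl fun j _ => ?_
    rw [Finset.sum_comm]
    refine Finset.sum_congr rfl fun k _ => ?_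
    rw [Finset.sum_comm]
    refine Finset.sum_congr rfl fun l _ => ?_
    rw [Finset.mul_sum]
  have hsk : ∀ a, SkewForm (bf e (ν a)) := by
    intro a
    refine ⟨bf_add e _, bf_smul e _, fun x y => ?_⟩
    rw [bf_swap e (ν a) x y, ← bf_neg]
    congr 1
    funext i j
    exact hν a i j
  refine ⟨0, fun k => k.elim0, n, fun a => bf e (ν a), fun k => k.elim0, hsk,
    fun x y z t => ?_⟩
  have hb := hc.bianchi x y z t
  rw [h1 y z x t, h1 z x y t] at hb
  have h2 : ∑ a, (bf e (ν a) x z * bf e (ν a) y t - bf e (ν a) x t * bf e (ν a) y z) =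
      -(∑ a, bf e (ν a) y z * bf e (ν a) x t) - ∑ a, bf e (ν a) z x * bf e (ν a) y t := by
    rw [← Finset.sum_neg_distrib, ← Finset.sum_sub_distrib]
    refine Finset.sum_congr rfl fun a _ => ?_
    rw [(hsk a).anti x z]
    ring
  simp only [Finset.univ_eq_empty, Finset.sum_empty, zero_add]
  rw [h2]
  linarith


/-! ### Positive forms on a hyperplane -/

/-- the bilinear form of a four-tensor on matrices -/
def Qm (s : ι → ι → ι → ι → ℝ) (X Y : ι → ι → ℝ) : ℝ :=
  ∑ i, ∑ j, ∑ k, ∑ l, s i j k l * (X i j * Y k l)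

/-- the pairing of matrices -/
def pm (w X : ι → ι → ℝ) : ℝ := ∑ i, ∑ j, w i j * X i j

theorem Qm_add (s : ι → ι → ι → ι → ℝ) (X X' Y : ι → ι → ℝ) :
    Qm s (fun i j => X i j + X' i j) Y = Qm s X Y + Qm s X' Y := by
  simp only [Qm, ← Finset.sum_add_distrib]
  exact Finset.sum_congr rfl fun i _ => Finset.sum_congr rfl fun j _ =>
    Finset.sum_congr rfl fun k _ => Finset.sum_congr rfl fun l _ => by ring

theorem Qm_smul (s : ι → ι → ι → ι → ℝ) (t : ℝ) (X Y : ι → ι → ℝ) :
    Qm s (fun i j => t * X i j) Y = t * Qm s X Y := by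
  simp only [Qm, Finset.mul_sum]
  exact Finset.sum_congr rfl fun i _ => Finset.sum_congr rfl fun j _ =>
    Finset.sum_congr rfl fun k _ => Finset.sum_congr rfl fun l _ => by ring

theorem Qm_symm {s : ι → ι → ι → ι → ℝ} (hs : ∀ i j k l, s i j k l = s k l i j)
    (X Y : ι → ι → ℝ) : Qm s X Y = Qm s Y X := by
  have h1 : Qm s X Y = ∑ p : ι × ι, ∑ q : ι × ι, s p.1 p.2 q.1 q.2 * (X p.1 p.2 * Y q.1 q.2) := by
    rw [Qm, Fintype.sum_prod_type]
    exact Finset.sum_congr rfl fun i _ => Finset.sum_congr rfl fun j _ => by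
      rw [Fintype.sum_prod_type]
  have h2 : Qm s Y X = ∑ p : ι × ι, ∑ q : ι × ι, s p.1 p.2 q.1 q.2 * (Y p.1 p.2 * X q.1 q.2) := by
    rw [Qm, Fintype.sum_prod_type]
    exact Finset.sum_congr rfl fun i _ => Finset.sum_congr rfl fun j _ => by
      rw [Fintype.sum_prod_type]
  rw [h1, h2, Finset.sum_comm]
  exact Finset.sum_congr rfl fun p _ => Finset.sum_congr rfl fun q _ => by rw [hs]; ring

theorem Qm_swap {s : ι → ι → ι → ι → ℝ} (hs : ∀ i j k l, s i j k l = s j i l k)
    (X Y : ι → ι → ℝ) : Qm s (fun i j => X j i) (fun i j => Y j i) = Qm s X Y := by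
  simp only [Qm]
  rw [Finset.sum_comm]
  refine Finset.sum_congr rfl fun i _ => Finset.sum_congr rfl fun j _ => ?_
  rw [Finset.sum_comm]
  exact Finset.sum_congr rfl fun k _ => Finset.sum_congr rfl fun l _ => by rw [hs j i l k]

/-- the symmetrised tensor -/
noncomputable def sS (s : ι → ι → ι → ι → ℝ) (i j k l : ι) : ℝ := (s i j k l + s j i k l) / 2

/-- the second form -/
noncomputable def Nm (s : ι → ι → ι → ι → ℝ) (w : ι → ι → ℝ) (k l : ι) : ℝ :=
  -(2 * (pm w w)⁻¹) * (∑ i, ∑ j, s i j k l * w i j) + ((pm w w)⁻¹) ^ 2 * Qm s w w * w k l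

theorem pm_add (w X X' : ι → ι → ℝ) :
    pm w (fun i j => X i j + X' i j) = pm w X + pm w X' := by
  simp only [pm, ← Finset.sum_add_distrib]
  exact Finset.sum_congr rfl fun i _ => Finset.sum_congr rfl fun j _ => by ring

theorem pm_smul (w X : ι → ι → ℝ) (t : ℝ) : pm w (fun i j => t * X i j) = t * pm w X := by
  simp only [pm, Finset.mul_sum]
  exact Finset.sum_congr rfl fun i _ => Finset.sum_congr rfl fun j _ => by ring

theorem pm_Nm (s : ι → ι → ι → ι → ℝ) (w X : ι → ι → ℝ) :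
    pm (Nm s w) X = -(2 * (pm w w)⁻¹) * Qm s w X + ((pm w w)⁻¹) ^ 2 * Qm s w w * pm w X := by
  have h1 : Qm s w X = ∑ k, ∑ l, (∑ i, ∑ j, s i j k l * w i j) * X k l := by
    have h2 : Qm s w X = ∑ p : ι × ι, ∑ q : ι × ι, s p.1 p.2 q.1 q.2 * (w p.1 p.2 * X q.1 q.2) := by
      rw [Qm, Fintype.sum_prod_type]
      exact Finset.sum_congr rfl fun i _ => Finset.sum_congr rfl fun j _ => by
        rw [Fintype.sum_prod_type]
    have h3 : ∑ k, ∑ l, (∑ i, ∑ j, s i j k l * w i j) * X k l =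
        ∑ q : ι × ι, ∑ p : ι × ι, s p.1 p.2 q.1 q.2 * (w p.1 p.2 * X q.1 q.2) := by
      rw [Fintype.sum_prod_type]
      refine Finset.sum_congr rfl fun k _ => Finset.sum_congr rfl fun l _ => ?_
      rw [Fintype.sum_prod_type, Finset.sum_mul]
      refine Finset.sum_congr rfl fun i _ => ?_
      rw [Finset.sum_mul]
      exact Finset.sum_congr rfl fun j _ => by ring
    rw [h2, h3, Finset.sum_comm]
  rw [h1]
  simp only [pm, Nm, Finset.mul_sum, ← Finset.sum_add_distrib]
  refine Finset.sum_congr rfl fun k _ => Finset.sum_congr rfl fun l _ => ?_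
  simp only [← Finset.mul_sum]
  ring

/-- **A form which is nonnegative on a hyperplane becomes positive semidefinite after adding a
product of linear forms.** -/
theorem hyper_nonneg {s : ι → ι → ι → ι → ℝ} (h1 : ∀ i j k l, s i j k l = s k l i j)
    (h2 : ∀ i j k l, s i j k l = s j i l k) {w : ι → ι → ℝ} (hw : ∀ i j, w i j = w j i)
    (hs : ∀ h : ι → ι → ℝ, (∀ i j, h i j = h j i) → pm w h = 0 → 0 ≤ Qm s h h)
    (X : ι × ι → ℝ) :
    0 ≤ ∑ p : ι × ι, ∑ q : ι × ι, (sS s p.1 p.2 q.1 q.2 +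
      (w p.1 p.2 * Nm s w q.1 q.2 + Nm s w p.1 p.2 * w q.1 q.2) / 2) * (X p * X q) := by
  set X' : ι → ι → ℝ := fun i j => X (i, j) with hX'
  set a := pm w w with ha
  -- the sum
  have e1 : ∑ p : ι × ι, ∑ q : ι × ι, (sS s p.1 p.2 q.1 q.2 +
      (w p.1 p.2 * Nm s w q.1 q.2 + Nm s w p.1 p.2 * w q.1 q.2) / 2) * (X p * X q) =
      (Qm s X' X' + Qm s (fun i j => X' j i) X') / 2 + pm w X' * pm (Nm s w) X' := by
    have f1 : Qm s X' X' = ∑ p : ι × ι, ∑ q : ι × ι, s p.1 p.2 q.1 q.2 * (X p * X q) := by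
      rw [Qm, Fintype.sum_prod_type]
      exact Finset.sum_congr rfl fun i _ => Finset.sum_congr rfl fun j _ => by
        rw [Fintype.sum_prod_type]
    have f2 : Qm s (fun i j => X' j i) X' =
        ∑ p : ι × ι, ∑ q : ι × ι, s p.2 p.1 q.1 q.2 * (X p * X q) := by
      rw [Qm, Finset.sum_comm, Fintype.sum_prod_type]
      exact Finset.sum_congr rfl fun i _ => Finset.sum_congr rfl fun j _ => by
        rw [Fintype.sum_prod_type]
    have f3 : pm w X' = ∑ p : ι × ι, w p.1 p.2 * X p := by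
      rw [pm, Fintype.sum_prod_type]
    have f4 : pm (Nm s w) X' = ∑ p : ι × ι, Nm s w p.1 p.2 * X p := by
      rw [pm, Fintype.sum_prod_type]
    have f5 : pm w X' * pm (Nm s w) X' = ∑ p : ι × ι, ∑ q : ι × ι,
        ((w p.1 p.2 * Nm s w q.1 q.2 + Nm s w p.1 p.2 * w q.1 q.2) / 2) * (X p * X q) := by
      have g1 : pm w X' * pm (Nm s w) X' =
          ∑ p : ι × ι, ∑ q : ι × ι, (w p.1 p.2 * X p) * (Nm s w q.1 q.2 * X q) := by
        rw [f3, f4, Finset.sum_mul_sum]
      have g2 : pm w X' * pm (Nm s w) X' =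
          ∑ p : ι × ι, ∑ q : ι × ι, (Nm s w p.1 p.2 * X p) * (w q.1 q.2 * X q) := by
        rw [mul_comm, f3, f4, Finset.sum_mul_sum]
      have g3 : pm w X' * pm (Nm s w) X' = (pm w X' * pm (Nm s w) X' +
          pm w X' * pm (Nm s w) X') / 2 := by ring
      rw [g3]
      nth_rewrite 1 [g1]
      rw [g2, ← Finset.sum_add_distrib, Finset.sum_div]
      refine Finset.sum_congr rfl fun p _ => ?_
      rw [← Finset.sum_add_distrib, Finset.sum_div]
      exact Finset.sum_congr rfl fun q _ => by ring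
    rw [f1, f2, f5, ← Finset.sum_add_distrib, Finset.sum_div, ← Finset.sum_add_distrib]
    refine Finset.sum_congr rfl fun p _ => ?_
    rw [← Finset.sum_add_distrib, Finset.sum_div, ← Finset.sum_add_distrib]
    exact Finset.sum_congr rfl fun q _ => by simp only [sS]; ring
  rw [e1]
  -- the symmetric matrix
  set Y : ι → ι → ℝ := fun i j => (1 / 2) * (X' i j + X' j i) with hY
  have hYs : ∀ i j, Y i j = Y j i := fun i j => by simp only [hY]; ring
  have e2 : Qm s Y Y = (Qm s X' X' + Qm s (fun i j => X' j i) X') / 2 := by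
    have g1 : ∀ Z, Qm s Y Z = (1 / 2) * (Qm s X' Z + Qm s (fun i j => X' j i) Z) := by
      intro Z
      rw [hY, Qm_smul s (1 / 2) (fun i j => X' i j + X' j i), Qm_add s X' (fun i j => X' j i)]
    have g2 : Qm s X' (fun i j => X' j i) = Qm s (fun i j => X' j i) X' := Qm_symm h1 _ _
    have g3 := Qm_swap h2 X' X'
    rw [g1, Qm_symm h1 X' Y, Qm_symm h1 _ Y, g1, g1, g2, g3]
    ring
  have e3 : pm w Y = pm w X' := by
    have g1 : pm w (fun i j => X' j i) = pm w X' := by
      simp only [pm]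
      rw [Finset.sum_comm]
      exact Finset.sum_congr rfl fun i _ => Finset.sum_congr rfl fun j _ => by rw [hw j i]
    rw [hY, pm_smul w (fun i j => X' i j + X' j i), pm_add w X' (fun i j => X' j i), g1]
    ring
  have e4 : pm (Nm s w) Y = pm (Nm s w) X' := by
    have hN : ∀ i j, Nm s w i j = Nm s w j i := by
      intro i j
      have g0 : ∑ a, ∑ b, s a b i j * w a b = ∑ a, ∑ b, s a b j i * w a b := by
        rw [Finset.sum_comm]
        exact Finset.sum_congr rfl fun a _ => Finset.sum_congr rfl fun b _ => by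
          rw [h2 b a i j, hw b a]
      simp only [Nm]
      rw [g0, hw i j]
    have g1 : pm (Nm s w) (fun i j => X' j i) = pm (Nm s w) X' := by
      simp only [pm]
      rw [Finset.sum_comm]
      exact Finset.sum_congr rfl fun i _ => Finset.sum_congr rfl fun j _ => by rw [hN j i]
    rw [hY, pm_smul _ (fun i j => X' i j + X' j i), pm_add _ X' (fun i j => X' j i), g1]
    ring
  rw [← e2, ← e3, ← e4]
  -- the projection to the hyperplane
  set t := a⁻¹ * pm w Y with ht
  have hw0 : a = 0 → ∀ i j, w i j = 0 := by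
    intro h i j
    have g1 : ∑ i, ∑ j, w i j * w i j = 0 := h
    have g2 := (Finset.sum_eq_zero_iff_of_nonneg fun i _ =>
      Finset.sum_nonneg fun j _ => mul_self_nonneg (w i j)).1 g1 i (Finset.mem_univ _)
    have g3 := (Finset.sum_eq_zero_iff_of_nonneg fun j _ => mul_self_nonneg (w i j)).1 g2 j
      (Finset.mem_univ _)
    exact mul_self_eq_zero.1 g3
  have e5 := hs (fun i j => Y i j + (-t) * w i j) (fun i j => by rw [hYs i j, hw i j]) (by
    rw [pm_add w Y (fun i j => (-t) * w i j), pm_smul w w (-t)]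
    rcases eq_or_ne a 0 with h | h
    · have : ∀ Z, pm w Z = 0 := fun Z => by simp [pm, hw0 h]
      rw [this, this]
      simp
    · rw [← ha, ht]
      field_simp
      ring)
  have e6 : Qm s (fun i j => Y i j + (-t) * w i j) (fun i j => Y i j + (-t) * w i j) =
      Qm s Y Y - 2 * t * Qm s w Y + t ^ 2 * Qm s w w := by
    have g1 : ∀ Z, Qm s (fun i j => Y i j + (-t) * w i j) Z = Qm s Y Z + (-t) * Qm s w Z := by
      intro Z
      rw [Qm_add s Y (fun i j => (-t) * w i j), Qm_smul s (-t) w]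
    rw [g1, Qm_symm h1 Y, Qm_symm h1 w, g1, g1, Qm_symm h1 Y w]
    ring
  rw [e6] at e5
  rw [pm_Nm, ← ha]
  rw [ht] at e5
  linarith [e5, show Qm s Y Y - 2 * (a⁻¹ * pm w Y) * Qm s w Y + (a⁻¹ * pm w Y) ^ 2 * Qm s w w =
    Qm s Y Y + pm w Y * (-(2 * a⁻¹) * Qm s w Y + (a⁻¹) ^ 2 * Qm s w w * pm w Y) by ring]

end Pool.Agent.H53HC
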