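import Pool.Agent.H53HC.Geo3

/-!
# Curvature operators of the second kind which are nonnegative on a hyperplane
-/

set_option autoImplicit false
set_option linter.unusedSectionVars false

namespace Pool.Agent.H53HC

open Finset Matrix Pool.Agent.W666.GB Pool.Agent.W669.HD Pool.Agent.Y519.HB

variable {V : Type} [NormedAddCommGroup V] [InnerProductSpace ℝ V]
variable {ι : Type} [Fintype ι] [DecidableEq ι]

/-! ### Symmetric bilinear forms -/

section sym

variable {W N : V → V → ℝ}

theorem SymF.expand2 (h : SymF W) (x y : V) (t : ℝ) :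
    W (x + t • y) (x + t • y) = W x x + 2 * t * W x y + t ^ 2 * W y y := by
  rw [h.add, h.smul, h.symm x (x + t • y), h.symm y (x + t • y), h.add, h.add, h.smul, h.smul,
    h.symm y x]
  ring

theorem SymF.zero_of_diag (h : SymF W) (h0 : ∀ x, W x x = 0) (x y : V) : W x y = 0 := by
  have h1 := h.expand2 x y 1
  rw [h0, h0, h0] at h1
  linarith

theorem SymF.neg (h : SymF W) : SymF (fun x y => - W x y) where
  add x x' y := by rw [h.add]; ring
  smul t x y := by rw [h.smul]; ring
  symm x y := by rw [h.symm]

theorem SymF.mul (h : SymF W) (c : ℝ) : SymF (fun x y => c * W x y) where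
  add x x' y := by rw [h.add]; ring
  smul t x y := by rw [h.smul]; ring
  symm x y := by rw [h.symm]

theorem nonneg_at_zero {f : ℝ → ℝ} (hf : Continuous f) (h : ∀ t, 0 < t → 0 ≤ f t) : 0 ≤ f 0 := by
  have h1 : Filter.Tendsto f (nhdsWithin 0 (Set.Ioi 0)) (nhds (f 0)) :=
    hf.continuousAt.tendsto.mono_left nhdsWithin_le_nhds
  refine ge_of_tendsto h1 ?_
  filter_upwards [self_mem_nhdsWithin] with t ht
  exact h t ht

/-- At a zero of `W` where `N` is positive, `W` is nonnegative. -/
theorem nonneg_of_prod (hW : SymF W) (hN : SymF N) (hp : ∀ x, 0 ≤ W x x * N x x) {x : V}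
    (hx : W x x = 0) (hn : 0 < N x x) (y : V) : 0 ≤ W y y := by
  have h1 : ∀ t : ℝ, 0 ≤ (2 * t * W x y + t ^ 2 * W y y) *
      (N x x + 2 * t * N x y + t ^ 2 * N y y) := by
    intro t
    have := hp (x + t • y)
    rwa [hW.expand2, hN.expand2, hx, zero_add] at this
  have h2 : 0 ≤ 2 * W x y * N x x := by
    have := nonneg_at_zero (f := fun t => (2 * W x y + t * W y y) *
      (N x x + 2 * t * N x y + t ^ 2 * N y y)) (by fun_prop) (fun t ht => by
        have h3 := h1 t
        rw [show (2 * t * W x y + t ^ 2 * W y y) * (N x x + 2 * t * N x y + t ^ 2 * N y y) =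
          t * ((2 * W x y + t * W y y) * (N x x + 2 * t * N x y + t ^ 2 * N y y)) by ring] at h3
        exact nonneg_of_mul_nonneg_right h3 ht)
    simpa using this
  have h2' : 0 ≤ -(2 * W x y) * N x x := by
    have := nonneg_at_zero (f := fun t => (-(2 * W x y) + t * W y y) *
      (N x x - 2 * t * N x y + t ^ 2 * N y y)) (by fun_prop) (fun t ht => by
        have h3 := h1 (-t)
        rw [show (2 * -t * W x y + (-t) ^ 2 * W y y) * (N x x + 2 * -t * N x y + (-t) ^ 2 * N y y) =
          t * ((-(2 * W x y) + t * W y y) * (N x x - 2 * t * N x y + t ^ 2 * N y y)) by ring] at h3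
        exact nonneg_of_mul_nonneg_right h3 ht)
    simpa using this
  have h3 : W x y = 0 := by
    have h4 : W x y * N x x = 0 := by linarith
    rcases mul_eq_zero.1 h4 with h | h
    · exact h
    · exact absurd h hn.ne'
  have h4 : 0 ≤ W y y * N x x := by
    have := nonneg_at_zero (f := fun t => W y y * (N x x + 2 * t * N x y + t ^ 2 * N y y))
      (by fun_prop) (fun t ht => by
        have h5 := h1 t
        rw [h3, show (2 * t * 0 + t ^ 2 * W y y) * (N x x + 2 * t * N x y + t ^ 2 * N y y) =
          t ^ 2 * (W y y * (N x x + 2 * t * N x y + t ^ 2 * N y y)) by ring] at h5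
        exact nonneg_of_mul_nonneg_right h5 (by positivity))
    simpa using this
  exact nonneg_of_mul_nonneg_left h4 hn

/-- **Divisibility by an indefinite quadratic form.** -/
theorem multiple_of_indefinite {B : V → V → ℝ} (hW : SymF W) (hB : SymF B)
    (h0 : ∀ x, W x x = 0 → B x x = 0) {x₀ y₀ : V} (hx₀ : 0 < W x₀ x₀) (hy₀ : W y₀ y₀ < 0) :
    ∃ c, ∀ x, B x x = c * W x x := by
  have key : ∀ x y, 0 < W x x → W y y < 0 → B x x * W y y = B y y * W x x := by
    intro x y hx hy
    set D := W x y ^ 2 - W x x * W y y with hD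
    have hDp : 0 < D := by nlinarith [sq_nonneg (W x y), mul_pos hx (neg_pos.2 hy)]
    set r := Real.sqrt D with hr
    have hrp : 0 < r := Real.sqrt_pos.2 hDp
    have hr2 : r ^ 2 = D := Real.sq_sqrt hDp.le
    have root : ∀ σ : ℝ, σ ^ 2 = D → B x x + 2 * ((-W x y + σ) / W y y) * B x y +
        ((-W x y + σ) / W y y) ^ 2 * B y y = 0 := by
      intro σ hσ
      rw [← hB.expand2]
      refine h0 _ ?_
      rw [hW.expand2]
      have hne := hy.ne
      field_simp
      rw [hD] at hσ
      linear_combination hσ
    have r1 := root r hr2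
    have r2 := root (-r) (by rw [neg_sq, hr2])
    have hne := hy.ne
    field_simp at r1 r2
    have e1 : (W y y * B x y - B y y * W x y) * r = 0 := by
      have : 4 * ((W y y * B x y - B y y * W x y) * r) = 0 := by linear_combination r1 - r2
      linarith
    have e2 : W y y * B x y - B y y * W x y = 0 := by
      rcases mul_eq_zero.1 e1 with h | h
      · exact h
      · exact absurd h hrp.ne'
    have e3 : W y y * (B x x * W y y - B y y * W x x) = 0 := by
      rw [hD] at hr2
      linear_combination r1 - 2 * (-W x y + r) * e2 - B y y * hr2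
    rcases mul_eq_zero.1 e3 with h | h
    · exact absurd h hne
    · linarith
  refine ⟨B y₀ y₀ / W y₀ y₀, fun x => ?_⟩
  have hne := hy₀.ne
  have hpos : ∀ x, 0 < W x x → B x x = B y₀ y₀ / W y₀ y₀ * W x x := by
    intro x hx
    have := key x y₀ hx hy₀
    field_simp
    linarith
  rcases lt_trichotomy (W x x) 0 with h | h | h
  · have h1 := key x₀ x hx₀ h
    rw [hpos x₀ hx₀] at h1
    have h2 : W x₀ x₀ * (B x x - B y₀ y₀ / W y₀ y₀ * W x x) = 0 := by linear_combination -h1
    rcases mul_eq_zero.1 h2 with h3 | h3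
    · exact absurd h3 hx₀.ne'
    · linarith
  · rw [h0 x h, h, mul_zero]
  · exact hpos x h

theorem kn_smul_smul (W : V → V → ℝ) (a b : ℝ) (x y z t : V) :
    kn (fun x y => a * W x y) (fun x y => b * W x y) x y z t = a * b * kn W W x y z t := by
  simp only [kn]
  ring

theorem causal_zero {S : V → V → V → V → ℝ} (h : ∀ x y z t, S x y z t = 0) : Causal S := by
  have h0 : SymF (fun _ _ : V => (0 : ℝ)) := ⟨fun _ _ _ => by simp, fun _ _ _ => by simp,
    fun _ _ => rfl⟩
  exact causal_real (n := 0) (h := fun k => k.elim0) h0 h0 (fun k => k.elim0) (fun _ => le_rfl)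
    (fun _ => le_rfl) (fun _ => by simp) (fun x y z t => by simp [h, kn])

/-- equality in the causality relation, no sign assumption -/
theorem causal_of_eq {S : V → V → V → V → ℝ} {n : ℕ} {h : Fin n → V → V → ℝ}
    (hW : SymF W) (hN : SymF N) (hh : ∀ k, SymF (h k))
    (hc : ∀ x, ∑ k, h k x x ^ 2 = W x x * N x x)
    (hS : ∀ x y z t, S x y z t = kn W N x y z t - ∑ k, kn (h k) (h k) x y z t) : Causal S := by
  have hp : ∀ x, 0 ≤ W x x * N x x := fun x => by
    rw [← hc]; exact Finset.sum_nonneg fun _ _ => sq_nonneg _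
  have hzero : (∀ x, W x x = 0) → Causal S := by
    intro h0
    refine causal_zero fun x y z t => ?_
    have h1 : ∀ k x y, h k x y = 0 := by
      intro k
      refine (hh k).zero_of_diag fun x => ?_
      have h2 := hc x
      rw [h0, zero_mul] at h2
      have h3 := (Finset.sum_eq_zero_iff_of_nonneg fun k _ => sq_nonneg _).1 h2 k
        (Finset.mem_univ _)
      exact pow_eq_zero_iff (two_ne_zero) |>.1 h3
    rw [hS]
    simp [kn, h1, hW.zero_of_diag h0]
  by_cases hpos : ∀ x, 0 ≤ W x x
  · by_cases hnp : ∀ x, 0 ≤ N x x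
    · exact causal_real hW hN hh hpos hnp (fun x => (hc x).le) hS
    · push Not at hnp
      obtain ⟨x, hx⟩ := hnp
      refine hzero fun y => le_antisymm ?_ (hpos y)
      have hx0 : W x x = 0 := by
        by_contra hne
        have h1 : 0 < W x x := lt_of_le_of_ne (hpos x) (Ne.symm hne)
        exact absurd (hp x) (not_le.2 (mul_neg_of_pos_of_neg h1 hx))
      have h1 := nonneg_of_prod hW.neg hN.neg (fun x => by
        rw [neg_mul_neg]; exact hp x) (x := x) (by rw [hx0, neg_zero]) (neg_pos.2 hx) y
      linarith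
  · push Not at hpos
    obtain ⟨y₀, hy₀⟩ := hpos
    by_cases hneg : ∀ x, W x x ≤ 0
    · by_cases hnp : ∀ x, N x x ≤ 0
      · refine causal_real hW.neg hN.neg hh (fun x => by linarith [hneg x])
          (fun x => by linarith [hnp x]) (fun x => by rw [neg_mul_neg]; exact (hc x).le)
          (fun x y z t => ?_)
        rw [hS]
        simp only [kn]
        ring
      · push Not at hnp
        obtain ⟨x, hx⟩ := hnp
        refine hzero fun y => le_antisymm (hneg y) ?_
        have hx0 : W x x = 0 := by
          by_contra hne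
          have h1 : W x x < 0 := lt_of_le_of_ne (hneg x) hne
          exact absurd (hp x) (not_le.2 (mul_neg_of_neg_of_pos h1 hx))
        exact nonneg_of_prod hW hN hp hx0 hx y
    · push Not at hneg
      obtain ⟨x₀, hx₀⟩ := hneg
      have hN0 : ∀ x, W x x = 0 → N x x = 0 := by
        intro x hx
        rcases lt_trichotomy (N x x) 0 with h | h | h
        · have h1 := nonneg_of_prod hW.neg hN.neg (fun x => by
            rw [neg_mul_neg]; exact hp x) (x := x) (by rw [hx, neg_zero]) (neg_pos.2 h) x₀
          linarith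
        · exact h
        · have h1 := nonneg_of_prod hW hN hp hx h y₀
          linarith
      have hh0 : ∀ k x, W x x = 0 → h k x x = 0 := by
        intro k x hx
        have h2 := hc x
        rw [hx, zero_mul] at h2
        have h3 := (Finset.sum_eq_zero_iff_of_nonneg fun k _ => sq_nonneg _).1 h2 k
          (Finset.mem_univ _)
        exact pow_eq_zero_iff (two_ne_zero) |>.1 h3
      obtain ⟨c, hcN⟩ := multiple_of_indefinite hW hN hN0 hx₀ hy₀
      choose b hb using fun k => multiple_of_indefinite hW (hh k) (hh0 k) hx₀ hy₀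
      have hN' : ∀ x y, N x y = c * W x y := by
        intro x y
        have h1 := hN.expand2 x y 1
        rw [hcN, hcN x, hcN y, hW.expand2] at h1
        linarith
      have hh' : ∀ k x y, h k x y = b k * W x y := by
        intro k x y
        have h1 := (hh k).expand2 x y 1
        rw [hb, hb k x, hb k y, hW.expand2] at h1
        linarith
      have hcc : ∑ k, b k ^ 2 = c := by
        have h1 := hc x₀
        rw [hcN] at h1
        simp only [hb] at h1
        have h2 : ∑ k, (b k * W x₀ x₀) ^ 2 = (∑ k, b k ^ 2) * W x₀ x₀ ^ 2 := by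
          rw [Finset.sum_mul]
          exact Finset.sum_congr rfl fun k _ => by ring
        rw [h2] at h1
        have h3 : (∑ k, b k ^ 2 - c) * W x₀ x₀ ^ 2 = 0 := by linear_combination h1
        rcases mul_eq_zero.1 h3 with h4 | h4
        · linarith
        · exact absurd (pow_eq_zero_iff (two_ne_zero) |>.1 h4) hx₀.ne'
      refine causal_zero fun x y z t => ?_
      rw [hS]
      have h1 : kn W N x y z t = c * kn W W x y z t := by
        simp only [kn, hN']
        ring
      have h2 : ∑ k, kn (h k) (h k) x y z t = (∑ k, b k ^ 2) * kn W W x y z t := by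
        rw [Finset.sum_mul]
        refine Finset.sum_congr rfl fun k _ => ?_
        simp only [kn, hh']
        ring
      rw [h1, h2, hcc]
      ring

end sym

/-! ### The components of a curvature tensor -/

section comp

variable {S : V → V → V → V → ℝ}

theorem rot3 (f : ι → ι → ι → ℝ) : ∑ k, ∑ l, ∑ j, f k l j = ∑ j, ∑ k, ∑ l, f k l j := by
  have h1 : ∀ k, ∑ l, ∑ j, f k l j = ∑ j, ∑ l, f k l j := fun k => Finset.sum_comm
  simp only [h1]
  exact Finset.sum_comm

/-- **A curvature operator of the second kind which is nonnegative on a hyperplane** gives a causal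
tensor. -/
theorem causal_of_second (e : OrthonormalBasis ι ℝ V) (hc : AlgCurv S) (hs : SecondNonneg e S) :
    Causal S := by
  obtain ⟨w', hw'⟩ := hs
  -- symmetric weights
  set w : ι → ι → ℝ := fun i j => (w' i j + w' j i) / 2 with hwd
  have hw : ∀ i j, w i j = w j i := fun i j => by simp only [hwd]; ring
  set s : ι → ι → ι → ι → ℝ := fun i j k l => S (e i) (e k) (e l) (e j) with hsd
  have h34 : ∀ x y z t, S x y t z = - S x y z t := fun x y z t => (AlgCurv.toBi hc).a34 x y z t
  have s1 : ∀ i j k l, s i j k l = s k l i j := by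
    intro i j k l
    simp only [hsd]
    rw [hc.anti (e k) (e i), h34 (e k) (e i) (e j) (e l)]
    ring
  have s2 : ∀ i j k l, s i j k l = s j i l k := by
    intro i j k l
    simp only [hsd]
    rw [← hc.pair (e j) (e l) (e k) (e i)]
    exact s1 i j k l
  have hpos : ∀ h : ι → ι → ℝ, (∀ i j, h i j = h j i) → pm w h = 0 → 0 ≤ Qm s h h := by
    intro h hh h0
    refine hw' h hh ?_
    have e1 : ∑ i, ∑ j, w' j i * h i j = ∑ i, ∑ j, w' i j * h i j := by
      rw [Finset.sum_comm]
      exact Finset.sum_congr rfl fun i _ => Finset.sum_congr rfl fun j _ => by rw [hh j i]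
    have e2 : pm w h = (∑ i, ∑ j, w' i j * h i j + ∑ i, ∑ j, w' j i * h i j) / 2 := by
      rw [pm, ← Finset.sum_add_distrib, Finset.sum_div]
      refine Finset.sum_congr rfl fun i _ => ?_
      rw [← Finset.sum_add_distrib, Finset.sum_div]
      exact Finset.sum_congr rfl fun j _ => by simp only [hwd]; ring
    rw [e1] at e2
    linarith
  have hN : ∀ i j, Nm s w i j = Nm s w j i := by
    intro i j
    have g0 : ∑ a, ∑ b, s a b i j * w a b = ∑ a, ∑ b, s a b j i * w a b := by
      rw [Finset.sum_comm]
      exact Finset.sum_congr rfl fun a _ => Finset.sum_congr rfl fun b _ => by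
        rw [s2 b a i j, hw b a]
    simp only [Nm]
    rw [g0, hw i j]
  obtain ⟨B, hB⟩ := sq_real (J := ι × ι) (fun p q => sS s p.1 p.2 q.1 q.2 +
      (w p.1 p.2 * Nm s w q.1 q.2 + Nm s w p.1 p.2 * w q.1 q.2) / 2) (fun p q => by
      simp only [sS]
      rw [s1 p.1 p.2 q.1 q.2, s1 p.2 p.1 q.1 q.2, s2 q.1 q.2 p.2 p.1]
      ring) (hyper_nonneg s1 s2 hw hpos)
  have hB2 : ∀ i j k l, sS s i j k l + (w i j * Nm s w k l + Nm s w i j * w k l) / 2 =
      ∑ a, B a (i, j) * B a (k, l) := fun i j k l => hB (i, j) (k, l)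
  have hsw : ∀ i j k l, sS s i j k l = sS s j i k l := fun i j k l => by simp only [sS]; ring
  have hsw' : ∀ i j k l, sS s i j k l = sS s i j l k := fun i j k l => by
    simp only [sS]
    rw [s2 i j k l, s2 j i k l]
    ring
  have hBs : ∀ a i j, B a (i, j) = B a (j, i) := by
    have h3 : ∀ i j, ∑ a, (B a (i, j) - B a (j, i)) ^ 2 = 0 := by
      intro i j
      have h4 : ∑ a, (B a (i, j) - B a (j, i)) ^ 2 = ∑ a, B a (i, j) * B a (i, j) -
          2 * ∑ a, B a (i, j) * B a (j, i) + ∑ a, B a (j, i) * B a (j, i) := by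
        rw [Finset.mul_sum, ← Finset.sum_sub_distrib, ← Finset.sum_add_distrib]
        exact Finset.sum_congr rfl fun a _ => by ring
      rw [h4, ← hB2, ← hB2, ← hB2, hsw j i j i, hsw' i j j i, hw j i, hN j i]
      ring
    intro a i j
    have h5 := (Finset.sum_eq_zero_iff_of_nonneg fun a _ => sq_nonneg _).mp (h3 i j) a
      (Finset.mem_univ _)
    have h6 := pow_eq_zero_iff (two_ne_zero) |>.mp h5
    linarith
  -- the forms
  have symF : ∀ ν : ι → ι → ℝ, (∀ i j, ν i j = ν j i) → SymF (bf e ν) := fun ν hν =>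
    ⟨bf_add e ν, bf_smul e ν, fun x y => by
      rw [bf_swap]
      congr 1
      funext i j
      exact hν j i⟩
  have eqv := (Fintype.equivFin (ι × ι)).symm
  have star : ∀ x y z t, (S x z t y + S y z t x) / 2 + (bf e w x y * bf e (Nm s w) z t +
      bf e (Nm s w) x y * bf e w z t) / 2 = ∑ a, bf e (fun i j => B (eqv a) (i, j)) x y *
        bf e (fun i j => B (eqv a) (i, j)) z t := by
    intro x y z t
    have t1 : S x z t y = ∑ i, ∑ j, ∑ k, ∑ l, inner ℝ (e i) x * inner ℝ (e j) y *
        inner ℝ (e k) z * inner ℝ (e l) t * s i j k l := by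
      rw [BiForm.expand e (AlgCurv.toBi hc)]
      refine Finset.sum_congr rfl fun i _ => ?_
      rw [rot3]
      exact Finset.sum_congr rfl fun j _ => Finset.sum_congr rfl fun k _ =>
        Finset.sum_congr rfl fun l _ => by simp only [hsd]; ring
    have t2 : S y z t x = ∑ i, ∑ j, ∑ k, ∑ l, inner ℝ (e i) x * inner ℝ (e j) y *
        inner ℝ (e k) z * inner ℝ (e l) t * s j i k l := by
      rw [BiForm.expand e (AlgCurv.toBi hc)]
      have : ∀ j, ∑ k, ∑ l, ∑ i, inner ℝ (e j) y * inner ℝ (e k) z * inner ℝ (e l) t *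
          inner ℝ (e i) x * S (e j) (e k) (e l) (e i) = ∑ i, ∑ k, ∑ l, inner ℝ (e j) y *
          inner ℝ (e k) z * inner ℝ (e l) t * inner ℝ (e i) x * S (e j) (e k) (e l) (e i) :=
        fun j => rot3 _
      simp only [this]
      rw [Finset.sum_comm]
      exact Finset.sum_congr rfl fun i _ => Finset.sum_congr rfl fun j _ =>
        Finset.sum_congr rfl fun k _ => Finset.sum_congr rfl fun l _ => by simp only [hsd]; ring
    have t3 : ∑ a, bf e (fun i j => B (eqv a) (i, j)) x y *
        bf e (fun i j => B (eqv a) (i, j)) z t = ∑ i, ∑ j, ∑ k, ∑ l, inner ℝ (e i) x *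
        inner ℝ (e j) y * inner ℝ (e k) z * inner ℝ (e l) t *
        (sS s i j k l + (w i j * Nm s w k l + Nm s w i j * w k l) / 2) := by
      rw [Equiv.sum_comp eqv (fun a => bf e (fun i j => B a (i, j)) x y *
        bf e (fun i j => B a (i, j)) z t)]
      simp only [bf_mul, hB2]
      rw [Finset.sum_comm]
      refine Finset.sum_congr rfl fun i _ => ?_
      rw [Finset.sum_comm]
      refine Finset.sum_congr rfl fun j _ => ?_
      rw [Finset.sum_comm]
      refine Finset.sum_congr rfl fun k _ => ?_
      rw [Finset.sum_comm]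
      refine Finset.sum_congr rfl fun l _ => ?_
      rw [Finset.mul_sum]
    rw [t1, t2, t3, bf_mul, bf_mul]
    simp only [← Finset.sum_add_distrib, Finset.sum_div]
    exact Finset.sum_congr rfl fun i _ => Finset.sum_congr rfl fun j _ =>
      Finset.sum_congr rfl fun k _ => Finset.sum_congr rfl fun l _ => by simp only [sS]; ring
  refine causal_of_eq (n := Fintype.card (ι × ι)) (W := fun x y => (1 / 3) * bf e w x y)
    (N := bf e (Nm s w))
    (h := fun a x y => Real.sqrt (1 / 3) * bf e (fun i j => B (eqv a) (i, j)) x y)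
    ((symF w hw).mul _) (symF _ hN) (fun a => (symF _ fun i j => hBs _ i j).mul _) ?_ ?_
  · intro x
    have h1 := star x x x x
    have h2 : S x x x x = 0 := by
      have := hc.anti x x x x
      linarith
    rw [h2] at h1
    have h3 : ∑ a, (Real.sqrt (1 / 3) * bf e (fun i j => B (eqv a) (i, j)) x x) ^ 2 =
        (1 / 3) * ∑ a, bf e (fun i j => B (eqv a) (i, j)) x x *
          bf e (fun i j => B (eqv a) (i, j)) x x := by
      rw [Finset.mul_sum]
      refine Finset.sum_congr rfl fun a _ => ?_
      rw [mul_pow, Real.sq_sqrt (by norm_num)]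
      ring
    rw [h3, ← h1]
    ring
  · intro x y z t
    have h1 := star x z y t
    have h2 := star x t y z
    have hb := hc.bianchi x y z t
    have e1 : S x y t z = - S x y z t := h34 _ _ _ _
    have e2 : S z y t x = S y z x t := by
      rw [hc.anti y z, h34 y z x t]; ring
    have e3 : S t y z x = - S z x y t := by
      rw [← hc.pair t y z x, h34 z x y t]
    have h3 : ∑ a, kn (fun x y => Real.sqrt (1 / 3) * bf e (fun i j => B (eqv a) (i, j)) x y)
        (fun x y => Real.sqrt (1 / 3) * bf e (fun i j => B (eqv a) (i, j)) x y) x y z t =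
        (2 / 3) * (∑ a, bf e (fun i j => B (eqv a) (i, j)) x z *
          bf e (fun i j => B (eqv a) (i, j)) y t - ∑ a, bf e (fun i j => B (eqv a) (i, j)) x t *
          bf e (fun i j => B (eqv a) (i, j)) y z) := by
      rw [← Finset.sum_sub_distrib, Finset.mul_sum]
      refine Finset.sum_congr rfl fun a _ => ?_
      rw [kn_smul_smul, Real.mul_self_sqrt (by norm_num)]
      simp only [kn]
      ring
    rw [h3, ← h1, ← h2, e1, e2, e3]
    simp only [kn]
    linarith

end comp

end Pool.Agent.H53HC
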