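import Pool.Agent.H53HC.Geo4
import Pool.Agent.N565.LZ.Fin

/-!
# Submanifolds, sums, integrated forms
-/

set_option autoImplicit false
set_option linter.unusedSectionVars false

namespace Pool.Agent.H53HC

open Finset Matrix Pool.Agent.W666.GB Pool.Agent.W669.HD Pool.Agent.Y519.HB
open Pool.Agent.N565.LZ (SecForm)

variable {V : Type} [NormedAddCommGroup V] [InnerProductSpace ℝ V]

theorem CauSkew.zero : CauSkew (fun _ _ _ _ : V => (0 : ℝ)) :=
  (causal_zero fun _ _ _ _ => rfl).cauSkew

theorem CauSkew.sum {r : ℕ} {S : Fin r → V → V → V → V → ℝ} (h : ∀ i, CauSkew (S i)) :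
    CauSkew (fun x y z t => ∑ i, S i x y z t) := by
  induction r with
  | zero => simpa using CauSkew.zero (V := V)
  | succ r ih =>
    have h1 := (h 0).add (ih (S := fun i => S i.succ) fun i => h i.succ)
    simpa only [Fin.sum_univ_succ] using h1

theorem gSymF : SymF (fun x y : V => (inner ℝ x y : ℝ)) :=
  ⟨fun x x' y => inner_add_left _ _ _, fun t x y => by rw [inner_smul_left, conj_trivial],
    fun x y => real_inner_comm _ _⟩

/-- **The Gauss equation.** -/
theorem causal_gauss {W : Type} [NormedAddCommGroup W] [InnerProductSpace ℝ W]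
    [FiniteDimensional ℝ W] {β : V → V → W} (hs : SecForm β) {A N : V → V → ℝ} (hA : SymF A)
    (hN : SymF N) (pA : ∀ x, 0 ≤ A x x) (pN : ∀ x, 0 ≤ N x x)
    (hβ : ∀ x, ‖β x x‖ ^ 2 ≤ A x x * N x x) :
    Causal (fun x y z t => (1 / 2) * kn A N x y z t -
      (inner ℝ (β x z) (β y t) - inner ℝ (β x t) (β y z))) := by
  set f := stdOrthonormalBasis ℝ W with hf
  have hpar : ∀ u v : W, ∑ k, inner ℝ (f k) u * inner ℝ (f k) v = inner ℝ u v := by
    intro u v
    rw [← f.sum_inner_mul_inner u v]
    refine Finset.sum_congr rfl fun k _ => ?_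
    rw [real_inner_comm u (f k)]
  refine causal_real (A := fun x y => (1 / 2) * A x y) (N := N)
    (h := fun k x y => Real.sqrt (1 / 2) * inner ℝ (f k) (β x y)) (hA.mul _) hN
    (fun k => SymF.mul ⟨fun x x' y => by rw [hs.add, inner_add_right],
      fun t x y => by rw [hs.smul, inner_smul_right], fun x y => by rw [hs.symm]⟩ _)
    (fun x => by have := pA x; positivity) pN (fun x => ?_) (fun x y z t => ?_)
  · have h1 : ∑ k, (Real.sqrt (1 / 2) * inner ℝ (f k) (β x x)) ^ 2 = (1 / 2) * ‖β x x‖ ^ 2 := by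
      rw [← real_inner_self_eq_norm_sq, ← hpar, Finset.mul_sum]
      refine Finset.sum_congr rfl fun k _ => ?_
      rw [mul_pow, Real.sq_sqrt (by norm_num)]
      ring
    rw [h1]
    have := hβ x
    nlinarith
  · have h2 : ∑ k, kn (fun x y => Real.sqrt (1 / 2) * inner ℝ (f k) (β x y))
        (fun x y => Real.sqrt (1 / 2) * inner ℝ (f k) (β x y)) x y z t =
        inner ℝ (β x z) (β y t) - inner ℝ (β x t) (β y z) := by
      rw [← hpar, ← hpar, ← Finset.sum_sub_distrib]
      refine Finset.sum_congr rfl fun k _ => ?_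
      rw [kn_smul_smul (fun x y => inner ℝ (f k) (β x y)), Real.mul_self_sqrt (by norm_num)]
      simp only [kn]
      ring
    rw [h2]
    simp only [kn]
    ring

theorem gaussB_curv {W : Type} [NormedAddCommGroup W] [InnerProductSpace ℝ W]
    {β : V → V → W} (hs : SecForm β) :
    AlgCurv (fun x y z t => inner ℝ (β x z) (β y t) - inner ℝ (β x t) (β y z)) where
  add x x' y z w := by rw [hs.add, hs.add, inner_add_left, inner_add_left]; ring
  smul t x y z w := by rw [hs.smul, hs.smul, inner_smul_left, inner_smul_left, conj_trivial]; ring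
  anti x y z w := by rw [real_inner_comm (β y z), real_inner_comm (β x z)]; ring
  pair x y z w := by
    rw [hs.symm z x, hs.symm w y, hs.symm z y, hs.symm w x, real_inner_comm (β y z)]
  bianchi x y z w := by
    rw [hs.symm y x, hs.symm z x, hs.symm z y, real_inner_comm (β y w) (β x z),
      real_inner_comm (β z w) (β x y)]
    rw [real_inner_comm (β x w) (β y z)]
    ring

/-- **Submanifolds.** -/
theorem sub_bound {m : ℕ} {W : Type} [NormedAddCommGroup W] [InnerProductSpace ℝ W]
    [FiniteDimensional ℝ W] (e : OrthonormalBasis (Fin m × Bool) ℝ V) {β : V → V → W}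
    (hs : SecForm β) {S : V → V → V → V → ℝ} (hS : AlgCurv S) (hC : CauSkew S) {c δ : ℝ}
    (hδ : 0 ≤ δ) (hc : δ ≤ c) (hβ : ∀ x, ‖β x x‖ ^ 2 ≤ (c - δ) * ‖x‖ ^ 4) :
    roundGB m δ ≤ (-1) ^ m * gbc e (fun x y z t => - S x y z t - c * unitT x y z t +
      (inner ℝ (β x z) (β y t) - inner ℝ (β x t) (β y z))) := by
  have hsq : Real.sqrt (c - δ) * Real.sqrt (c - δ) = c - δ := Real.mul_self_sqrt (by linarith)
  have h1 := causal_gauss hs (A := fun x y => Real.sqrt (c - δ) * inner ℝ x y)
    (N := fun x y => Real.sqrt (c - δ) * inner ℝ x y) (gSymF.mul _) (gSymF.mul _)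
    (fun x => by rw [real_inner_self_eq_norm_sq]; positivity)
    (fun x => by rw [real_inner_self_eq_norm_sq]; positivity) (fun x => by
      rw [real_inner_self_eq_norm_sq, show Real.sqrt (c - δ) * ‖x‖ ^ 2 *
        (Real.sqrt (c - δ) * ‖x‖ ^ 2) = (Real.sqrt (c - δ) * Real.sqrt (c - δ)) * ‖x‖ ^ 4 by ring,
        hsq]
      exact hβ x)
  refine (hC.add h1.cauSkew).bound ?_ e hδ ?_
  · have h2 := add_curv (sub_curv (sub_curv (S := S) (unit_curv (V := V) 0) hS)
      (unit_curv (V := V) c)) (gaussB_curv hs)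
    have h3 : (fun x y z t => - S x y z t - c * unitT x y z t +
        (inner ℝ (β x z) (β y t) - inner ℝ (β x t) (β y z))) =
        addT (fun x y z t => 0 * unitT x y z t - S x y z t - c * unitT x y z t)
          (fun x y z t => inner ℝ (β x z) (β y t) - inner ℝ (β x t) (β y z)) := by
      funext x y z t
      simp only [addT]
      ring
    rw [h3]
    exact h2
  · intro x y z t
    have h4 : (1 / 2) * kn (fun x y : V => Real.sqrt (c - δ) * inner ℝ x y)
        (fun x y => Real.sqrt (c - δ) * inner ℝ x y) x y z t = (c - δ) * unitT x y z t := by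
      rw [kn_smul_smul (fun x y => inner ℝ x y), hsq]
      simp only [kn, unitT]
      ring
    rw [h4]
    ring

/-- Integrated form. -/
theorem field_sign {m : ℕ} {M : Type} [MeasurableSpace M] (μ : MeasureTheory.Measure M)
    (K : CurvField m M)
    (h : ∀ p, ∃ S, CauSkew S ∧ ∀ x y z t, K.R p x y z t = - S x y z t) :
    0 ≤ (-1) ^ m * ∫ p, K.gb p ∂μ := by
  rw [← MeasureTheory.integral_const_mul]
  refine MeasureTheory.integral_nonneg fun p => ?_
  obtain ⟨S, hS, hR⟩ := h p
  exact hS.sign (K.e p) hR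

/-- Integrated form with a constant curvature part. -/
theorem field_bound {m : ℕ} {M : Type} [MeasurableSpace M] (μ : MeasureTheory.Measure M)
    [MeasureTheory.IsFiniteMeasure μ] (K : CurvField m M) (hi : MeasureTheory.Integrable K.gb μ)
    {δ : ℝ} (hδ : 0 ≤ δ)
    (h : ∀ p, ∃ S, CauSkew S ∧ ∀ x y z t, K.R p x y z t = - S x y z t - δ * unitT x y z t) :
    roundGB m δ * μ.real Set.univ ≤ (-1) ^ m * ∫ p, K.gb p ∂μ := by
  rw [← MeasureTheory.integral_const_mul]
  have h1 : roundGB m δ * μ.real Set.univ = ∫ _, roundGB m δ ∂μ := by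
    rw [MeasureTheory.integral_const, smul_eq_mul, mul_comm]
  rw [h1]
  refine MeasureTheory.integral_mono (MeasureTheory.integrable_const _) (hi.const_mul _) fun p => ?_
  obtain ⟨S, hS, hR⟩ := h p
  exact hS.bound (K.curv p) (K.e p) hδ hR

end Pool.Agent.H53HC
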