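import Pool.Agent.H53HC.Cases

/-!
# The first exit argument
-/

set_option autoImplicit false
set_option linter.unusedSectionVars false

namespace Pool.Agent.H53HC

open Filter Topology Matrix Finset

variable {ι : Type*} [Fintype ι] [DecidableEq ι]

theorem eval_cv_line (Y Z : Matrix ι ι ℂ) (t z : ℂ) (F : PR ι) :
    (cv (pt Y Z t) (pt 0 1 0) 0 F).eval z = MvPolynomial.eval (pt Y (Z + z • 1) t) F := by
  rw [eval_cv, smul_zero, add_zero, pt_smul, smul_zero, pt_add, add_zero, mul_zero, add_zero]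

theorem cv_line_derivative (Y Z : Matrix ι ι ℂ) (t : ℂ) (F : PR ι) :
    Polynomial.derivative (cv (pt Y Z t) (pt 0 1 0) 0 F) =
      cv (pt Y Z t) (pt 0 1 0) 0 (dz 1 F) := by
  rw [cv_derivative, D_zero', dz_apply]
  simp [cv]

/-- the Harnack property of a polynomial and its degrees, along the lines `Z + z` -/
def HP (Y : Matrix ι ι ℂ) (t₀ : ℝ) (d : ℕ) (F : PR ι) : Prop :=
  (∀ (Z : Matrix ι ι ℂ) (t : ℂ), (cv (pt Y Z t) (pt 0 1 0) 0 F).natDegree ≤ d) ∧
  ∀ t : ℝ, 0 ≤ t → t ≤ t₀ → ∀ Z : Matrix ι ι ℂ, Acc 0 Z →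
    HB d (fun z => MvPolynomial.eval (pt Y (Z + z • 1) t) F)

theorem HP.dz {Y : Matrix ι ι ℂ} {t₀ : ℝ} {d : ℕ} {F : PR ι} (h : HP Y t₀ d F) :
    HP Y t₀ d (dz 1 F) := by
  refine ⟨fun Z t => ?_, fun t h0 h1 Z hZ => ?_⟩
  · rw [← cv_line_derivative]
    exact (Polynomial.natDegree_derivative_le _).trans ((Nat.sub_le _ _).trans (h.1 Z t))
  · have h2 := (h.2 t h0 h1 Z hZ).congr (fun z => (eval_cv_line Y Z t z F).symm)
    have h3 := h2.derivative (h.1 Z t)
    refine h3.congr fun z => ?_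
    rw [cv_line_derivative, eval_cv_line]

theorem rel_p0 {Y Z : Matrix ι ι ℂ} (hu : IsUnit (1 + Y * Z).det) :
    Rel (pt Y Z 0) (pt ((1 + Y * Z)⁻¹ * Y) 0 0) (1 + Y * Z).det (p0 ι) (p0 ι) := by
  intro W t
  rw [pt_add, pt_add, eval_p0, eval_p0, add_zero, add_zero, zero_add, ← Matrix.det_mul]
  congr 1
  rw [mul_add, mul_add, mul_one, ← add_assoc, Matrix.mul_assoc (1 + Y * Z)⁻¹,
    ← Matrix.mul_assoc (1 + Y * Z), Matrix.mul_nonsing_inv _ hu, Matrix.one_mul]

theorem eval_cocycle {T : Module.End ℂ (PR ι)} (hT : T ∈ Az ι) (K : ℕ) {Y Z : Matrix ι ι ℂ}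
    (hu : IsUnit (1 + Y * Z).det) (t : ℂ) :
    MvPolynomial.eval (pt Y Z t) (flow T K (p0 ι)) = (1 + Y * Z).det *
      MvPolynomial.eval (pt ((1 + Y * Z)⁻¹ * Y) 0 t) (flow T K (p0 ι)) := by
  have h := (rel_p0 hu).flow hT K rfl 0 t
  rwa [pt_add, pt_add, add_zero, add_zero, zero_add, add_zero, add_zero] at h

/-- at `Y = 0` the flow is constant -/
theorem eval_flow_Y_zero {T : Module.End ℂ (PR ι)} (hT0 : ∀ F : PR ι,
    (∃ c : ℂ, ∀ (Z : Matrix ι ι ℂ) (t : ℂ), MvPolynomial.eval (pt 0 Z t) F = c) →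
      ∀ (Z : Matrix ι ι ℂ) (t : ℂ), MvPolynomial.eval (pt 0 Z t) (T F) = 0) (K : ℕ)
    (Z : Matrix ι ι ℂ) (t : ℂ) :
    MvPolynomial.eval (pt 0 Z t) (flow T K (p0 ι)) = 1 := by
  have h1 : ∀ k : ℕ, ∀ (Z : Matrix ι ι ℂ) (t : ℂ),
      MvPolynomial.eval (pt 0 Z t) ((T ^ k) (p0 ι)) = if k = 0 then 1 else 0 := by
    intro k
    induction k with
    | zero =>
      intro Z t
      rw [pow_zero, Module.End.one_apply, eval_p0]
      simp
    | succ k ih =>
      intro Z t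
      rw [pow_succ', Module.End.mul_apply]
      rw [hT0 _ ⟨_, ih⟩]
      simp
  rw [eval_flow]
  simp only [h1]
  simp

theorem const_dz {F : PR ι} (h : ∃ c : ℂ, ∀ (Z : Matrix ι ι ℂ) (t : ℂ),
    MvPolynomial.eval (pt 0 Z t) F = c) (x Z : Matrix ι ι ℂ) (t : ℂ) :
    MvPolynomial.eval (pt 0 Z t) (dz x F) = 0 := by
  obtain ⟨c, hc⟩ := h
  have h1 : cv (pt 0 Z t) (pt 0 x 0) 0 F = Polynomial.C c := by
    refine Polynomial.funext fun τ => ?_
    rw [eval_cv, smul_zero, add_zero, pt_smul, smul_zero, pt_add, add_zero, Polynomial.eval_C]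
    exact hc _ _
  have h2 := cv_coeff_one (pt 0 Z t) (pt 0 x 0) 0 F
  rw [h1, Polynomial.coeff_C] at h2
  exact h2.symm

theorem Le_const (C : ι → ι → ι → ι → ℝ) (δ ε : ℝ) (F : PR ι)
    (h : ∃ c : ℂ, ∀ (Z : Matrix ι ι ℂ) (t : ℂ), MvPolynomial.eval (pt 0 Z t) F = c)
    (Z : Matrix ι ι ℂ) (t : ℂ) : MvPolynomial.eval (pt 0 Z t) (Le C δ ε F) = 0 := by
  have h1 : ∀ x y : Matrix ι ι ℂ, MvPolynomial.eval (pt 0 Z t) (dz x (dz y F)) = 0 :=
    fun x y => const_dz ⟨0, fun Z t => const_dz h y Z t⟩ x Z t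
  rw [Le_apply, Lop_apply]
  simp only [map_add, map_sum, MvPolynomial.smul_eval, h1, const_dz h, mul_zero,
    Finset.sum_const_zero, add_zero]

/-- **The flow has no zeros.** -/
theorem no_zero {C : ι → ι → ι → ι → ℝ} (hC : TraceCone C) {δ ε : ℝ} (hδ : 0 < δ) (hε : 0 < ε)
    {K : ℕ} (hK : (p0 ι).totalDegree ≤ K) (t : ℝ) (ht : 0 ≤ t) (Y : Matrix ι ι ℂ)
    (hY : Y ∈ YY ε) : MvPolynomial.eval (pt Y 0 t) (flow (Le C δ ε) K (p0 ι)) ≠ 0 := by
  intro hzero
  set E := flow (Le C δ ε) K (p0 ι) with hE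
  have hT := Le_mem C δ ε
  have hnil : (Le C δ ε ^ (K + 1)) (p0 ι) = 0 :=
    Le_pow_zero C δ ε (K + 1) _ ((fil_totalDegree (p0 ι)).mono (by omega))
  have hpde : dt E = Le C δ ε E := dt_flow hT dt_p0 hnil
  -- the first exit
  set S : Set (ℝ × Matrix ι ι ℂ) :=
    (Set.Icc 0 t ×ˢ YY ε) ∩ {x | MvPolynomial.eval (pt x.2 0 x.1) E = 0} with hS
  have hcont : Continuous fun x : ℝ × Matrix ι ι ℂ => MvPolynomial.eval (pt x.2 0 x.1) E :=
    (MvPolynomial.continuous_eval E).comp (continuous_pt continuous_snd continuous_const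
      (Complex.continuous_ofReal.comp continuous_fst))
  have hcomp : IsCompact S :=
    (isCompact_Icc.prod (YY.isCompact hε)).inter_right (isClosed_eq hcont continuous_const)
  have hne : S.Nonempty := ⟨(t, Y), ⟨⟨⟨ht, le_rfl⟩, hY⟩, hzero⟩⟩
  obtain ⟨⟨t₀, Y₀⟩, ⟨⟨⟨ht0, ht0t⟩, hY0⟩, hz0⟩, hmin⟩ :=
    hcomp.exists_isMinOn hne continuous_fst.continuousOn
  simp only at ht0 ht0t hY0 hz0 hmin
  replace hz0 : MvPolynomial.eval (pt Y₀ 0 t₀) E = 0 := hz0
  have hlt : ∀ s : ℝ, 0 ≤ s → s < t₀ → ∀ Y' ∈ YY ε, MvPolynomial.eval (pt Y' 0 s) E ≠ 0 := by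
    intro s hs0 hs Y' hY' h0
    have h1 : ((s, Y') : ℝ × Matrix ι ι ℂ) ∈ S := ⟨⟨⟨hs0, hs.le.trans ht0t⟩, hY'⟩, h0⟩
    have h2 := hmin h1
    simp only [Set.mem_ofPred_eq] at h2
    exact absurd h2 (not_le.2 hs)
  have ht00 : 0 < t₀ := by
    rcases ht0.lt_or_eq with h | h
    · exact h
    · exfalso
      rw [← h, Complex.ofReal_zero, hE, eval_flow_zero, eval_p0] at hz0
      simp at hz0
  -- the Harnack property before the exit
  set d := E.totalDegree with hd
  have hb1 : ∀ s : ℝ, 0 ≤ s → s < t₀ → ∀ Z : Matrix ι ι ℂ, Acc 0 Z →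
      HB d (fun z => MvPolynomial.eval (pt Y₀ (Z + z • 1) s) E) := by
    intro s hs0 hs Z hZ
    refine (HB.of_roots (q := cv (pt Y₀ Z s) (pt 0 1 0) 0 E) (cv_natDegree _ _ _)
      fun z hz => ?_).congr fun z => eval_cv_line Y₀ Z s z E
    rw [eval_cv_line]
    have hZ' := hZ.add_scalar hz.le
    have hu := YY.isUnit hε hY0 hZ'
    rw [hE, eval_cocycle hT K hu]
    refine mul_ne_zero hu.ne_zero (hlt s hs0 hs _ ?_)
    have := YY.trans hε le_rfl hY0 hZ'
    rwa [add_zero] at this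
  have hP : HP Y₀ t₀ d E := by
    refine ⟨fun Z s => cv_natDegree _ _ _, fun s hs0 hs Z hZ => ?_⟩
    rcases hs.lt_or_eq with h | h
    · exact hb1 s hs0 h Z hZ
    · subst h
      have h1 : ∀ᶠ x : ℝ in 𝓝[<] s, HB d (fun z => MvPolynomial.eval (pt Y₀ (Z + z • 1) x) E) := by
        have : ∀ᶠ x : ℝ in 𝓝[<] s, 0 < x :=
          (lt_mem_nhds ht00).filter_mono nhdsWithin_le_nhds
        filter_upwards [this, self_mem_nhdsWithin] with x hx0 hx
        exact hb1 x hx0.le hx Z hZ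
      refine HB.lim h1 fun z => ?_
      have : Continuous fun x : ℝ => MvPolynomial.eval (pt Y₀ (Z + z • 1) x) E :=
        (MvPolynomial.continuous_eval E).comp (continuous_pt continuous_const continuous_const
          Complex.continuous_ofReal)
      exact (this.tendsto s).mono_left nhdsWithin_le_nhds
  -- the derivatives in the direction of the identity
  set G : ℕ → PR ι := fun k => (dz (1 : Matrix ι ι ℂ) ^ k) E with hG
  have hGs : ∀ k, G (k + 1) = dz 1 (G k) := by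
    intro k
    simp only [hG]
    rw [pow_succ', Module.End.mul_apply]
  have hGP : ∀ k, HP Y₀ t₀ d (G k) := by
    intro k
    induction k with
    | zero => exact hP
    | succ k ih =>
      rw [hGs]
      exact ih.dz
  have hGpde : ∀ k, dt (G k) = Le C δ ε (G k) := by
    intro k
    simp only [hG]
    have hm : (dz (1 : Matrix ι ι ℂ)) ^ k ∈ Az ι := Subalgebra.pow_mem _ (dz_mem _) k
    rw [Az_dt hm, hpde, ← Module.End.mul_apply, ← Module.End.mul_apply, Az_comm' hm hT]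
  have hGr1 : ∀ k, ∀ u : ι → ℂ,
      dz (vecMulVec u (star u)) (dz (vecMulVec u (star u)) (G k)) = 0 := by
    intro k u
    simp only [hG]
    have hm : (dz (1 : Matrix ι ι ℂ)) ^ k ∈ Az ι := Subalgebra.pow_mem _ (dz_mem _) k
    have hr : dz (vecMulVec u (star u)) * dz (vecMulVec u (star u)) ∈ Az ι :=
      Subalgebra.mul_mem _ (dz_mem _) (dz_mem _)
    rw [← Module.End.mul_apply, ← Module.End.mul_apply, Az_comm' hr hm, Module.End.mul_apply,
      hE, flow_comm hT hr K _ (by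
        rw [Module.End.mul_apply]
        exact dz_dz_rank_one _ _), map_zero]
  -- some derivative is not zero
  have hex : ∃ k, MvPolynomial.eval (pt Y₀ 0 t₀) (G k) ≠ 0 := by
    by_contra hn
    push Not at hn
    have h1 : ∀ k, (Polynomial.derivative^[k] (cv (pt Y₀ 0 t₀) (pt 0 1 0) 0 E)) =
        cv (pt Y₀ 0 t₀) (pt 0 1 0) 0 (G k) := by
      intro k
      induction k with
      | zero => rfl
      | succ k ih =>
        rw [Function.iterate_succ_apply', ih, cv_line_derivative, hGs]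
    have h2 : cv (pt Y₀ 0 t₀) (pt 0 1 0) 0 E = 0 := by
      ext k
      have h3 := Polynomial.coeff_iterate_derivative (k := k)
        (cv (pt Y₀ 0 t₀) (pt 0 1 0) 0 E) 0
      rw [h1, cv_coeff_zero, hn, zero_add, Nat.descFactorial_self] at h3
      rw [Polynomial.coeff_zero]
      have h4 : (k.factorial : ℂ) ≠ 0 := Nat.cast_ne_zero.2 (Nat.factorial_ne_zero k)
      rw [nsmul_eq_mul] at h3
      exact (mul_eq_zero.1 h3.symm).resolve_left h4
    -- for large real `z` the value is not zero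
    have h3 : ∀ z : ℝ, 0 < z → MvPolynomial.eval
        (pt ((1 + Y₀ * ((z : ℂ) • 1))⁻¹ * Y₀) 0 t₀) E = 0 := by
      intro z hz
      have hZ : Acc 0 ((z : ℂ) • (1 : Matrix ι ι ℂ)) :=
        (Acc.scalar (z : ℂ)).mono (by rw [Complex.ofReal_re]; exact hz.le)
      have hu := YY.isUnit hε hY0 hZ
      have h4 := eval_cv_line Y₀ 0 t₀ z E
      rw [h2, Polynomial.eval_zero, zero_add, hE, eval_cocycle hT K hu] at h4
      exact (mul_eq_zero.1 h4.symm).resolve_left hu.ne_zero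
    have h4 : Tendsto (fun z : ℝ => (1 + Y₀ * ((z : ℂ) • 1))⁻¹ * Y₀) atTop (𝓝 0) := by
      refine tendsto_pi_nhds.2 fun i => tendsto_pi_nhds.2 fun j => ?_
      refine tendsto_zero_iff_norm_tendsto_zero.2 ?_
      have h5 : Tendsto (fun z : ℝ => 1 / (ε + z)) atTop (𝓝 0) := by
        have : Tendsto (fun z : ℝ => ε + z) atTop atTop := tendsto_atTop_add_const_left _ _ tendsto_id
        simp only [one_div]
        exact this.inv_tendsto_atTop
      refine squeeze_zero' (Eventually.of_forall fun z => norm_nonneg _) ?_ h5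
      filter_upwards [eventually_gt_atTop (0 : ℝ)] with z hz
      have hZ : Acc z ((z : ℂ) • (1 : Matrix ι ι ℂ)) := by
        have := Acc.scalar (ι := ι) (z : ℂ)
        rwa [Complex.ofReal_re] at this
      exact YY.norm_le (by positivity) (YY.trans hε hz.le hY0 hZ) i j
    have h5 : Continuous fun Y' : Matrix ι ι ℂ => MvPolynomial.eval (pt Y' 0 t₀) E :=
      (MvPolynomial.continuous_eval E).comp (continuous_pt continuous_id continuous_const
        continuous_const)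
    have h6 := (h5.tendsto 0).comp h4
    rw [hE, eval_flow_Y_zero (Le_const C δ ε)] at h6
    have h7 : Tendsto (fun z : ℝ => (0 : ℂ)) atTop (𝓝 1) := by
      refine h6.congr' ?_
      filter_upwards [eventually_gt_atTop (0 : ℝ)] with z hz
      exact h3 z hz
    exact zero_ne_one (tendsto_nhds_unique tendsto_const_nhds h7)
  classical
  set μ := Nat.find hex with hμ
  have hμ1 : MvPolynomial.eval (pt Y₀ 0 t₀) (G μ) ≠ 0 := Nat.find_spec hex
  have hμ2 : ∀ k, k < μ → MvPolynomial.eval (pt Y₀ 0 t₀) (G k) = 0 := by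
    intro k hk
    have := Nat.find_min hex hk
    push Not at this
    exact this
  have hhyp : ∀ k, k < μ → Hyp C δ ε Y₀ t₀ d (G k) := fun k hk =>
    ⟨(hGP k).2, hGpde k, hGr1 k, hμ2 k hk⟩
  rcases Nat.lt_or_ge μ 2 with h | h
  · interval_cases μ
    · exact hμ1 hz0
    · exact (hhyp 0 (by norm_num)).case1 hC hδ hε ht00 (by rw [← hGs]; exact hμ1)
  · refine (hhyp (μ - 2) (by omega)).case2 hC hδ ht00 ?_ ?_
    · rw [← hGs]
      exact hμ2 _ (by omega)
    · rw [← hGs, ← hGs]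
      have : μ - 2 + 1 + 1 = μ := by omega
      rw [this]
      exact hμ1

end Pool.Agent.H53HC
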