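import Pool.Agent.H53HC.Ring

/-!
# The second order operator of a `4`-tensor
-/

set_option autoImplicit false
set_option linter.unusedSectionVars false

namespace Pool.Agent.H53HC

open Filter Topology Matrix Finset

variable {ι : Type*} [Fintype ι] [DecidableEq ι]

/-- the operator `∑ C_{ijkl} ∂_{ij} ∂_{kl}` -/
noncomputable def Lop (C : ι → ι → ι → ι → ℝ) : Module.End ℂ (PR ι) :=
  ∑ i, ∑ j, ∑ k, ∑ l, (C i j k l : ℂ) • (dz (single i j 1) * dz (single k l 1))

/-- the operator `∑ C_{ijkl} ∂_{ij} ∂_{kl} + δ (tr ∂)² + ε tr ∂` -/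
noncomputable def Le (C : ι → ι → ι → ι → ℝ) (δ ε : ℝ) : Module.End ℂ (PR ι) :=
  Lop C + (δ : ℂ) • (dz 1 * dz 1) + (ε : ℂ) • dz 1

theorem Lop_mem (C : ι → ι → ι → ι → ℝ) : Lop C ∈ Az ι :=
  Subalgebra.sum_mem _ fun _ _ => Subalgebra.sum_mem _ fun _ _ => Subalgebra.sum_mem _ fun _ _ =>
    Subalgebra.sum_mem _ fun _ _ => Subalgebra.smul_mem _
      (Subalgebra.mul_mem _ (dz_mem _) (dz_mem _)) _

theorem Le_mem (C : ι → ι → ι → ι → ℝ) (δ ε : ℝ) : Le C δ ε ∈ Az ι :=
  Subalgebra.add_mem _ (Subalgebra.add_mem _ (Lop_mem C) (Subalgebra.smul_mem _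
    (Subalgebra.mul_mem _ (dz_mem _) (dz_mem _)) _)) (Subalgebra.smul_mem _ (dz_mem _) _)

theorem Lop_apply (C : ι → ι → ι → ι → ℝ) (p : PR ι) : Lop C p =
    ∑ i, ∑ j, ∑ k, ∑ l, (C i j k l : ℂ) • dz (single i j 1) (dz (single k l 1) p) := by
  simp only [Lop, LinearMap.sum_apply, LinearMap.smul_apply, Module.End.mul_apply]

theorem Le_apply (C : ι → ι → ι → ι → ℝ) (δ ε : ℝ) (p : PR ι) : Le C δ ε p =
    Lop C p + (δ : ℂ) • dz 1 (dz 1 p) + (ε : ℂ) • dz 1 p := by
  simp only [Le, LinearMap.add_apply, LinearMap.smul_apply, Module.End.mul_apply]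

theorem Fil.Le {N : ℕ} {p : PR ι} (h : Fil (N + 1) p) (C : ι → ι → ι → ι → ℝ) (δ ε : ℝ) :
    Fil N (Le C δ ε p) := by
  rw [Le_apply, Lop_apply]
  refine Fil.add (Fil.add (Fil.sum fun i _ => Fil.sum fun j _ => Fil.sum fun k _ =>
    Fil.sum fun l _ => Fil.smul ?_ _) (Fil.smul ?_ _)) (Fil.smul (h.D _) _)
  · exact Fil.D' (h.D _) _
  · exact Fil.D' (h.D _) _

theorem Le_pow_zero (C : ι → ι → ι → ι → ℝ) (δ ε : ℝ) (N : ℕ) (p : PR ι) (h : Fil N p) :
    (Le C δ ε ^ N) p = 0 := by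
  induction N generalizing p with
  | zero => rw [pow_zero, Module.End.one_apply, h.zero]
  | succ N ih =>
    rw [pow_succ, Module.End.mul_apply]
    exact ih _ (h.Le C δ ε)

/-- a real matrix as a complex matrix -/
def cm (x : Matrix ι ι ℝ) : Matrix ι ι ℂ := x.map Complex.ofReal

theorem cm_add (x y : Matrix ι ι ℝ) : cm (x + y) = cm x + cm y := by
  ext i j; simp [cm]

theorem cm_smul (c : ℝ) (x : Matrix ι ι ℝ) : cm (c • x) = (c : ℂ) • cm x := by
  ext i j; simp [cm]

theorem cm_one : cm (1 : Matrix ι ι ℝ) = 1 := by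
  ext i j; simp [cm, Matrix.one_apply, apply_ite]

theorem cm_single (i j : ι) : cm (single i j (1 : ℝ)) = single i j (1 : ℂ) := by
  ext k l
  simp only [cm, Matrix.map_apply, Matrix.single_apply]
  split_ifs <;> simp

theorem cm_vecMulVec (u v : ι → ℝ) : cm (vecMulVec u v) =
    vecMulVec (fun i => (u i : ℂ)) (fun i => (v i : ℂ)) := by
  ext k l; simp [cm, vecMulVec_apply]

/-- the values of a polynomial with real coefficients -/
def RealP (F : PR ι) : Prop := ∀ (Y Z : Matrix ι ι ℂ) (t : ℂ),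
  (starRingEnd ℂ) (MvPolynomial.eval (pt Y Z t) F) =
    MvPolynomial.eval (pt (Y.map (starRingEnd ℂ)) (Z.map (starRingEnd ℂ)) ((starRingEnd ℂ) t)) F

theorem RealP.add {F G : PR ι} (hF : RealP F) (hG : RealP G) : RealP (F + G) := by
  intro Y Z t
  rw [map_add, map_add, map_add, hF, hG]

theorem RealP.smul {F : PR ι} (hF : RealP F) (c : ℝ) : RealP ((c : ℂ) • F) := by
  intro Y Z t
  rw [MvPolynomial.smul_eval, MvPolynomial.smul_eval, map_mul, hF, Complex.conj_ofReal]

theorem RealP.sum {K : Type*} {s : Finset K} {F : K → PR ι} (h : ∀ k ∈ s, RealP (F k)) :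
    RealP (∑ k ∈ s, F k) := by
  intro Y Z t
  rw [map_sum, map_sum, map_sum]
  exact Finset.sum_congr rfl fun k hk => h k hk Y Z t

theorem RealP.time {F : PR ι} (hF : RealP F) (k : ℕ) :
    RealP ((MvPolynomial.X none) ^ k * F) := by
  intro Y Z t
  rw [map_mul, map_mul, map_mul, hF, map_pow, map_pow, map_pow, MvPolynomial.eval_X,
    MvPolynomial.eval_X]
  rfl

theorem RealP.dz {F : PR ι} (hF : RealP F) {x : Matrix ι ι ℂ} (hx : x.map (starRingEnd ℂ) = x) :
    RealP (dz x F) := by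
  intro Y Z t
  have h1 : (cv (pt Y Z t) (pt 0 x 0) 0 F).map (starRingEnd ℂ) =
      cv (pt (Y.map (starRingEnd ℂ)) (Z.map (starRingEnd ℂ)) ((starRingEnd ℂ) t))
        (pt 0 x 0) 0 F := by
    refine Polynomial.funext fun τ => ?_
    have h2 : τ = (starRingEnd ℂ) ((starRingEnd ℂ) τ) := (Complex.conj_conj τ).symm
    conv_lhs => rw [h2]
    rw [Polynomial.eval_map_apply, eval_cv, eval_cv, smul_zero, smul_zero, add_zero, add_zero,
      pt_smul, pt_smul, pt_add, pt_add, hF]
    congr 2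
    have h3 : (Z + (starRingEnd ℂ) τ • x).map (starRingEnd ℂ) =
        Z.map (starRingEnd ℂ) + τ • x := by
      ext i j
      simp only [Matrix.map_apply, Matrix.add_apply, Matrix.smul_apply, smul_eq_mul, map_add,
        map_mul, Complex.conj_conj]
      have h4 := congrFun (congrFun hx i) j
      rw [Matrix.map_apply] at h4
      rw [h4]
    rw [h3, smul_zero, smul_zero, add_zero, add_zero, mul_zero, mul_zero, add_zero, add_zero]
  have h2 := congrArg (fun r => Polynomial.coeff r 1) h1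
  simp only [Polynomial.coeff_map, cv_coeff_one] at h2
  exact h2

theorem RealP.Le {F : PR ι} (hF : RealP F) (C : ι → ι → ι → ι → ℝ) (δ ε : ℝ) :
    RealP (Le C δ ε F) := by
  have h1 : (1 : Matrix ι ι ℂ).map (starRingEnd ℂ) = 1 := by
    ext i j; simp [Matrix.one_apply, apply_ite]
  have h2 : ∀ i j : ι, (single i j (1 : ℂ)).map (starRingEnd ℂ) = single i j 1 := by
    intro i j
    ext k l
    simp only [Matrix.map_apply, Matrix.single_apply]
    split_ifs <;> simp
  rw [Le_apply, Lop_apply]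
  exact RealP.add (RealP.add (RealP.sum fun i _ => RealP.sum fun j _ => RealP.sum fun k _ =>
    RealP.sum fun l _ => ((hF.dz (h2 k l)).dz (h2 i j)).smul _) (((hF.dz h1).dz h1).smul _))
    ((hF.dz h1).smul _)

theorem RealP.pow {F : PR ι} (hF : RealP F) (C : ι → ι → ι → ι → ℝ) (δ ε : ℝ) (k : ℕ) :
    RealP ((H53HC.Le C δ ε ^ k) F) := by
  induction k with
  | zero => exact hF
  | succ k ih =>
    rw [pow_succ', Module.End.mul_apply]
    exact ih.Le C δ ε

theorem RealP.flow {F : PR ι} (hF : RealP F) (C : ι → ι → ι → ι → ℝ) (δ ε : ℝ) (K : ℕ) :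
    RealP (flow (H53HC.Le C δ ε) K F) := by
  refine RealP.sum fun k _ => ?_
  have h := ((hF.pow C δ ε k).time k).smul ((k.factorial : ℝ)⁻¹)
  have e : (((k.factorial : ℝ)⁻¹ : ℝ) : ℂ) = (k.factorial : ℂ)⁻¹ := by push_cast; rfl
  rwa [e] at h

theorem RealP.p0 : RealP (p0 ι) := by
  intro Y Z t
  rw [eval_p0, eval_p0, RingHom.map_det]
  congr 1
  ext i j
  simp [Matrix.mul_apply, Matrix.one_apply, apply_ite]

theorem cm_conj (x : Matrix ι ι ℝ) : (cm x).map (starRingEnd ℂ) = cm x := by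
  ext i j; simp [cm]

theorem RealP.im_zero {F : PR ι} (hF : RealP F) (Y Z : Matrix ι ι ℝ) (t : ℝ) :
    (MvPolynomial.eval (pt (cm Y) (cm Z) (t : ℂ)) F).im = 0 := by
  have h := hF (cm Y) (cm Z) t
  rw [cm_conj, cm_conj, Complex.conj_ofReal] at h
  exact Complex.conj_eq_iff_im.1 h

/-- the bilinear form of the second derivatives -/
noncomputable def rform (F : PR ι) (v : Var ι → ℂ) (α : ℂ) :
    Matrix ι ι ℂ →ₗ[ℂ] Matrix ι ι ℂ →ₗ[ℂ] ℂ :=
  LinearMap.mk₂ ℂ (fun x y => MvPolynomial.eval v (dz x (dz y F)) / α)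
    (fun x x' y => by
      rw [dz_add, LinearMap.add_apply, map_add, add_div])
    (fun c x y => by
      rw [dz_smul, LinearMap.smul_apply, MvPolynomial.smul_eval, mul_div_assoc, smul_eq_mul])
    (fun x y y' => by
      rw [dz_add, LinearMap.add_apply, map_add, map_add, add_div])
    (fun c x y => by
      rw [dz_smul, LinearMap.smul_apply, map_smul, MvPolynomial.smul_eval,
        mul_div_assoc, smul_eq_mul])

/-- the linear form of the first derivatives -/
noncomputable def aform (F : PR ι) (v : Var ι → ℂ) (α : ℂ) : Matrix ι ι ℂ →ₗ[ℂ] ℂ where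
  toFun x := MvPolynomial.eval v (dz x F) / α
  map_add' x y := by
    rw [dz_add, LinearMap.add_apply, map_add, add_div]
  map_smul' c x := by
    rw [dz_smul, LinearMap.smul_apply, MvPolynomial.smul_eval, mul_div_assoc,
      RingHom.id_apply, smul_eq_mul]

theorem rform_apply (F : PR ι) (v : Var ι → ℂ) (α : ℂ) (x y : Matrix ι ι ℂ) :
    rform F v α x y = MvPolynomial.eval v (dz x (dz y F)) / α := rfl

theorem aform_apply (F : PR ι) (v : Var ι → ℂ) (α : ℂ) (x : Matrix ι ι ℂ) :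
    aform F v α x = MvPolynomial.eval v (dz x F) / α := rfl

theorem pairC_rform (C : ι → ι → ι → ι → ℝ) (F : PR ι) (v : Var ι → ℂ) (α : ℂ) :
    pairC C (rform F v α) = (MvPolynomial.eval v (Lop C F) / α).re := by
  rw [Lop_apply]
  simp only [pairC, map_sum, Finset.sum_div, Complex.re_sum, rform_apply,
    MvPolynomial.smul_eval, mul_div_assoc, Complex.re_ofReal_mul]

end Pool.Agent.H53HC
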