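import Mathlib

/-!
# Directional derivatives of polynomials and expansions along curves
-/

set_option autoImplicit false
set_option linter.unusedSectionVars false

namespace Pool.Agent.H53HC

open Filter Topology

variable {σ : Type*} [Fintype σ] [DecidableEq σ]

/-- the derivative in the constant direction `w` -/
noncomputable def D (w : σ → ℂ) : Derivation ℂ (MvPolynomial σ ℂ) (MvPolynomial σ ℂ) :=
  MvPolynomial.mkDerivation ℂ fun i => MvPolynomial.C (w i)

theorem D_X (w : σ → ℂ) (i : σ) : D w (MvPolynomial.X i) = MvPolynomial.C (w i) := by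
  rw [D, MvPolynomial.mkDerivation_X]

theorem D_C (w : σ → ℂ) (c : ℂ) : D w (MvPolynomial.C c) = 0 :=
  MvPolynomial.derivation_C _ c

theorem D_add (w w' : σ → ℂ) : D (w + w') = D w + D w' := by
  refine MvPolynomial.derivation_ext fun i => ?_
  rw [Derivation.add_apply, D_X, D_X, D_X, Pi.add_apply, map_add]

theorem D_smul (c : ℂ) (w : σ → ℂ) : D (c • w) = c • D w := by
  refine MvPolynomial.derivation_ext fun i => ?_
  rw [Derivation.smul_apply, D_X, D_X, Pi.smul_apply, smul_eq_mul, map_mul, MvPolynomial.C_mul']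

theorem D_comm (w w' : σ → ℂ) (p : MvPolynomial σ ℂ) : D w (D w' p) = D w' (D w p) := by
  induction p using MvPolynomial.induction_on with
  | C a => rw [D_C, D_C, map_zero, map_zero]
  | add p q hp hq => simp only [map_add, hp, hq]
  | mul_X p i hp =>
    simp only [Derivation.leibniz, D_X, smul_eq_mul, map_add, D_C, mul_zero, zero_add, hp]
    ring

theorem D_eq_sum (w : σ → ℂ) (p : MvPolynomial σ ℂ) :
    D w p = ∑ i, w i • MvPolynomial.pderiv i p := by
  induction p using MvPolynomial.induction_on with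
  | C a => simp [D_C]
  | add p q hp hq => simp only [map_add, hp, hq, smul_add, Finset.sum_add_distrib]
  | mul_X p j hp =>
    simp only [Derivation.leibniz, D_X, smul_eq_mul, MvPolynomial.pderiv_X, smul_add,
      Finset.sum_add_distrib]
    congr 1
    · rw [Finset.sum_eq_single j]
      · simp [MvPolynomial.smul_eq_C_mul, mul_comm]
      · intro b _ hb
        simp [Pi.single_apply, hb.symm]
      · simp
    · rw [hp, Finset.mul_sum]
      refine Finset.sum_congr rfl fun i _ => ?_
      rw [mul_smul_comm]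

/-- the quadratic curve `v + τ a + τ² b` -/
noncomputable def curve (v a b : σ → ℂ) (i : σ) : Polynomial ℂ :=
  Polynomial.C (v i) + Polynomial.C (a i) * Polynomial.X + Polynomial.C (b i) * Polynomial.X ^ 2

/-- restriction of a polynomial to the curve -/
noncomputable def cv (v a b : σ → ℂ) (p : MvPolynomial σ ℂ) : Polynomial ℂ :=
  MvPolynomial.aeval (curve v a b) p

theorem eval_cv (v a b : σ → ℂ) (p : MvPolynomial σ ℂ) (τ : ℂ) :
    (cv v a b p).eval τ = MvPolynomial.eval (v + τ • a + τ ^ 2 • b) p := by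
  induction p using MvPolynomial.induction_on with
  | C c => simp [cv]
  | add p q hp hq =>
    have : cv v a b (p + q) = cv v a b p + cv v a b q := map_add _ _ _
    rw [this, Polynomial.eval_add, hp, hq, map_add]
  | mul_X p i hp =>
    have : cv v a b (p * MvPolynomial.X i) = cv v a b p * curve v a b i := by
      rw [cv, map_mul, MvPolynomial.aeval_X]
      rfl
    rw [this, Polynomial.eval_mul, hp, map_mul, MvPolynomial.eval_X]
    congr 1
    simp [curve]
    ring

theorem cv_derivative (v a b : σ → ℂ) (p : MvPolynomial σ ℂ) :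
    Polynomial.derivative (cv v a b p) =
      cv v a b (D a p) + Polynomial.C 2 * Polynomial.X * cv v a b (D b p) := by
  induction p using MvPolynomial.induction_on with
  | C c => simp [cv]
  | add p q hp hq =>
    have : cv v a b (p + q) = cv v a b p + cv v a b q := map_add _ _ _
    rw [this, map_add, hp, hq]
    simp only [map_add, cv]
    ring
  | mul_X p i hp =>
    have : cv v a b (p * MvPolynomial.X i) = cv v a b p * curve v a b i := by
      rw [cv, map_mul, MvPolynomial.aeval_X]
      rfl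
    rw [this, Polynomial.derivative_mul, hp]
    have h2 : Polynomial.derivative (curve v a b i) = Polynomial.C (a i) +
        Polynomial.C 2 * Polynomial.X * Polynomial.C (b i) := by
      simp only [curve, map_add, Polynomial.derivative_C, Polynomial.derivative_mul, zero_mul,
        Polynomial.derivative_X, mul_one, zero_add, Polynomial.derivative_X_pow]
      norm_num
      ring
    rw [h2]
    have h3 : ∀ w : σ → ℂ, cv v a b (D w (p * MvPolynomial.X i)) =
        cv v a b p * Polynomial.C (w i) + cv v a b (D w p) * curve v a b i := by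
      intro w
      rw [Derivation.leibniz, D_X, smul_eq_mul, smul_eq_mul, cv, map_add, map_mul, map_mul,
        MvPolynomial.aeval_X, MvPolynomial.aeval_C]
      show cv v a b p * Polynomial.C (w i) + curve v a b i * cv v a b (D w p) = _
      ring
    rw [h3, h3]
    ring

theorem cv_coeff_zero (v a b : σ → ℂ) (p : MvPolynomial σ ℂ) :
    (cv v a b p).coeff 0 = MvPolynomial.eval v p := by
  rw [Polynomial.coeff_zero_eq_eval_zero, eval_cv]
  simp

theorem cv_coeff_one (v a b : σ → ℂ) (p : MvPolynomial σ ℂ) :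
    (cv v a b p).coeff 1 = MvPolynomial.eval v (D a p) := by
  have h1 : (Polynomial.derivative (cv v a b p)).coeff 0 = (cv v a b p).coeff 1 := by
    rw [Polynomial.coeff_derivative]
    simp
  rw [← h1, cv_derivative, Polynomial.coeff_add, cv_coeff_zero, mul_assoc,
    Polynomial.coeff_C_mul, Polynomial.coeff_X_mul_zero, mul_zero, add_zero]

theorem cv_coeff_two (v a b : σ → ℂ) (p : MvPolynomial σ ℂ) :
    (cv v a b p).coeff 2 = MvPolynomial.eval v (D a (D a p)) / 2 + MvPolynomial.eval v (D b p) := by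
  have h1 : (Polynomial.derivative (cv v a b p)).coeff 1 = (cv v a b p).coeff 2 * 2 := by
    rw [Polynomial.coeff_derivative]
    norm_num
  have h2 : (cv v a b p).coeff 2 = (Polynomial.derivative (cv v a b p)).coeff 1 / 2 := by
    rw [h1]; ring
  have h3 : (Polynomial.X * cv v a b (D b p)).coeff 1 = (cv v a b (D b p)).coeff 0 :=
    Polynomial.coeff_X_mul _ 0
  rw [h2, cv_derivative, Polynomial.coeff_add, cv_coeff_one, mul_assoc, Polynomial.coeff_C_mul,
    h3, cv_coeff_zero]
  ring

theorem cv_natDegree (v a : σ → ℂ) (p : MvPolynomial σ ℂ) :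
    (cv v a 0 p).natDegree ≤ p.totalDegree := by
  have h := MvPolynomial.aeval_natDegree_le (m := p.totalDegree) (n := 1) p le_rfl
    (curve v a 0) (fun i => by
      simp only [curve, Pi.zero_apply, map_zero, zero_mul, add_zero]
      compute_degree)
  rw [mul_one] at h
  exact h

/-- first order limits -/
theorem tendsto_one {q : Polynomial ℂ} (h0 : q.coeff 0 = 0) :
    Tendsto (fun τ : ℝ => (τ : ℂ)⁻¹ * q.eval (τ : ℂ)) (𝓝[>] 0) (𝓝 (q.coeff 1)) := by
  obtain ⟨r, hr⟩ : Polynomial.X ∣ q := Polynomial.X_dvd_iff.2 h0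
  have h1 : q.coeff 1 = r.eval 0 := by
    rw [hr, show (1 : ℕ) = 0 + 1 from rfl, Polynomial.coeff_X_mul,
      Polynomial.coeff_zero_eq_eval_zero]
  rw [h1]
  have h2 : Tendsto (fun τ : ℝ => r.eval (τ : ℂ)) (𝓝[>] 0) (𝓝 (r.eval 0)) := by
    have : Continuous fun τ : ℝ => r.eval (τ : ℂ) := r.continuous.comp Complex.continuous_ofReal
    have := this.tendsto 0
    rw [Complex.ofReal_zero] at this
    exact this.mono_left nhdsWithin_le_nhds
  refine h2.congr' ?_
  filter_upwards [self_mem_nhdsWithin] with τ hτ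
  have hτ0 : (τ : ℂ) ≠ 0 := Complex.ofReal_ne_zero.2 (ne_of_gt hτ)
  rw [hr, Polynomial.eval_mul, Polynomial.eval_X, inv_mul_cancel_left₀ hτ0]

/-- second order limits -/
theorem tendsto_two {q : Polynomial ℂ} (h0 : q.coeff 0 = 0) (h1 : q.coeff 1 = 0) :
    Tendsto (fun τ : ℝ => ((τ : ℂ) ^ 2)⁻¹ * q.eval (τ : ℂ)) (𝓝[>] 0) (𝓝 (q.coeff 2)) := by
  obtain ⟨r, hr⟩ : Polynomial.X ^ 2 ∣ q := by
    rw [Polynomial.X_pow_dvd_iff]
    intro d hd
    interval_cases d
    · exact h0
    · exact h1
  have h2 : q.coeff 2 = r.eval 0 := by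
    rw [hr, show (2 : ℕ) = 0 + 2 from rfl, Polynomial.coeff_X_pow_mul,
      Polynomial.coeff_zero_eq_eval_zero]
  rw [h2]
  have h3 : Tendsto (fun τ : ℝ => r.eval (τ : ℂ)) (𝓝[>] 0) (𝓝 (r.eval 0)) := by
    have : Continuous fun τ : ℝ => r.eval (τ : ℂ) := r.continuous.comp Complex.continuous_ofReal
    have := this.tendsto 0
    rw [Complex.ofReal_zero] at this
    exact this.mono_left nhdsWithin_le_nhds
  refine h3.congr' ?_
  filter_upwards [self_mem_nhdsWithin] with τ hτ
  have hτ0 : (τ : ℂ) ≠ 0 := Complex.ofReal_ne_zero.2 (ne_of_gt hτ)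
  rw [hr, Polynomial.eval_mul, Polynomial.eval_pow, Polynomial.eval_X,
    inv_mul_cancel_left₀ (pow_ne_zero 2 hτ0)]

/-- all coefficients of degree at least `N` vanish -/
def Fil (N : ℕ) (p : MvPolynomial σ ℂ) : Prop := ∀ m : σ →₀ ℕ, N ≤ m.degree → p.coeff m = 0

theorem fil_totalDegree (p : MvPolynomial σ ℂ) : Fil (p.totalDegree + 1) p := by
  intro m hm
  refine MvPolynomial.coeff_eq_zero_of_totalDegree_lt ?_
  rw [Finsupp.degree] at hm
  exact hm

theorem Fil.zero {p : MvPolynomial σ ℂ} (h : Fil 0 p) : p = 0 := by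
  ext m
  rw [h m (Nat.zero_le _), MvPolynomial.coeff_zero]

theorem Fil.mono {N M : ℕ} {p : MvPolynomial σ ℂ} (h : Fil N p) (hNM : N ≤ M) : Fil M p :=
  fun m hm => h m (hNM.trans hm)

theorem Fil.add {N : ℕ} {p q : MvPolynomial σ ℂ} (hp : Fil N p) (hq : Fil N q) :
    Fil N (p + q) := by
  intro m hm
  rw [MvPolynomial.coeff_add, hp m hm, hq m hm, add_zero]

theorem Fil.smul {N : ℕ} {p : MvPolynomial σ ℂ} (hp : Fil N p) (c : ℂ) : Fil N (c • p) := by
  intro m hm
  rw [MvPolynomial.coeff_smul, hp m hm, smul_zero]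

theorem Fil.sum {N : ℕ} {K : Type*} {s : Finset K} {f : K → MvPolynomial σ ℂ}
    (h : ∀ x ∈ s, Fil N (f x)) : Fil N (∑ x ∈ s, f x) := by
  intro m hm
  rw [MvPolynomial.coeff_sum]
  exact Finset.sum_eq_zero fun x hx => h x hx m hm

theorem Fil.D {N : ℕ} {p : MvPolynomial σ ℂ} (h : Fil (N + 1) p) (w : σ → ℂ) :
    Fil N (D w p) := by
  rw [D_eq_sum]
  refine Fil.sum fun i _ => Fil.smul ?_ _
  intro m hm
  rw [MvPolynomial.coeff_pderiv, h (m + Finsupp.single i 1) (by
    rw [map_add, Finsupp.degree_single]; omega)]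
  simp

theorem Fil.D' {N : ℕ} {p : MvPolynomial σ ℂ} (h : Fil N p) (w : σ → ℂ) :
    Fil N (H53HC.D w p) := Fil.D (h.mono (Nat.le_succ N)) w

end Pool.Agent.H53HC
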