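import Mathlib

/-!
# Lorentzian forms on Hermitian matrices and causal tensors
-/

set_option autoImplicit false
set_option linter.unusedSectionVars false

namespace Pool.Agent.H53HC

open Finset Matrix Filter Topology

variable {ι : Type*} [Fintype ι] [DecidableEq ι]

/-- the value of the Hermitian form -/
def qv (A : Matrix ι ι ℂ) (u : ι → ℂ) : ℝ := (star u ⬝ᵥ A *ᵥ u).re

theorem qv_add (A B : Matrix ι ι ℂ) (u : ι → ℂ) : qv (A + B) u = qv A u + qv B u := by
  simp only [qv, Matrix.add_mulVec, dotProduct_add, Complex.add_re]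

theorem qv_sub (A B : Matrix ι ι ℂ) (u : ι → ℂ) : qv (A - B) u = qv A u - qv B u := by
  simp only [qv, Matrix.sub_mulVec, dotProduct_sub, Complex.sub_re]

theorem qv_smul (c : ℝ) (A : Matrix ι ι ℂ) (u : ι → ℂ) : qv (c • A) u = c * qv A u := by
  simp only [qv, Matrix.smul_mulVec, dotProduct_smul, Complex.smul_re, smul_eq_mul]

theorem qv_sum {K : Type*} (s : Finset K) (A : K → Matrix ι ι ℂ) (u : ι → ℂ) :
    qv (∑ k ∈ s, A k) u = ∑ k ∈ s, qv (A k) u := by
  simp only [qv, Matrix.sum_mulVec, dotProduct_sum, Complex.re_sum]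

/-- positive semidefinite Hermitian matrices -/
def Psd (A : Matrix ι ι ℂ) : Prop := A.IsHermitian ∧ ∀ u : ι → ℂ, 0 ≤ qv A u

theorem qv_nonneg {A : Matrix ι ι ℂ} (hA : Psd A) (u : ι → ℂ) : 0 ≤ qv A u := hA.2 u

theorem herm_im {A : Matrix ι ι ℂ} (hA : A.IsHermitian) (u : ι → ℂ) :
    (star u ⬝ᵥ A *ᵥ u).im = 0 := by
  apply Complex.conj_eq_iff_im.1
  simp only [dotProduct, mulVec, Finset.mul_sum, map_sum, map_mul, Pi.star_apply,
    RCLike.star_def, Complex.conj_conj]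
  rw [Finset.sum_comm]
  refine Finset.sum_congr rfl fun i _ => Finset.sum_congr rfl fun j _ => ?_
  have := hA.apply i j
  rw [RCLike.star_def] at this
  rw [this]
  ring

open scoped ComplexOrder in
theorem psd_iff {A : Matrix ι ι ℂ} : Psd A ↔ A.PosSemidef := by
  constructor
  · rintro ⟨hs, h⟩
    refine Matrix.PosSemidef.of_dotProduct_mulVec_nonneg hs fun x => ?_
    exact Complex.nonneg_iff.2 ⟨h x, (herm_im hs x).symm⟩
  · intro hA
    exact ⟨hA.1, fun u => (Complex.nonneg_iff.1 (hA.dotProduct_mulVec_nonneg u)).1⟩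

theorem psd_of {A : Matrix ι ι ℂ} (hs : A.IsHermitian) (h : ∀ u : ι → ℂ, 0 ≤ qv A u) :
    Psd A := ⟨hs, h⟩

theorem herm_smul {x : Matrix ι ι ℂ} (hx : x.IsHermitian) (c : ℝ) : (c • x).IsHermitian := by
  rw [Matrix.IsHermitian, Matrix.conjTranspose_smul, hx.eq, star_trivial]

theorem Psd.add {A B : Matrix ι ι ℂ} (hA : Psd A) (hB : Psd B) : Psd (A + B) :=
  ⟨hA.1.add hB.1, fun u => by rw [qv_add]; exact add_nonneg (hA.2 u) (hB.2 u)⟩

theorem Psd.smul {A : Matrix ι ι ℂ} (hA : Psd A) {c : ℝ} (hc : 0 ≤ c) : Psd (c • A) :=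
  ⟨herm_smul hA.1 c, fun u => by rw [qv_smul]; exact mul_nonneg hc (hA.2 u)⟩

open scoped ComplexOrder in
theorem psd_sq (u : ι → ℂ) : Psd (vecMulVec u (star u)) :=
  psd_iff.2 (Matrix.posSemidef_vecMulVec_self_star u)

open scoped ComplexOrder in
theorem psd_one : Psd (1 : Matrix ι ι ℂ) := psd_iff.2 Matrix.PosSemidef.one

/-- A linear form `a` on matrices, nonnegative on positive semidefinite matrices, `a 1 > 0`, and a
symmetric bilinear form `r`, nonpositive on the Hermitian matrices in the kernel of `a`, and zero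
on the squares `u u*`. -/
structure Fut (a : Matrix ι ι ℂ →ₗ[ℝ] ℝ) (r : Matrix ι ι ℂ →ₗ[ℝ] Matrix ι ι ℂ →ₗ[ℝ] ℝ) :
    Prop where
  symm : ∀ x y, r x y = r y x
  nonneg : ∀ x : Matrix ι ι ℂ, Psd x → 0 ≤ a x
  one_pos : 0 < a 1
  ker : ∀ x : Matrix ι ι ℂ, x.IsHermitian → a x = 0 → r x x ≤ 0
  sq_zero : ∀ u : ι → ℂ, r (vecMulVec u (star u)) (vecMulVec u (star u)) = 0

/-- the real part of a linear form -/
noncomputable def reA (a : Matrix ι ι ℂ →ₗ[ℂ] ℂ) : Matrix ι ι ℂ →ₗ[ℝ] ℝ where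
  toFun x := (a x).re
  map_add' x y := by rw [map_add, Complex.add_re]
  map_smul' c x := by
    have : (c • x : Matrix ι ι ℂ) = (c : ℂ) • x := by ext i j; simp
    rw [this, map_smul, smul_eq_mul, Complex.re_ofReal_mul, RingHom.id_apply, smul_eq_mul]

/-- the real part of a bilinear form -/
noncomputable def reR (r : Matrix ι ι ℂ →ₗ[ℂ] Matrix ι ι ℂ →ₗ[ℂ] ℂ) :
    Matrix ι ι ℂ →ₗ[ℝ] Matrix ι ι ℂ →ₗ[ℝ] ℝ :=
  LinearMap.mk₂ ℝ (fun x y => (r x y).re)
    (fun x x' y => by rw [map_add, LinearMap.add_apply, Complex.add_re])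
    (fun c x y => by
      have : (c • x : Matrix ι ι ℂ) = (c : ℂ) • x := by ext i j; simp
      rw [this, map_smul, LinearMap.smul_apply, smul_eq_mul, Complex.re_ofReal_mul, smul_eq_mul])
    (fun x y y' => by rw [map_add, Complex.add_re])
    (fun c x y => by
      have : (c • y : Matrix ι ι ℂ) = (c : ℂ) • y := by ext i j; simp
      rw [this, map_smul, smul_eq_mul, Complex.re_ofReal_mul, smul_eq_mul])

theorem reA_apply (a : Matrix ι ι ℂ →ₗ[ℂ] ℂ) (x : Matrix ι ι ℂ) : reA a x = (a x).re := rfl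

theorem reR_apply (r : Matrix ι ι ℂ →ₗ[ℂ] Matrix ι ι ℂ →ₗ[ℂ] ℂ) (x y : Matrix ι ι ℂ) :
    reR r x y = (r x y).re := rfl

/-- the pairing of a real `4`-tensor and a bilinear form -/
noncomputable def pairC (C : ι → ι → ι → ι → ℝ)
    (r : Matrix ι ι ℂ →ₗ[ℂ] Matrix ι ι ℂ →ₗ[ℂ] ℂ) : ℝ :=
  ∑ i, ∑ j, ∑ k, ∑ l, C i j k l * (r (single i j 1) (single k l 1)).re

/-- real `4`-tensors which pair nonnegatively with all `Fut` forms -/
def TraceCone (C : ι → ι → ι → ι → ℝ) : Prop :=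
  ∀ (a : Matrix ι ι ℂ →ₗ[ℂ] ℂ) (r : Matrix ι ι ℂ →ₗ[ℂ] Matrix ι ι ℂ →ₗ[ℂ] ℂ),
    Fut (reA a) (reR r) → 0 ≤ pairC C r

theorem Fut.exists_pos {a : Matrix ι ι ℂ →ₗ[ℝ] ℝ} {r : Matrix ι ι ℂ →ₗ[ℝ] Matrix ι ι ℂ →ₗ[ℝ] ℝ}
    (h : Fut a r) : ∃ w : ι → ℂ, 0 < a (vecMulVec w (star w)) := by
  by_contra hn
  push Not at hn
  have h1 : (1 : Matrix ι ι ℂ) = ∑ i, vecMulVec (Pi.single i 1) (star (Pi.single i 1)) := by
    ext j k
    simp only [Matrix.sum_apply, vecMulVec_apply, Pi.single_apply, Matrix.one_apply,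
      Pi.star_apply]
    rw [Finset.sum_eq_single j]
    · by_cases hjk : j = k
      · subst hjk; simp
      · simp [hjk, Ne.symm hjk]
    · intro b _ hb
      simp [hb.symm]
    · simp
  have h2 := h.one_pos
  rw [h1, map_sum] at h2
  exact absurd h2 (not_lt.2 (Finset.sum_nonpos fun i _ => hn _))

theorem Fut.sq_pos {a : Matrix ι ι ℂ →ₗ[ℝ] ℝ} {r : Matrix ι ι ℂ →ₗ[ℝ] Matrix ι ι ℂ →ₗ[ℝ] ℝ}
    (h : Fut a r) {u v : ι → ℂ} (hu : 0 < a (vecMulVec u (star u)))
    (hv : 0 < a (vecMulVec v (star v))) :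
    0 ≤ r (vecMulVec u (star u)) (vecMulVec v (star v)) := by
  set A := a (vecMulVec u (star u)) with hA
  set B := a (vecMulVec v (star v)) with hB
  have h1 := h.ker (B • vecMulVec u (star u) - A • vecMulVec v (star v))
    ((herm_smul (psd_sq u).1 B).sub (herm_smul (psd_sq v).1 A)) (by
      simp only [map_sub, map_smul, smul_eq_mul, ← hA, ← hB]; ring)
  simp only [map_sub, map_smul, LinearMap.sub_apply, LinearMap.smul_apply, smul_eq_mul,
    h.sq_zero, mul_zero, h.symm (vecMulVec v (star v)) (vecMulVec u (star u))] at h1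
  have h2 : 0 < A * B := mul_pos hu hv
  by_contra hn
  push Not at hn
  nlinarith [mul_pos h2 (neg_pos.2 hn)]

theorem sq_expand (u w : ι → ℂ) (s : ℝ) :
    vecMulVec (u + s • w) (star (u + s • w)) = vecMulVec u (star u) +
      s • (vecMulVec u (star w) + vecMulVec w (star u)) + s ^ 2 • vecMulVec w (star w) := by
  ext i j
  simp only [vecMulVec_apply, Pi.add_apply, Pi.smul_apply, Matrix.add_apply,
    Matrix.smul_apply, Pi.star_apply, star_add, star_smul, star_trivial, Complex.real_smul]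
  push_cast
  ring

theorem Fut.eventually_pos {a : Matrix ι ι ℂ →ₗ[ℝ] ℝ}
    {r : Matrix ι ι ℂ →ₗ[ℝ] Matrix ι ι ℂ →ₗ[ℝ] ℝ}
    (h : Fut a r) {w : ι → ℂ} (hw : 0 < a (vecMulVec w (star w))) (u : ι → ℂ) :
    ∀ᶠ s : ℝ in 𝓝[>] 0, 0 < a (vecMulVec (u + s • w) (star (u + s • w))) := by
  have h0 : ∀ s : ℝ, a (vecMulVec (u + s • w) (star (u + s • w))) =
      a (vecMulVec u (star u)) + s * a (vecMulVec u (star w) + vecMulVec w (star u)) +
        s ^ 2 * a (vecMulVec w (star w)) := by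
    intro s
    rw [sq_expand, map_add, map_add, map_smul, map_smul, smul_eq_mul, smul_eq_mul]
  have h1 : 0 ≤ a (vecMulVec u (star u)) := h.nonneg _ (psd_sq u)
  rcases h1.lt_or_eq with h2 | h2
  · have h3 : Continuous fun s : ℝ => a (vecMulVec (u + s • w) (star (u + s • w))) := by
      simp only [h0]
      fun_prop
    have h4 : Tendsto (fun s : ℝ => a (vecMulVec (u + s • w) (star (u + s • w)))) (𝓝[>] 0)
        (𝓝 (a (vecMulVec u (star u)))) := by
      have := h3.tendsto 0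
      simp only [zero_smul, add_zero] at this
      exact this.mono_left nhdsWithin_le_nhds
    exact h4.eventually (lt_mem_nhds h2)
  · set b := a (vecMulVec u (star w) + vecMulVec w (star u)) with hb
    set c := a (vecMulVec w (star w)) with hc
    have h3 : b = 0 := by
      have h4 : ∀ s : ℝ, 0 ≤ s * b + s ^ 2 * c := by
        intro s
        have := h.nonneg _ (psd_sq (u + s • w))
        rw [h0, ← h2] at this
        linarith
      have h5 := h4 (-(b / (2 * c)))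
      have h6 : -(b / (2 * c)) * b + (-(b / (2 * c))) ^ 2 * c = -(b ^ 2 / (4 * c)) := by
        field_simp
        ring
      rw [h6] at h5
      have h7 : b ^ 2 / (4 * c) ≤ 0 := by linarith
      have h8 : b ^ 2 ≤ 0 := by
        by_contra hn
        push Not at hn
        exact absurd h7 (not_le.2 (by positivity))
      nlinarith
    filter_upwards [self_mem_nhdsWithin] with s hs
    rw [h0, ← h2, h3]
    have : 0 < s := hs
    have : 0 < s ^ 2 * c := by positivity
    linarith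

theorem Fut.sq_sq {a : Matrix ι ι ℂ →ₗ[ℝ] ℝ} {r : Matrix ι ι ℂ →ₗ[ℝ] Matrix ι ι ℂ →ₗ[ℝ] ℝ}
    (h : Fut a r) (u v : ι → ℂ) :
    0 ≤ r (vecMulVec u (star u)) (vecMulVec v (star v)) := by
  obtain ⟨w, hw⟩ := h.exists_pos
  have h1 : ∀ᶠ s : ℝ in 𝓝[>] 0,
      0 ≤ r (vecMulVec (u + s • w) (star (u + s • w)))
        (vecMulVec (v + s • w) (star (v + s • w))) := by
    filter_upwards [h.eventually_pos hw u, h.eventually_pos hw v] with s hs1 hs2
    exact h.sq_pos hs1 hs2
  have h3 : Continuous fun s : ℝ =>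
      r (vecMulVec (u + s • w) (star (u + s • w)))
        (vecMulVec (v + s • w) (star (v + s • w))) := by
    simp only [sq_expand, map_add, map_smul, LinearMap.add_apply, LinearMap.smul_apply,
      smul_eq_mul]
    fun_prop
  have h4 : Tendsto (fun s : ℝ => r (vecMulVec (u + s • w) (star (u + s • w)))
      (vecMulVec (v + s • w) (star (v + s • w)))) (𝓝[>] 0)
      (𝓝 (r (vecMulVec u (star u)) (vecMulVec v (star v)))) := by
    have := h3.tendsto 0
    simp only [zero_smul, add_zero] at this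
    exact this.mono_left nhdsWithin_le_nhds
  exact ge_of_tendsto h4 h1

open scoped MatrixOrder ComplexOrder in
theorem psd_sum {A : Matrix ι ι ℂ} (hA' : Psd A) :
    ∃ u : ι → ι → ℂ, A = ∑ k, vecMulVec (u k) (star (u k)) := by
  have hA := psd_iff.1 hA'
  have h1 : CFC.sqrt A * CFC.sqrt A = A := CFC.sqrt_mul_sqrt_self A hA.nonneg
  have h2 : (CFC.sqrt A).IsHermitian := (CFC.sqrt_nonneg A).posSemidef.isHermitian
  refine ⟨fun k i => CFC.sqrt A i k, ?_⟩
  ext i j
  conv_lhs => rw [← h1]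
  simp only [Matrix.mul_apply, Matrix.sum_apply, vecMulVec_apply, Pi.star_apply]
  refine Finset.sum_congr rfl fun k _ => ?_
  rw [← h2.apply k j]

theorem Fut.psd_psd {a : Matrix ι ι ℂ →ₗ[ℝ] ℝ} {r : Matrix ι ι ℂ →ₗ[ℝ] Matrix ι ι ℂ →ₗ[ℝ] ℝ}
    (h : Fut a r) {A N : Matrix ι ι ℂ} (hA : Psd A) (hN : Psd N) : 0 ≤ r A N := by
  obtain ⟨u, rfl⟩ := psd_sum hA
  obtain ⟨v, rfl⟩ := psd_sum hN
  simp only [map_sum, LinearMap.sum_apply]
  exact Finset.sum_nonneg fun i _ => Finset.sum_nonneg fun j _ => h.sq_sq _ _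

/-- **The trace lemma**, for a positive value `a A`. -/
theorem Fut.causal_pos {K : Type*} [Fintype K] {a : Matrix ι ι ℂ →ₗ[ℝ] ℝ}
    {r : Matrix ι ι ℂ →ₗ[ℝ] Matrix ι ι ℂ →ₗ[ℝ] ℝ} (hf : Fut a r)
    {A N : Matrix ι ι ℂ} {h : K → Matrix ι ι ℂ} (hA : Psd A) (hN : Psd N)
    (hs : ∀ k, (h k).IsHermitian)
    (hc : ∀ u : ι → ℂ, ∑ k, (qv (h k) u) ^ 2 ≤ qv A u * qv N u)
    (hpos : 0 < a A) : ∑ k, r (h k) (h k) ≤ r A N := by
  set c : K → ℝ := fun k => a (h k) / a A with hcdef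
  have h1 : ∀ k, r (h k) (h k) ≤ 2 * c k * r A (h k) - c k ^ 2 * r A A := by
    intro k
    have h2 := hf.ker (h k - c k • A) ((hs k).sub (herm_smul hA.1 _)) (by
      simp only [map_sub, map_smul, smul_eq_mul, hcdef]
      field_simp
      ring)
    simp only [map_sub, map_smul, LinearMap.sub_apply, LinearMap.smul_apply, smul_eq_mul,
      hf.symm (h k) A] at h2
    linarith
  have hM : Psd (N - ∑ k, (2 * c k) • h k + (∑ k, c k ^ 2) • A) := by
    refine psd_of ?_ fun u => ?_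
    · refine (hN.1.sub ?_).add (herm_smul hA.1 _)
      show (∑ k, (2 * c k) • h k)ᴴ = _
      rw [Matrix.conjTranspose_sum]
      exact Finset.sum_congr rfl fun k _ => herm_smul (hs k) _
    · rw [qv_add, qv_sub, qv_sum, qv_smul]
      simp only [qv_smul]
      set p := qv A u with hp
      set q := qv N u with hq
      have hp0 : 0 ≤ p := qv_nonneg hA u
      have hq0 : 0 ≤ q := qv_nonneg hN u
      set L := ∑ k, c k ^ 2 with hL
      have hL0 : 0 ≤ L := Finset.sum_nonneg fun k _ => sq_nonneg _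
      have e2 := Finset.sum_mul_sq_le_sq_mul_sq univ c (fun k => qv (h k) u)
      have e3 : (∑ k, c k * qv (h k) u) ^ 2 ≤ L * (p * q) :=
        e2.trans (mul_le_mul_of_nonneg_left (hc u) hL0)
      set t := ∑ k, c k * qv (h k) u with ht
      have e4 : (2 * t) ^ 2 ≤ (q + L * p) ^ 2 := by nlinarith [sq_nonneg (q - L * p)]
      have e5 : 2 * t ≤ q + L * p :=
        (abs_le_of_sq_le_sq' e4 (by positivity)).2
      have e6 : ∑ k, 2 * c k * qv (h k) u = 2 * t := by
        rw [ht, Finset.mul_sum]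
        exact Finset.sum_congr rfl fun k _ => by ring
      rw [e6]
      linarith
  have h3 := hf.psd_psd hA hM
  have h4 : r A (N - ∑ k, (2 * c k) • h k + (∑ k, c k ^ 2) • A) =
      r A N - ∑ k, (2 * c k * r A (h k) - c k ^ 2 * r A A) := by
    simp only [map_sub, map_add, map_sum, map_smul, smul_eq_mul, Finset.sum_sub_distrib,
      Finset.sum_mul]
    ring
  rw [h4] at h3
  have h5 := Finset.sum_le_sum fun k (_ : k ∈ (univ : Finset K)) => h1 k
  linarith

/-- **The trace lemma.** -/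
theorem Fut.causal {K : Type*} [Fintype K] {a : Matrix ι ι ℂ →ₗ[ℝ] ℝ}
    {r : Matrix ι ι ℂ →ₗ[ℝ] Matrix ι ι ℂ →ₗ[ℝ] ℝ} (hf : Fut a r)
    {A N : Matrix ι ι ℂ} {h : K → Matrix ι ι ℂ} (hA : Psd A) (hN : Psd N)
    (hs : ∀ k, (h k).IsHermitian)
    (hc : ∀ u : ι → ℂ, ∑ k, (qv (h k) u) ^ 2 ≤ qv A u * qv N u) :
    ∑ k, r (h k) (h k) ≤ r A N := by
  have h1 : ∀ s : ℝ, 0 < s → ∑ k, r (h k) (h k) ≤ r A N + s * r 1 N := by
    intro s hs0
    have hp1 : Psd (s • (1 : Matrix ι ι ℂ)) := psd_one.smul hs0.le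
    have h2 := hf.causal_pos (A := A + s • 1) (N := N) (h := h)
      (hA.add hp1) hN hs (fun u => by
        refine (hc u).trans (mul_le_mul_of_nonneg_right ?_ (qv_nonneg hN u))
        rw [qv_add]
        have := qv_nonneg hp1 u
        linarith) (by
        rw [map_add, map_smul, smul_eq_mul]
        have := hf.nonneg A hA
        have := mul_pos hs0 hf.one_pos
        linarith)
    simpa only [map_add, map_smul, LinearMap.add_apply, LinearMap.smul_apply, smul_eq_mul] using h2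
  have h2 : Tendsto (fun s : ℝ => r A N + s * r 1 N) (𝓝[>] 0) (𝓝 (r A N)) := by
    have : Continuous fun s : ℝ => r A N + s * r 1 N := by fun_prop
    have := this.tendsto 0
    simp only [zero_mul, add_zero] at this
    exact this.mono_left nhdsWithin_le_nhds
  exact ge_of_tendsto h2 (eventually_nhdsWithin_of_forall h1)

/-- complex pairing -/
noncomputable def pairZ (C : ι → ι → ι → ι → ℂ)
    (r : Matrix ι ι ℂ →ₗ[ℂ] Matrix ι ι ℂ →ₗ[ℂ] ℂ) : ℂ :=
  ∑ i, ∑ j, ∑ k, ∑ l, C i j k l * r (single i j 1) (single k l 1)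

theorem pairZ_prod (A N : Matrix ι ι ℂ) (r : Matrix ι ι ℂ →ₗ[ℂ] Matrix ι ι ℂ →ₗ[ℂ] ℂ) :
    pairZ (fun i j k l => A i j * N k l) r = r A N := by
  unfold pairZ
  have e0 : r A N = r (∑ i, ∑ j, single i j (A i j)) (∑ k, ∑ l, single k l (N k l)) := by
    rw [← matrix_eq_sum_single A, ← matrix_eq_sum_single N]
  rw [e0, map_sum r, LinearMap.sum_apply]
  refine Finset.sum_congr rfl fun i _ => ?_
  rw [map_sum r, LinearMap.sum_apply]
  refine Finset.sum_congr rfl fun j _ => ?_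
  rw [map_sum]
  refine Finset.sum_congr rfl fun k _ => ?_
  rw [map_sum]
  refine Finset.sum_congr rfl fun l _ => ?_
  have e1 : single i j (A i j) = A i j • single i j (1 : ℂ) := by
    rw [smul_single, smul_eq_mul, mul_one]
  have e2 : single k l (N k l) = N k l • single k l (1 : ℂ) := by
    rw [smul_single, smul_eq_mul, mul_one]
  rw [e1, e2]
  simp only [map_smul, LinearMap.smul_apply, smul_eq_mul]
  ring

theorem pairZ_add (C C' : ι → ι → ι → ι → ℂ)
    (r : Matrix ι ι ℂ →ₗ[ℂ] Matrix ι ι ℂ →ₗ[ℂ] ℂ) :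
    pairZ (fun i j k l => C i j k l + C' i j k l) r = pairZ C r + pairZ C' r := by
  simp only [pairZ, add_mul, Finset.sum_add_distrib]

theorem pairZ_smul (t : ℂ) (C : ι → ι → ι → ι → ℂ)
    (r : Matrix ι ι ℂ →ₗ[ℂ] Matrix ι ι ℂ →ₗ[ℂ] ℂ) :
    pairZ (fun i j k l => t * C i j k l) r = t * pairZ C r := by
  simp only [pairZ, Finset.mul_sum, mul_assoc]

theorem pairZ_sum {K : Type*} (s : Finset K) (C : K → ι → ι → ι → ι → ℂ)
    (r : Matrix ι ι ℂ →ₗ[ℂ] Matrix ι ι ℂ →ₗ[ℂ] ℂ) :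
    pairZ (fun i j k l => ∑ x ∈ s, C x i j k l) r = ∑ x ∈ s, pairZ (C x) r := by
  classical
  induction s using Finset.induction_on with
  | empty => simp [pairZ]
  | insert b s hb ih =>
    simp only [Finset.sum_insert hb, pairZ_add, ih]

theorem pairZ_causal {K : Type*} [Fintype K] (A N : Matrix ι ι ℂ) (h : K → Matrix ι ι ℂ)
    (r : Matrix ι ι ℂ →ₗ[ℂ] Matrix ι ι ℂ →ₗ[ℂ] ℂ) :
    pairZ (fun i j k l => A i j * N k l + (-1) * ∑ x, h x i j * h x k l) r =
      r A N + (-1) * ∑ x, r (h x) (h x) := by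
  rw [pairZ_add (fun i j k l => A i j * N k l) (fun i j k l => (-1) * ∑ x, h x i j * h x k l),
    pairZ_smul, pairZ_sum, pairZ_prod]
  simp only [pairZ_prod]

theorem pairZ_re (C : ι → ι → ι → ι → ℝ) (r : Matrix ι ι ℂ →ₗ[ℂ] Matrix ι ι ℂ →ₗ[ℂ] ℂ) :
    pairC C r = (pairZ (fun i j k l => (C i j k l : ℂ)) r).re := by
  simp only [pairC, pairZ, Complex.re_sum, Complex.re_ofReal_mul]

theorem pairC_add (C C' : ι → ι → ι → ι → ℝ)
    (r : Matrix ι ι ℂ →ₗ[ℂ] Matrix ι ι ℂ →ₗ[ℂ] ℂ) :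
    pairC (fun i j k l => C i j k l + C' i j k l) r = pairC C r + pairC C' r := by
  simp only [pairC, add_mul, Finset.sum_add_distrib]

theorem pairC_smul (t : ℝ) (C : ι → ι → ι → ι → ℝ)
    (r : Matrix ι ι ℂ →ₗ[ℂ] Matrix ι ι ℂ →ₗ[ℂ] ℂ) :
    pairC (fun i j k l => t * C i j k l) r = t * pairC C r := by
  simp only [pairC, Finset.mul_sum, mul_assoc]

theorem pairC_sum {K : Type*} (s : Finset K) (C : K → ι → ι → ι → ι → ℝ)
    (r : Matrix ι ι ℂ →ₗ[ℂ] Matrix ι ι ℂ →ₗ[ℂ] ℂ) :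
    pairC (fun i j k l => ∑ x ∈ s, C x i j k l) r = ∑ x ∈ s, pairC (C x) r := by
  classical
  induction s using Finset.induction_on with
  | empty => simp [pairC]
  | insert b s hb ih =>
    simp only [Finset.sum_insert hb, pairC_add, ih]

theorem TraceCone.sum {K : Type*} (s : Finset K) {C : K → ι → ι → ι → ι → ℝ}
    (h : ∀ x ∈ s, TraceCone (C x)) : TraceCone (fun i j k l => ∑ x ∈ s, C x i j k l) := by
  intro a r hf
  rw [pairC_sum]
  exact Finset.sum_nonneg fun x hx => h x hx a r hf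

theorem TraceCone.add {C C' : ι → ι → ι → ι → ℝ}
    (h : TraceCone C) (h' : TraceCone C') :
    TraceCone (fun i j k l => C i j k l + C' i j k l) := by
  intro a r hf
  rw [pairC_add]
  exact add_nonneg (h a r hf) (h' a r hf)

theorem TraceCone.smul {t : ℝ} (ht : 0 ≤ t) {C : ι → ι → ι → ι → ℝ}
    (h : TraceCone C) : TraceCone (fun i j k l => t * C i j k l) := by
  intro a r hf
  rw [pairC_smul]
  exact mul_nonneg ht (h a r hf)

/-- the complex conjugate matrix -/
noncomputable def cj (A : Matrix ι ι ℂ) : Matrix ι ι ℂ := A.map (starRingEnd ℂ)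

theorem qv_cj (A : Matrix ι ι ℂ) (u : ι → ℂ) : qv (cj A) u = qv A (star u) := by
  simp only [qv, cj, dotProduct, mulVec, Finset.mul_sum, Complex.re_sum, Matrix.map_apply,
    Pi.star_apply, RCLike.star_def, Complex.conj_conj]
  refine Finset.sum_congr rfl fun i _ => Finset.sum_congr rfl fun j _ => ?_
  simp [Complex.mul_re, Complex.mul_im]
  ring

theorem cj_herm {A : Matrix ι ι ℂ} (hA : A.IsHermitian) : (cj A).IsHermitian := by
  ext i j
  have := hA.apply i j
  simp only [cj, Matrix.conjTranspose_apply, Matrix.map_apply, RCLike.star_def,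
    Complex.conj_conj] at this ⊢
  rw [← this]
  simp

theorem cj_psd {A : Matrix ι ι ℂ} (hA : Psd A) : Psd (cj A) :=
  psd_of (cj_herm hA.1) fun u => by rw [qv_cj]; exact qv_nonneg hA _

theorem traceCone_causal {K : Type*} [Fintype K]
    {A N : Matrix ι ι ℂ} {h : K → Matrix ι ι ℂ} (hA : Psd A) (hN : Psd N)
    (hs : ∀ k, (h k).IsHermitian)
    (hc : ∀ u : ι → ℂ, ∑ k, (qv (h k) u) ^ 2 ≤ qv A u * qv N u) :
    TraceCone (fun i j k l => (A i j * N k l - ∑ x, h x i j * h x k l).re) := by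
  intro a r hf
  have h1 := hf.causal hA hN hs hc
  have h1' := hf.causal (cj_psd hA) (cj_psd hN) (fun k => cj_herm (hs k)) (fun u => by
    simp only [qv_cj]
    exact hc (star u))
  simp only [reR_apply] at h1 h1'
  have h2 : pairC (fun i j k l => (A i j * N k l - ∑ x, h x i j * h x k l).re) r =
      ((r A N - ∑ x, r (h x) (h x)) + (r (cj A) (cj N) - ∑ x, r (cj (h x)) (cj (h x)))).re / 2 := by
    rw [pairZ_re]
    have e : (fun i j k l : ι => ((((A i j * N k l - ∑ x, h x i j * h x k l).re : ℝ)) : ℂ)) =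
        fun i j k l => (1 / 2) * ((A i j * N k l + (-1) * ∑ x, h x i j * h x k l) +
          (cj A i j * cj N k l + (-1) * ∑ x, cj (h x) i j * cj (h x) k l)) := by
      funext i j k l
      rw [Complex.re_eq_add_conj]
      simp only [map_sub, map_mul, map_sum, cj, Matrix.map_apply]
      ring
    have e3 : pairZ (fun i j k l => ((((A i j * N k l - ∑ x, h x i j * h x k l).re : ℝ)) : ℂ)) r =
        ((r A N - ∑ x, r (h x) (h x)) +
          (r (cj A) (cj N) - ∑ x, r (cj (h x)) (cj (h x)))) / 2 := by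
      rw [e, pairZ_smul, pairZ_add, pairZ_causal, pairZ_causal]
      ring
    rw [e3]
    have e4 : ∀ z : ℂ, (z / 2).re = z.re / 2 := by
      intro z
      have : z / 2 = ((1 / 2 : ℝ) : ℂ) * z := by push_cast; ring
      rw [this, Complex.re_ofReal_mul]; ring
    rw [e4]
  rw [h2]
  simp only [Complex.add_re, Complex.sub_re, Complex.re_sum]
  linarith

end Pool.Agent.H53HC
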