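import Pool.Agent.H53HC.Poly
import Pool.Agent.H53HC.Trace

/-!
# The polynomial ring in the entries of two matrices and the time
-/

set_option autoImplicit false
set_option linter.unusedSectionVars false

namespace Pool.Agent.H53HC

open Filter Topology Matrix Finset

variable {ι : Type*} [Fintype ι] [DecidableEq ι]

/-- variables: the time, the entries of `Y`, the entries of `Z` -/
abbrev Var (ι : Type*) := Option ((ι × ι) ⊕ (ι × ι))

/-- the polynomial ring -/
abbrev PR (ι : Type*) := MvPolynomial (Var ι) ℂ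

/-- the point with coordinates `Y, Z, t` -/
def pt (Y Z : Matrix ι ι ℂ) (t : ℂ) : Var ι → ℂ
  | none => t
  | some (Sum.inl p) => Y p.1 p.2
  | some (Sum.inr p) => Z p.1 p.2

theorem pt_add (Y Z Y' Z' : Matrix ι ι ℂ) (t t' : ℂ) :
    pt Y Z t + pt Y' Z' t' = pt (Y + Y') (Z + Z') (t + t') := by
  funext v
  rcases v with _ | p | p <;> rfl

theorem pt_smul (c : ℂ) (Y Z : Matrix ι ι ℂ) (t : ℂ) :
    c • pt Y Z t = pt (c • Y) (c • Z) (c * t) := by
  funext v
  rcases v with _ | p | p <;> rfl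

theorem pt_zero : (pt 0 0 0 : Var ι → ℂ) = 0 := by
  funext v
  rcases v with _ | p | p <;> rfl

theorem continuous_pt {X : Type*} [TopologicalSpace X] {Y Z : X → Matrix ι ι ℂ} {t : X → ℂ}
    (hY : Continuous Y) (hZ : Continuous Z) (ht : Continuous t) :
    Continuous fun x => pt (Y x) (Z x) (t x) := by
  refine continuous_pi fun v => ?_
  rcases v with _ | p | p
  · exact ht
  · exact hY.matrix_elem p.1 p.2
  · exact hZ.matrix_elem p.1 p.2

/-- derivative with respect to `Z` in the direction `x` -/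
noncomputable def dz (x : Matrix ι ι ℂ) : Module.End ℂ (PR ι) := (D (pt 0 x 0)).toLinearMap

/-- derivative with respect to the time -/
noncomputable def dt : Derivation ℂ (PR ι) (PR ι) := D (pt 0 0 1)

theorem dz_apply (x : Matrix ι ι ℂ) (p : PR ι) : dz x p = D (pt 0 x 0) p := rfl

theorem dz_add (x y : Matrix ι ι ℂ) : dz (x + y) = dz x + dz y := by
  have : pt 0 (x + y) 0 = pt 0 x 0 + pt 0 y 0 := by rw [pt_add, add_zero, add_zero]
  unfold dz
  rw [this, D_add]
  rfl

theorem dz_smul (c : ℂ) (x : Matrix ι ι ℂ) : dz (c • x) = c • dz x := by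
  have : pt 0 (c • x) 0 = c • pt 0 x 0 := by rw [pt_smul, smul_zero, mul_zero]
  unfold dz
  rw [this, D_smul]
  rfl

theorem dz_comm (x y : Matrix ι ι ℂ) : dz x * dz y = dz y * dz x := by
  exact LinearMap.ext fun p => D_comm _ _ p

theorem dz_time (x : Matrix ι ι ℂ) (k : ℕ) (p : PR ι) :
    dz x ((MvPolynomial.X none) ^ k * p) = (MvPolynomial.X none) ^ k * dz x p := by
  have h : D (pt 0 x 0) (MvPolynomial.X none ^ k : PR ι) = 0 := by
    rw [Derivation.leibniz_pow, D_X]
    simp [pt]
  rw [dz_apply, Derivation.leibniz, h, smul_zero, add_zero, smul_eq_mul]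
  rfl

/-- the subalgebra of operators generated by the derivatives with respect to `Z` -/
noncomputable def Az (ι : Type*) [Fintype ι] [DecidableEq ι] :
    Subalgebra ℂ (Module.End ℂ (PR ι)) :=
  Algebra.adjoin ℂ (Set.range fun x : Matrix ι ι ℂ => dz x)

theorem dz_mem (x : Matrix ι ι ℂ) : dz x ∈ Az ι := Algebra.subset_adjoin ⟨x, rfl⟩

theorem Az_comm {T : Module.End ℂ (PR ι)} (hT : T ∈ Az ι) (x : Matrix ι ι ℂ) :
    T * dz x = dz x * T := by
  induction hT using Algebra.adjoin_induction with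
  | mem T h =>
    obtain ⟨y, rfl⟩ := h
    exact dz_comm y x
  | algebraMap c => exact Algebra.commutes c _
  | add S T _ _ hS hT => rw [add_mul, mul_add, hS, hT]
  | mul S T _ _ hS hT => rw [mul_assoc, hT, ← mul_assoc, hS, mul_assoc]

theorem Az_comm' {S T : Module.End ℂ (PR ι)} (hS : S ∈ Az ι) (hT : T ∈ Az ι) :
    S * T = T * S := by
  induction hS using Algebra.adjoin_induction with
  | mem S h =>
    obtain ⟨y, rfl⟩ := h
    exact (Az_comm hT y).symm
  | algebraMap c => exact Algebra.commutes c _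
  | add A B _ _ hA hB => rw [add_mul, mul_add, hA, hB]
  | mul A B _ _ hA hB => rw [mul_assoc, hB, ← mul_assoc, hA, mul_assoc]

theorem Az_dt {T : Module.End ℂ (PR ι)} (hT : T ∈ Az ι) (p : PR ι) : dt (T p) = T (dt p) := by
  induction hT using Algebra.adjoin_induction generalizing p with
  | mem T h =>
    obtain ⟨y, rfl⟩ := h
    exact D_comm _ _ p
  | algebraMap c =>
    rw [Module.algebraMap_end_apply, Module.algebraMap_end_apply, Derivation.map_smul]
  | add S T _ _ hS hT => rw [LinearMap.add_apply, LinearMap.add_apply, map_add, hS, hT]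
  | mul S T _ _ hS hT => rw [Module.End.mul_apply, Module.End.mul_apply, hS, hT]

theorem Az_time {T : Module.End ℂ (PR ι)} (hT : T ∈ Az ι) (k : ℕ) (p : PR ι) :
    T ((MvPolynomial.X none) ^ k * p) = (MvPolynomial.X none) ^ k * T p := by
  induction hT using Algebra.adjoin_induction generalizing p with
  | mem T h =>
    obtain ⟨y, rfl⟩ := h
    exact dz_time y k p
  | algebraMap c =>
    rw [Module.algebraMap_end_apply, Module.algebraMap_end_apply, mul_smul_comm]
  | add S T _ _ hS hT => rw [LinearMap.add_apply, LinearMap.add_apply, mul_add, hS, hT]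
  | mul S T _ _ hS hT => rw [Module.End.mul_apply, Module.End.mul_apply, hT, hS]

/-- `F` at `p + W` is `c` times `G` at `q + W`, for all `W` in the directions of `Z` and time. -/
def Rel (p q : Var ι → ℂ) (c : ℂ) (F G : PR ι) : Prop :=
  ∀ (W : Matrix ι ι ℂ) (t : ℂ), MvPolynomial.eval (p + pt 0 W t) F =
    c * MvPolynomial.eval (q + pt 0 W t) G

theorem Rel.dz {p q : Var ι → ℂ} {c : ℂ} {F G : PR ι} (h : Rel p q c F G) (x : Matrix ι ι ℂ) :
    Rel p q c (dz x F) (dz x G) := by
  intro W t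
  have h1 : cv (p + pt 0 W t) (pt 0 x 0) 0 F =
      Polynomial.C c * cv (q + pt 0 W t) (pt 0 x 0) 0 G := by
    refine Polynomial.funext fun τ => ?_
    rw [Polynomial.eval_mul, Polynomial.eval_C, eval_cv, eval_cv, smul_zero, add_zero, add_zero,
      pt_smul, smul_zero, mul_zero, add_assoc, add_assoc, pt_add, add_zero, add_zero]
    exact h _ _
  have h2 := congrArg (fun r => Polynomial.coeff r 1) h1
  simp only [Polynomial.coeff_C_mul, cv_coeff_one] at h2
  exact h2

theorem Rel.Az {p q : Var ι → ℂ} {c : ℂ} {T : Module.End ℂ (PR ι)} (hT : T ∈ Az ι)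
    {F G : PR ι} (h : Rel p q c F G) : Rel p q c (T F) (T G) := by
  induction hT using Algebra.adjoin_induction generalizing F G with
  | mem T hT =>
    obtain ⟨y, rfl⟩ := hT
    exact h.dz y
  | algebraMap a =>
    intro W t
    rw [Module.algebraMap_end_apply, Module.algebraMap_end_apply, MvPolynomial.smul_eval,
      MvPolynomial.smul_eval, h W t]
    ring
  | add S T _ _ hS hT =>
    intro W t
    rw [LinearMap.add_apply, LinearMap.add_apply, map_add, map_add, hS h W t, hT h W t]
    ring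
  | mul S T _ _ hS hT =>
    exact hS (hT h)

theorem Rel.sum {p q : Var ι → ℂ} {c : ℂ} {K : Type*} {s : Finset K} {F G : K → PR ι}
    (h : ∀ k ∈ s, Rel p q c (F k) (G k)) : Rel p q c (∑ k ∈ s, F k) (∑ k ∈ s, G k) := by
  intro W t
  rw [map_sum, map_sum, Finset.mul_sum]
  exact Finset.sum_congr rfl fun k hk => h k hk W t

/-- the truncated exponential of `t T` -/
noncomputable def flow (T : Module.End ℂ (PR ι)) (K : ℕ) (p : PR ι) : PR ι :=
  ∑ k ∈ range (K + 1), ((k.factorial : ℂ)⁻¹) • ((MvPolynomial.X none) ^ k * (T ^ k) p)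

theorem eval_flow (T : Module.End ℂ (PR ι)) (K : ℕ) (p : PR ι) (Y Z : Matrix ι ι ℂ) (t : ℂ) :
    MvPolynomial.eval (pt Y Z t) (flow T K p) =
      ∑ k ∈ range (K + 1), (k.factorial : ℂ)⁻¹ * (t ^ k *
        MvPolynomial.eval (pt Y Z t) ((T ^ k) p)) := by
  rw [flow, map_sum]
  refine Finset.sum_congr rfl fun k _ => ?_
  rw [MvPolynomial.smul_eval, map_mul, map_pow, MvPolynomial.eval_X]
  rfl

theorem eval_flow_zero (T : Module.End ℂ (PR ι)) (K : ℕ) (p : PR ι) (Y Z : Matrix ι ι ℂ) :
    MvPolynomial.eval (pt Y Z 0) (flow T K p) = MvPolynomial.eval (pt Y Z 0) p := by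
  rw [eval_flow, Finset.sum_range_succ']
  simp

theorem dt_flow {T : Module.End ℂ (PR ι)} (hT : T ∈ Az ι) {K : ℕ} {p : PR ι}
    (hp : dt p = 0) (hK : (T ^ (K + 1)) p = 0) : dt (flow T K p) = T (flow T K p) := by
  have hTk : ∀ k : ℕ, T ^ k ∈ Az ι := fun k => Subalgebra.pow_mem _ hT k
  have h1 : ∀ k : ℕ, dt ((MvPolynomial.X none) ^ k * (T ^ k) p) =
      (k : ℂ) • ((MvPolynomial.X none) ^ (k - 1) * (T ^ k) p) := by
    intro k
    have h2 : dt (MvPolynomial.X none ^ k : PR ι) = (k : ℂ) • (MvPolynomial.X none) ^ (k - 1) := by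
      rw [Derivation.leibniz_pow, dt, D_X]
      simp only [pt, MvPolynomial.C_1, smul_eq_mul, mul_one]
      rw [← Nat.cast_smul_eq_nsmul ℂ]
    rw [Derivation.leibniz, h2, Az_dt (hTk k), hp, map_zero, smul_zero, zero_add, smul_eq_mul,
      mul_smul_comm, mul_comm]
  have h3 : ∀ k : ℕ, T ((MvPolynomial.X none) ^ k * (T ^ k) p) =
      (MvPolynomial.X none) ^ k * (T ^ (k + 1)) p := by
    intro k
    rw [Az_time hT, pow_succ', Module.End.mul_apply]
  rw [flow, map_sum, map_sum, Finset.sum_range_succ', Finset.sum_range_succ]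
  simp only [Derivation.map_smul, map_smul, h1, h3, hK, mul_zero, smul_zero, add_zero,
    Nat.cast_zero, zero_smul]
  refine Finset.sum_congr rfl fun k _ => ?_
  rw [Nat.add_sub_cancel, smul_smul, Nat.factorial_succ]
  congr 1
  have : ((k : ℂ) + 1) ≠ 0 := Nat.cast_add_one_ne_zero k
  push_cast
  field_simp

theorem flow_comm {T S : Module.End ℂ (PR ι)} (hT : T ∈ Az ι) (hS : S ∈ Az ι) (K : ℕ) (p : PR ι)
    (hp : S p = 0) : S (flow T K p) = 0 := by
  have hTS : ∀ k : ℕ, S * T ^ k = T ^ k * S := fun k =>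
    Az_comm' hS (Subalgebra.pow_mem _ hT k)
  rw [flow, map_sum]
  refine Finset.sum_eq_zero fun k _ => ?_
  rw [map_smul, Az_time hS, ← Module.End.mul_apply, hTS, Module.End.mul_apply, hp, map_zero,
    mul_zero, smul_zero]

theorem Rel.flow {p q : Var ι → ℂ} {c : ℂ} {T : Module.End ℂ (PR ι)} (hT : T ∈ H53HC.Az ι) (K : ℕ)
    {F G : PR ι} (h : Rel p q c F G) (h0 : p none = q none) :
    Rel p q c (H53HC.flow T K F) (H53HC.flow T K G) := by
  refine Rel.sum fun k _ => ?_
  intro W t
  have h1 := h.Az (Subalgebra.pow_mem _ hT k) W t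
  rw [MvPolynomial.smul_eval, MvPolynomial.smul_eval, map_mul, map_mul, map_pow, map_pow,
    MvPolynomial.eval_X, MvPolynomial.eval_X, h1, Pi.add_apply, Pi.add_apply, h0]
  ring

/-- the universal determinant `det (1 + Y Z)` -/
noncomputable def p0 (ι : Type*) [Fintype ι] [DecidableEq ι] : PR ι :=
  Matrix.det (1 + Matrix.of (fun i j => MvPolynomial.X (some (Sum.inl (i, j)))) *
    Matrix.of (fun i j => MvPolynomial.X (some (Sum.inr (i, j)))))

/-- the universal determinant `det Z` -/
noncomputable def q0 (ι : Type*) [Fintype ι] [DecidableEq ι] : PR ι :=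
  Matrix.det (Matrix.of (fun i j => MvPolynomial.X (some (Sum.inr (i, j)))))

theorem eval_p0 (Y Z : Matrix ι ι ℂ) (t : ℂ) :
    MvPolynomial.eval (pt Y Z t) (p0 ι) = (1 + Y * Z).det := by
  rw [p0, RingHom.map_det]
  congr 1
  ext i j
  simp [Matrix.mul_apply, pt, Matrix.one_apply, apply_ite]

theorem eval_q0 (Y Z : Matrix ι ι ℂ) (t : ℂ) :
    MvPolynomial.eval (pt Y Z t) (q0 ι) = Z.det := by
  rw [q0, RingHom.map_det]
  congr 1
  ext i j
  simp [pt]

/-- a polynomial is zero if it vanishes at all points -/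
theorem eq_zero_of_eval {p : PR ι} (h : ∀ Y Z t, MvPolynomial.eval (pt Y Z t) p = 0) : p = 0 := by
  refine MvPolynomial.funext fun v => ?_
  have : v = pt (Matrix.of fun i j => v (some (Sum.inl (i, j))))
      (Matrix.of fun i j => v (some (Sum.inr (i, j)))) (v none) := by
    funext x
    rcases x with _ | p | p <;> rfl
  rw [map_zero, this]
  exact h _ _ _

theorem dt_p0 : dt (p0 ι) = 0 := by
  refine eq_zero_of_eval fun Y Z t => ?_
  have h := cv_coeff_one (pt Y Z t) (pt 0 0 1) 0 (p0 ι)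
  have h1 : cv (pt Y Z t) (pt 0 0 1) 0 (p0 ι) = Polynomial.C ((1 + Y * Z).det) := by
    refine Polynomial.funext fun τ => ?_
    rw [eval_cv, smul_zero, add_zero, pt_smul, smul_zero, pt_add, add_zero, add_zero, eval_p0,
      Polynomial.eval_C]
  rw [h1, Polynomial.coeff_C] at h
  exact h.symm

theorem p0_ne_zero : p0 ι ≠ 0 := by
  intro h
  have h1 := eval_p0 (0 : Matrix ι ι ℂ) 0 0
  rw [h] at h1
  simp at h1

/-- the determinant is affine in the direction of a matrix of rank one -/
theorem dz_dz_rank_one (u v : ι → ℂ) :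
    dz (vecMulVec u v) (dz (vecMulVec u v) (p0 ι)) = 0 := by
  have h : p0 ι * dz (vecMulVec u v) (dz (vecMulVec u v) (p0 ι)) = 0 := by
    refine eq_zero_of_eval fun Y Z t => ?_
    rw [map_mul, eval_p0]
    by_cases hM : (1 + Y * Z).det = 0
    · rw [hM, zero_mul]
    have hu : IsUnit (1 + Y * Z).det := isUnit_iff_ne_zero.2 hM
    have h1 : ∃ c : ℂ, cv (pt Y Z t) (pt 0 (vecMulVec u v) 0) 0 (p0 ι) =
        Polynomial.C ((1 + Y * Z).det) * (1 + Polynomial.C c * Polynomial.X) := by
      refine ⟨v ⬝ᵥ ((1 + Y * Z)⁻¹ *ᵥ (Y *ᵥ u)), ?_⟩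
      refine Polynomial.funext fun τ => ?_
      rw [eval_cv, smul_zero, add_zero, pt_smul, smul_zero, mul_zero, pt_add, add_zero, add_zero,
        eval_p0]
      have h2 : 1 + Y * (Z + τ • vecMulVec u v) = (1 + Y * Z) *
          (1 + replicateCol Unit (τ • ((1 + Y * Z)⁻¹ *ᵥ (Y *ᵥ u))) * replicateRow Unit v) := by
        rw [mul_add, mul_add, mul_one, ← add_assoc]
        congr 1
        rw [← vecMulVec_eq, ← smul_vecMulVec, Matrix.mul_vecMulVec, Matrix.mul_vecMulVec,
          Matrix.mulVec_smul, Matrix.mulVec_smul, Matrix.mulVec_mulVec,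
          Matrix.mul_nonsing_inv _ hu, Matrix.one_mulVec]
      rw [h2, Matrix.det_mul, Matrix.det_one_add_replicateCol_mul_replicateRow]
      simp only [Polynomial.eval_mul, Polynomial.eval_C, Polynomial.eval_add, Polynomial.eval_one,
        Polynomial.eval_X, dotProduct_smul, smul_eq_mul]
      ring
    obtain ⟨c, hc⟩ := h1
    have h3 := cv_coeff_two (pt Y Z t) (pt 0 (vecMulVec u v) 0) 0 (p0 ι)
    have h4 : (Polynomial.C ((1 + Y * Z).det) * (1 + Polynomial.C c * Polynomial.X)).coeff 2 =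
        0 := by
      rw [Polynomial.coeff_C_mul, Polynomial.coeff_add, Polynomial.coeff_C_mul,
        Polynomial.coeff_one, Polynomial.coeff_X]
      norm_num
    have h5 : D (0 : Var ι → ℂ) (p0 ι) = 0 := by
      rw [D_eq_sum]
      simp
    rw [hc, h4, h5, map_zero, add_zero] at h3
    have h6 : MvPolynomial.eval (pt Y Z t)
        (dz (vecMulVec u v) (dz (vecMulVec u v) (p0 ι))) = 0 := by
      have : (MvPolynomial.eval (pt Y Z t))
        (D (pt 0 (vecMulVec u v) 0) (D (pt 0 (vecMulVec u v) 0) (p0 ι))) = 0 := by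
        field_simp at h3
        simpa using h3.symm
      exact this
    rw [h6, mul_zero]
  rcases mul_eq_zero.1 h with h1 | h1
  · exact absurd h1 p0_ne_zero
  · exact h1

end Pool.Agent.H53HC
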