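import Pool.Agent.H53HC.Conn

/-!
# The double alternating sum of a tensor of the cone is nonnegative
-/

set_option autoImplicit false
set_option linter.unusedSectionVars false

namespace Pool.Agent.H53HC

open Filter Topology Matrix Finset Pool.Agent.W666.GB

theorem q0_eq (ι : Type*) [Fintype ι] [DecidableEq ι] :
    q0 ι = ∑ σ : Equiv.Perm ι, ((sn σ : ℝ) : ℂ) • Rp (σ : ι → ι) univ := by
  rw [q0, Matrix.det_apply]
  refine Finset.sum_congr rfl fun σ _ => ?_
  rw [Rp, sn]
  simp only [Matrix.of_apply]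
  rw [Units.smul_def, ← Int.cast_smul_eq_zsmul ℂ]
  simp

section

variable {m : ℕ}

/-- functions on the pairs as functions to pairs -/
def thE (ι : Type*) : (Fin m × Bool → ι) ≃ (Fin m → ι × ι) :=
  (Equiv.curry (Fin m) Bool ι).trans (Equiv.arrowCongr (Equiv.refl _) (Equiv.boolArrowEquivProd ι))

theorem thE_apply {ι : Type*} (h : Fin m × Bool → ι) (b : Fin m) :
    thE ι h b = (h (b, false), h (b, true)) := rfl

theorem cnt_thE (h : Fin m × Bool → Fin m × Bool) :
    cnt (thE _ h) = indi (univ : Finset (Fin m × Bool)) ↔ Function.Bijective h := by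
  have h0 : ∀ x, cnt (thE _ h) x = ∑ y : Fin m × Bool, if h y = x then 1 else 0 := by
    intro x
    rw [cnt, Fintype.sum_prod_type]
    refine Finset.sum_congr rfl fun b _ => ?_
    rw [Fintype.sum_bool, thE_apply, add_comm]
  constructor
  · intro hc
    have hs : Function.Surjective h := by
      intro x
      by_contra hn
      push Not at hn
      have h1 := congrFun hc x
      rw [h0] at h1
      simp [hn, indi] at h1
    exact Finite.injective_iff_bijective.1 (Finite.injective_iff_surjective.2 hs)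
  · intro hb
    funext x
    rw [h0]
    obtain ⟨y, rfl⟩ := hb.2 x
    rw [Finset.sum_eq_single y]
    · simp [indi]
    · intro z _ hz
      rw [if_neg (fun he => hz (hb.1 he))]
    · simp

theorem eval_Lop_q0 (C : Fin m × Bool → Fin m × Bool → Fin m × Bool → Fin m × Bool → ℝ) :
    MvPolynomial.eval (pt 0 0 1) ((Lop C ^ m) (q0 (Fin m × Bool))) = ((Yf C : ℝ) : ℂ) := by
  classical
  rw [q0_eq, map_sum, map_sum]
  simp only [map_smul, MvPolynomial.smul_eval, eval_Lop_Rp]
  have h1 : ∀ σ : Equiv.Perm (Fin m × Bool),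
      (∑ f : Fin m → (Fin m × Bool) × (Fin m × Bool), if cnt f = indi univ then
        ∏ b, C (σ (f b).1) (f b).1 (σ (f b).2) (f b).2 else 0) =
      ∑ β : Equiv.Perm (Fin m × Bool), ∏ b : Fin m, C (σ (β (b, false))) (β (b, false))
        (σ (β (b, true))) (β (b, true)) := by
    intro σ
    rw [← Equiv.sum_comp (thE (Fin m × Bool))]
    rw [← sum_bij_perm (fun h : Fin m × Bool → Fin m × Bool => ∏ b : Fin m,
      C (σ (h (b, false))) (h (b, false)) (σ (h (b, true))) (h (b, true)))]
    refine Finset.sum_congr rfl fun h _ => ?_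
    by_cases hb : Function.Bijective h
    · rw [if_pos ((cnt_thE h).2 hb), if_pos hb, one_mul]
      rfl
    · rw [if_neg (fun hc => hb ((cnt_thE h).1 hc)), if_neg hb, zero_mul]
  simp only [h1]
  rw [Yf, Finset.sum_comm]
  simp only [← Complex.ofReal_mul, ← Complex.ofReal_sum]
  congr 1
  simp only [Finset.mul_sum]
  rw [Finset.sum_comm]
  refine Finset.sum_congr rfl fun β _ => ?_
  conv_rhs => rw [← Equiv.sum_comp (Equiv.mulRight β)]
  refine Finset.sum_congr rfl fun σ _ => ?_
  simp only [Equiv.coe_mulRight, Equiv.Perm.mul_apply, sn_mul]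
  rw [mul_assoc (sn σ), sn_mul_self, mul_one]

theorem eval_Lop_q0_ne (C : Fin m × Bool → Fin m × Bool → Fin m × Bool → Fin m × Bool → ℝ)
    {k : ℕ} (hk : k ≠ m) :
    MvPolynomial.eval (pt 0 0 1) ((Lop C ^ k) (q0 (Fin m × Bool))) = 0 := by
  classical
  rw [q0_eq, map_sum, map_sum]
  simp only [map_smul, MvPolynomial.smul_eval, eval_Lop_Rp]
  refine Finset.sum_eq_zero fun σ _ => ?_
  rw [Finset.sum_eq_zero, Complex.ofReal_zero, mul_zero]
  intro f _
  rw [if_neg]
  intro hc
  have h1 : ∑ x, cnt f x = 2 * k := by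
    simp only [cnt]
    rw [Finset.sum_comm]
    simp only [Finset.sum_add_distrib]
    simp
    ring
  rw [hc] at h1
  simp [indi] at h1
  omega

end

end Pool.Agent.H53HC
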